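import Mathlib

set_option autoImplicit false

/-!
# Complex ball arithmetic and a Gram-matrix checker

`CB` is a complex ball with centre `(re + im I) / 2^60` and radius `rad / 2^60`.
`Term` is a hermitian-type product `Re (c * conj (L v) * M v)` of linear functionals in the lifted
variables `ξ^m * v j` (keys `(j, m)`).
`smallForm` checks that a sum of terms has all its (lower triangular) coefficients small.
-/

namespace Pool.Agent.H81.W

open Complex

/-- a complex ball, scaled by `2^60` -/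
structure CB where
  re : Int
  im : Int
  rad : Nat
deriving DecidableEq

namespace CB

/-- centre of the ball (scaled by `2^60`) -/
noncomputable def c (a : CB) : ℂ := (a.re : ℂ) + (a.im : ℂ) * I

/-- membership -/
def Mem (a : CB) (z : ℂ) : Prop := ‖(2 : ℂ) ^ 60 * z - a.c‖ ≤ a.rad

def zero : CB := ⟨0, 0, 0⟩
def add (a b : CB) : CB := ⟨a.re + b.re, a.im + b.im, a.rad + b.rad⟩
def neg (a : CB) : CB := ⟨-a.re, -a.im, a.rad⟩
def conj (a : CB) : CB := ⟨a.re, -a.im, a.rad⟩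

def nstep (n s : Nat) : Nat := (s + n / s) / 2 + 1

def nrmAux2 (n s0 s : Nat) : Nat := if n ≤ s * s then s else s0

def nrmAux (n s0 : Nat) : Nat := nrmAux2 n s0 (nstep n (nstep n (nstep n s0)))

/-- upper bound for the norm of the centre -/
def nrm (a : CB) : Nat :=
  nrmAux (a.re.natAbs * a.re.natAbs + a.im.natAbs * a.im.natAbs) (a.re.natAbs + a.im.natAbs)

def mul (a b : CB) : CB :=
  ⟨(a.re * b.re - a.im * b.im) / 2 ^ 60, (a.re * b.im + a.im * b.re) / 2 ^ 60,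
    (nrm a * b.rad + nrm b * a.rad + a.rad * b.rad) / 2 ^ 60 + 3⟩

def lit (re im : Int) (den : Nat) : CB :=
  ⟨re * 2 ^ 60 / (den : Int), im * 2 ^ 60 / (den : Int), 2⟩

/-- crude upper bound of the norm of an element -/
def up (a : CB) : Nat := a.re.natAbs + a.im.natAbs + a.rad

theorem mem_zero : zero.Mem 0 := by simp [Mem, zero, c]

theorem mem_add {a b : CB} {z w : ℂ} (ha : a.Mem z) (hb : b.Mem w) : (add a b).Mem (z + w) := by
  unfold Mem at *
  have : (2 : ℂ) ^ 60 * (z + w) - (add a b).c = ((2 : ℂ) ^ 60 * z - a.c) + ((2 : ℂ) ^ 60 * w - b.c) := by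
    simp only [c, add]; push_cast; ring
  rw [this]
  refine (norm_add_le _ _).trans ?_
  simp only [add]; push_cast; linarith

theorem mem_neg {a : CB} {z : ℂ} (ha : a.Mem z) : (neg a).Mem (-z) := by
  unfold Mem at *
  have : (2 : ℂ) ^ 60 * (-z) - (neg a).c = -((2 : ℂ) ^ 60 * z - a.c) := by
    simp only [c, neg]; push_cast; ring
  rw [this, norm_neg]
  exact ha

theorem mem_conj {a : CB} {z : ℂ} (ha : a.Mem z) : (conj a).Mem ((starRingEnd ℂ) z) := by
  unfold Mem at *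
  have : (2 : ℂ) ^ 60 * ((starRingEnd ℂ) z) - (conj a).c
      = (starRingEnd ℂ) ((2 : ℂ) ^ 60 * z - a.c) := by
    have h2 : (starRingEnd ℂ) (2 : ℂ) = 2 := Complex.conj_ofNat 2
    simp only [c, conj, map_sub, map_mul, map_pow, map_add, h2, Complex.conj_I, map_intCast]
    push_cast
    ring
  rw [this, RCLike.norm_conj]
  exact ha

theorem norm_c_sq (a : CB) : ‖a.c‖ ^ 2 = ((a.re.natAbs * a.re.natAbs + a.im.natAbs * a.im.natAbs : ℕ) : ℝ) := by
  have h1 : ‖a.c‖ ^ 2 = (a.re : ℝ) ^ 2 + (a.im : ℝ) ^ 2 := by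
    rw [← Complex.normSq_eq_norm_sq, Complex.normSq_apply]
    simp [c]
    ring
  rw [h1]
  push_cast
  have e1 : ((a.re.natAbs : ℕ) : ℝ) = |(a.re : ℝ)| := by
    rw [Nat.cast_natAbs]; simp
  have e2 : ((a.im.natAbs : ℕ) : ℝ) = |(a.im : ℝ)| := by
    rw [Nat.cast_natAbs]; simp
  rw [e1, e2, abs_mul_abs_self, abs_mul_abs_self]
  ring

theorem norm_c_le_l1 (a : CB) : ‖a.c‖ ≤ ((a.re.natAbs + a.im.natAbs : ℕ) : ℝ) := by
  have e1 : ((a.re.natAbs : ℕ) : ℝ) = |(a.re : ℝ)| := by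
    rw [Nat.cast_natAbs]; simp
  have e2 : ((a.im.natAbs : ℕ) : ℝ) = |(a.im : ℝ)| := by
    rw [Nat.cast_natAbs]; simp
  push_cast
  rw [e1, e2]
  refine (Complex.norm_le_abs_re_add_abs_im _).trans ?_
  simp [c]

theorem norm_c_le_nrm (a : CB) : ‖a.c‖ ≤ (nrm a : ℝ) := by
  unfold nrm nrmAux nrmAux2
  split_ifs with h
  · have h2 := norm_c_sq a
    have h3 : ‖a.c‖ ^ 2 ≤ ((nstep (a.re.natAbs * a.re.natAbs + a.im.natAbs * a.im.natAbs)
        (nstep (a.re.natAbs * a.re.natAbs + a.im.natAbs * a.im.natAbs)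
          (nstep (a.re.natAbs * a.re.natAbs + a.im.natAbs * a.im.natAbs)
            (a.re.natAbs + a.im.natAbs))) : ℕ) : ℝ) ^ 2 := by
      rw [h2, sq]
      exact_mod_cast h
    exact le_of_sq_le_sq_of_nonneg h3
  · exact norm_c_le_l1 a
where
  le_of_sq_le_sq_of_nonneg {x : ℝ} {n : ℕ} (h : x ^ 2 ≤ (n : ℝ) ^ 2) : x ≤ n :=
    le_of_sq_le_sq h (Nat.cast_nonneg n)
  le_of_sq_le_sq {x y : ℝ} (h : x ^ 2 ≤ y ^ 2) (hy : 0 ≤ y) : x ≤ y := by
    exact abs_le_of_sq_le_sq' h hy |>.2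

theorem int_div_cast (x : ℤ) : ‖((x : ℂ) / 2 ^ 60) - ((x / 2 ^ 60 : ℤ) : ℂ)‖ ≤ 1 := by
  have h1 : ((x : ℂ) / 2 ^ 60) - ((x / 2 ^ 60 : ℤ) : ℂ) = (((x % 2 ^ 60 : ℤ) : ℝ) / 2 ^ 60 : ℝ) := by
    have := Int.emod_add_mul_ediv x (2 ^ 60)
    have h2 : (x : ℂ) = ((x % 2 ^ 60 : ℤ) : ℂ) + 2 ^ 60 * ((x / 2 ^ 60 : ℤ) : ℂ) := by
      exact_mod_cast this.symm
    rw [h2]
    push_cast
    field_simp
    ring
  rw [h1, Complex.norm_real, Real.norm_eq_abs, abs_div]
  have h3 : (0 : ℝ) ≤ ((x % 2 ^ 60 : ℤ) : ℝ) := by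
    exact_mod_cast Int.emod_nonneg x (by norm_num)
  have h4 : ((x % 2 ^ 60 : ℤ) : ℝ) ≤ 2 ^ 60 := by
    exact_mod_cast (Int.emod_lt_of_pos x (by norm_num)).le
  rw [abs_of_nonneg h3, abs_of_pos (by positivity : (0 : ℝ) < 2 ^ 60)]
  rw [div_le_one (by positivity)]
  exact h4

theorem mem_mul {a b : CB} {z w : ℂ} (ha : a.Mem z) (hb : b.Mem w) : (mul a b).Mem (z * w) := by
  unfold Mem at *
  set Z := (2 : ℂ) ^ 60 * z with hZ
  set W := (2 : ℂ) ^ 60 * w with hW
  have hna := norm_c_le_nrm a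
  have hnb := norm_c_le_nrm b
  set A := a.c with hA
  set B := b.c with hB
  have e1 : ‖Z * W - A * B‖ ≤ nrm a * b.rad + nrm b * a.rad + a.rad * b.rad := by
    have : Z * W - A * B = A * (W - B) + B * (Z - A) + (Z - A) * (W - B) := by ring
    rw [this]
    refine (norm_add_le _ _).trans ?_
    refine add_le_add ((norm_add_le _ _).trans ?_) ?_
    · rw [norm_mul, norm_mul]
      exact add_le_add (mul_le_mul hna hb (norm_nonneg _) (Nat.cast_nonneg _))
        (mul_le_mul hnb ha (norm_nonneg _) (Nat.cast_nonneg _))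
    · rw [norm_mul]
      exact mul_le_mul ha hb (norm_nonneg _) (Nat.cast_nonneg _)
  have e2 : ‖A * B / 2 ^ 60 - (mul a b).c‖ ≤ 2 := by
    have hAB : A * B = ((a.re * b.re - a.im * b.im : ℤ) : ℂ) + ((a.re * b.im + a.im * b.re : ℤ) : ℂ) * I := by
      rw [hA, hB]
      simp only [c]
      push_cast
      linear_combination (a.im : ℂ) * b.im * I_mul_I
    have : A * B / 2 ^ 60 - (mul a b).c
        = (((a.re * b.re - a.im * b.im : ℤ) : ℂ) / 2 ^ 60 - (((a.re * b.re - a.im * b.im) / 2 ^ 60 : ℤ) : ℂ))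
          + (((a.re * b.im + a.im * b.re : ℤ) : ℂ) / 2 ^ 60
            - (((a.re * b.im + a.im * b.re) / 2 ^ 60 : ℤ) : ℂ)) * I := by
      rw [hAB]
      simp only [c, mul]
      ring
    rw [this]
    refine (norm_add_le _ _).trans ?_
    rw [norm_mul, Complex.norm_I, mul_one]
    have := int_div_cast (a.re * b.re - a.im * b.im)
    have := int_div_cast (a.re * b.im + a.im * b.re)
    linarith
  have e3 : (2 : ℂ) ^ 60 * (z * w) - (mul a b).c
      = (Z * W - A * B) / 2 ^ 60 + (A * B / 2 ^ 60 - (mul a b).c) := by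
    rw [hZ, hW]
    field_simp
    ring
  rw [e3]
  refine (norm_add_le _ _).trans ?_
  have e4 : ‖(Z * W - A * B) / 2 ^ 60‖ ≤ (nrm a * b.rad + nrm b * a.rad + a.rad * b.rad : ℝ) / 2 ^ 60 := by
    rw [norm_div]
    have : ‖(2 : ℂ) ^ 60‖ = 2 ^ 60 := by simp
    rw [this]
    exact div_le_div_of_nonneg_right e1 (by positivity)
  have e5 : (nrm a * b.rad + nrm b * a.rad + a.rad * b.rad : ℝ) / 2 ^ 60
      ≤ (((nrm a * b.rad + nrm b * a.rad + a.rad * b.rad) / 2 ^ 60 : ℕ) : ℝ) + 1 := by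
    have h := Nat.lt_div_mul_add (a := nrm a * b.rad + nrm b * a.rad + a.rad * b.rad) (b := 2 ^ 60) (by norm_num)
    rw [div_le_iff₀ (by positivity)]
    have h' : ((nrm a * b.rad + nrm b * a.rad + a.rad * b.rad : ℕ) : ℝ)
      < ((((nrm a * b.rad + nrm b * a.rad + a.rad * b.rad) / 2 ^ 60 : ℕ) * 2 ^ 60 + 2 ^ 60 : ℕ) : ℝ) := by
      exact_mod_cast h
    push_cast at h' ⊢
    nlinarith [h']
  have e6 : ((mul a b).rad : ℝ)
      = (((nrm a * b.rad + nrm b * a.rad + a.rad * b.rad) / 2 ^ 60 : ℕ) : ℝ) + 3 := by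
    simp only [mul]; push_cast; ring
  rw [e6]
  linarith

theorem mem_lit (re im : Int) (den : Nat) :
    (lit re im den).Mem (((re : ℂ) + (im : ℂ) * I) / (den : ℂ)) := by
  have key : ∀ x : ℤ, ‖(2 : ℂ) ^ 60 * ((x : ℂ) / (den : ℂ)) - ((x * 2 ^ 60 / (den : ℤ) : ℤ) : ℂ)‖ ≤ 1 := by
    intro x
    rcases Nat.eq_zero_or_pos den with h | h
    · subst h; simp
    · have hd : (den : ℂ) ≠ 0 := by exact_mod_cast h.ne'
      obtain ⟨X, hX⟩ : ∃ X : ℤ, X = x * 2 ^ 60 := ⟨_, rfl⟩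
      have hXc : (X : ℂ) = (x : ℂ) * 2 ^ 60 := by rw [hX]; push_cast; norm_num
      rw [← hX]
      have h1 : (2 : ℂ) ^ 60 * ((x : ℂ) / (den : ℂ)) - ((X / (den : ℤ) : ℤ) : ℂ)
          = (((X % (den : ℤ) : ℤ) : ℝ) / (den : ℝ) : ℝ) := by
        have := Int.emod_add_mul_ediv X (den : ℤ)
        have h2 : (X : ℂ) = ((X % (den : ℤ) : ℤ) : ℂ)
            + (den : ℂ) * ((X / (den : ℤ) : ℤ) : ℂ) := by
          exact_mod_cast this.symm
        rw [hXc] at h2
        rw [Complex.ofReal_div, Complex.ofReal_natCast, Complex.ofReal_intCast]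
        field_simp
        linear_combination h2
      rw [h1, Complex.norm_real, Real.norm_eq_abs, abs_div]
      have hdi : (0 : ℤ) < (den : ℤ) := by exact_mod_cast h
      have h3 : (0 : ℝ) ≤ ((X % (den : ℤ) : ℤ) : ℝ) := by
        exact_mod_cast Int.emod_nonneg X hdi.ne'
      have h4 : ((X % (den : ℤ) : ℤ) : ℝ) ≤ (den : ℝ) := by
        exact_mod_cast (Int.emod_lt_of_pos X hdi).le
      have hdr : (0 : ℝ) < (den : ℝ) := by exact_mod_cast h
      rw [abs_of_nonneg h3, abs_of_pos hdr, div_le_one hdr]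
      exact h4
  unfold Mem
  have : (2 : ℂ) ^ 60 * (((re : ℂ) + (im : ℂ) * I) / (den : ℂ)) - (lit re im den).c
      = ((2 : ℂ) ^ 60 * ((re : ℂ) / (den : ℂ)) - ((re * 2 ^ 60 / (den : ℤ) : ℤ) : ℂ))
        + ((2 : ℂ) ^ 60 * ((im : ℂ) / (den : ℂ)) - ((im * 2 ^ 60 / (den : ℤ) : ℤ) : ℂ)) * I := by
    simp only [c, lit]
    ring
  rw [this]
  refine (norm_add_le _ _).trans ?_
  rw [norm_mul, Complex.norm_I, mul_one]
  have h1 := key re
  have h2 := key im
  simp only [lit]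
  push_cast
  linarith

theorem norm_le_up {a : CB} {z : ℂ} (ha : a.Mem z) : 2 ^ 60 * ‖z‖ ≤ up a := by
  unfold Mem at ha
  have h1 : ‖(2 : ℂ) ^ 60 * z‖ ≤ ‖(2 : ℂ) ^ 60 * z - a.c‖ + ‖a.c‖ := by
    have := norm_add_le ((2 : ℂ) ^ 60 * z - a.c) a.c
    simpa using this
  have h2 : ‖(2 : ℂ) ^ 60 * z‖ = 2 ^ 60 * ‖z‖ := by
    rw [norm_mul]; simp
  have h3 := norm_c_le_l1 a
  rw [h2] at h1
  unfold up
  push_cast at h3 ⊢
  linarith

end CB

/-- coefficient expressions -/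
inductive CE where
  | var (i : Nat)
  | lit (re im : Int) (den : Nat)
  | add (a b : CE)
  | mul (a b : CE)
  | neg (a : CE)
  | conj (a : CE)

namespace CE

noncomputable def eval (env : ℕ → ℂ) : CE → ℂ
  | var i => env i
  | lit re im den => ((re : ℂ) + (im : ℂ) * I) / (den : ℂ)
  | add a b => eval env a + eval env b
  | mul a b => eval env a * eval env b
  | neg a => - eval env a
  | conj a => (starRingEnd ℂ) (eval env a)

def ball (benv : ℕ → CB) : CE → CB
  | var i => benv i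
  | lit re im den => CB.lit re im den
  | add a b => CB.add (ball benv a) (ball benv b)
  | mul a b => CB.mul (ball benv a) (ball benv b)
  | neg a => CB.neg (ball benv a)
  | conj a => CB.conj (ball benv a)

theorem mem_ball {env : ℕ → ℂ} {benv : ℕ → CB} (h : ∀ i, (benv i).Mem (env i)) (e : CE) :
    (e.ball benv).Mem (e.eval env) := by
  induction e with
  | var i => exact h i
  | lit re im den => exact CB.mem_lit re im den
  | add a b ha hb => exact CB.mem_add ha hb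
  | mul a b ha hb => exact CB.mem_mul ha hb
  | neg a ha => exact CB.mem_neg ha
  | conj a ha => exact CB.mem_conj ha

end CE

end Pool.Agent.H81.W
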