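import Pool.Agent.H81.W.DataLow

set_option autoImplicit false

/-!
# The kernel checks
-/

namespace Pool.Agent.H81.W

set_option maxRecDepth 100000

theorem mainCheck : mainCert.check benvMain mainForm = true := by decide +kernel

theorem lowCheck : lowCert.check benvMain lowForm = true := by decide +kernel

end Pool.Agent.H81.W
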