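import Mathlib

set_option autoImplicit false

/-!
# Whittaker's constant: shared definitions (MP_7ded08_an, frozen statement S05171)

`phi q z = ∑ q^(n(n-1)/2) z^n / n!`.  For a bounded sequence `s` (think `s k = h^{(k)}(0)` for an
entire function `h`) and a rotation `ζ` the operator `Bop ζ` is
`(Bop ζ s) 0 = - ∑ s j / (j+1)!`, `(Bop ζ s) (k+1) = ζ^(k+1) * s k`.
-/

namespace Pool.Agent.H81.W

open scoped BigOperators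

/-- The series `∑ q^(n(n-1)/2) z^n / n!`, exactly as in the frozen statement. -/
noncomputable def phi (q z : ℂ) : ℂ :=
  ∑' n : ℕ, q ^ (n * (n - 1) / 2) * z ^ n / (Nat.factorial n : ℂ)

/-- `alpha z q n = - z^(n+1) q^(n(n+1)/2) / (n+1)!`; thus `phi q z = 1 - ∑ alpha z q n`. -/
noncomputable def alpha (z q : ℂ) (n : ℕ) : ℂ :=
  -(z ^ (n + 1) * q ^ (n * (n + 1) / 2) / (Nat.factorial (n + 1) : ℂ))

/-- A bounded sequence. -/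
def Bdd (s : ℕ → ℂ) : Prop := ∃ M : ℝ, ∀ k, ‖s k‖ ≤ M

/-- The shift-rotate-integrate operator. -/
noncomputable def Bop (ζ : ℂ) (s : ℕ → ℂ) : ℕ → ℂ
  | 0 => -∑' j : ℕ, s j / (Nat.factorial (j + 1) : ℂ)
  | (k + 1) => ζ ^ (k + 1) * s k

/-- The data of an extremal Lyapunov form for the pair `(z, q)`. -/
structure LyapData (z q : ℂ) (N : (ℕ → ℂ) → ℝ) : Prop where
  norm_q : ‖q‖ = 1
  z_pos : 0 < ‖z‖
  z_lt : ‖z‖ < 1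
  phi_zero : phi q z = 0
  /-- the key inequality -/
  step : ∀ ζ : ℂ, ‖ζ‖ = 1 → ∀ s : ℕ → ℂ, Bdd s →
    ‖z‖ ^ 2 * N (Bop ζ s) ≤ max (N s) (N (fun k => (starRingEnd ℂ) (s k)))
  smul : ∀ (c : ℂ) (s : ℕ → ℂ), Bdd s → N (fun k => c * s k) = ‖c‖ ^ 2 * N s
  lower : ∃ c₀ : ℝ, 0 < c₀ ∧ ∀ s : ℕ → ℂ, Bdd s → c₀ * ‖s 0‖ ^ 2 ≤ N s
  upper : ∃ C₀ : ℝ, ∀ (s : ℕ → ℂ) (M : ℝ), (∀ k, ‖s k‖ ≤ M) → N s ≤ C₀ * M ^ 2
  /-- `N` is, as a function of the zeroth coordinate, of the form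
  `N s + 2 Re (b x) + a |x|^2` with `a ≥ 0` -/
  quad : ∃ a : ℝ, 0 ≤ a ∧ ∀ s : ℕ → ℂ, Bdd s → ∃ b : ℂ, ∀ x : ℂ,
    N (Function.update s 0 (s 0 + x)) = N s + 2 * (b * x).re + a * ‖x‖ ^ 2

/-- Approximate critical point. -/
noncomputable def z0 : ℂ := ⟨-7330525232968 / 10 ^ 13, -831274819049 / 10 ^ 13⟩

/-- Approximate critical parameter (`exp(i θ0)` with `θ0 = 2.393242274134896...`). -/
noncomputable def q0 : ℂ := ⟨-7328123181135 / 10 ^ 13, 6804308241262 / 10 ^ 13⟩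

/-- Module A (target): existence of the exact critical pair near `(z0, q0)`. -/
def CriticalPairExists : Prop :=
  ∃ z q : ℂ, ‖q‖ = 1 ∧ ‖z - z0‖ ≤ 1 / 10 ^ 6 ∧ ‖q - q0‖ ≤ 1 / 10 ^ 6 ∧ phi q z = 0 ∧
    ((∑' n : ℕ, ((n * (n + 1) / 2 : ℕ) : ℂ) * alpha z q n) *
      (starRingEnd ℂ) (∑' n : ℕ, ((n + 1 : ℕ) : ℂ) * alpha z q n)).im = 0

/-- The frozen statement S05171, as a proposition. -/
def Target : Prop :=
    ∀ B : ℝ,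
      B = sInf {r : ℝ | ∃ q z : ℂ, ‖q‖ ≤ 1 ∧ ‖z‖ = r ∧
            ∑' n : ℕ, q ^ (n * (n - 1) / 2) * z ^ n / (Nat.factorial n : ℂ) = 0} →
      ((∀ c : ℝ, c < B →
          ∀ f : ℂ → ℂ, Differentiable ℂ f →
            (∀ n : ℕ, ∃ z : ℂ, ‖z‖ ≤ 1 ∧ iteratedDeriv n f z = 0) →
            (∃ τ : ℝ, τ < c ∧ ∃ C : ℝ, ∀ z : ℂ, ‖f z‖ ≤ C * Real.exp (τ * ‖z‖)) →
            ∀ z : ℂ, f z = 0) ∧
       (∀ c : ℝ, B < c →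
          ¬ (∀ f : ℂ → ℂ, Differentiable ℂ f →
            (∀ n : ℕ, ∃ z : ℂ, ‖z‖ ≤ 1 ∧ iteratedDeriv n f z = 0) →
            (∃ τ : ℝ, τ < c ∧ ∃ C : ℝ, ∀ z : ℂ, ‖f z‖ ≤ C * Real.exp (τ * ‖z‖)) →
            ∀ z : ℂ, f z = 0)))

end Pool.Agent.H81.W
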