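import Pool.Agent.H81.W.Data
import Pool.Agent.H81.W.Interface

set_option autoImplicit false

/-!
# Enclosures of the constants: data and kernel checks
-/

namespace Pool.Agent.H81.W

open Complex

namespace CB

def incl (A B : CB) : Bool := ((A.re - B.re).natAbs + (A.im - B.im).natAbs + A.rad).ble B.rad

def one : CB := ⟨2 ^ 60, 0, 0⟩

def invErr (A C : CB) : ℕ := up (add one (neg (mul ⟨C.re, C.im, 0⟩ A)))

def invOk (A C : CB) : Bool :=
  (invErr A C + 1).ble (2 ^ 60) && (nrm C * invErr A C).ble (C.rad * (2 ^ 60 - invErr A C))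

def widen (a : CB) (r : ℕ) : CB := ⟨a.re, a.im, a.rad + r⟩

end CB

def cpow (e : CE) : ℕ → CE
  | 0 => CE.lit 1 0 1
  | (n + 1) => CE.mul (cpow e n) e

def alCE (k : ℕ) : CE :=
  CE.neg (CE.mul (CE.mul (cpow (CE.var 0) (k + 1)) (cpow (CE.var 1) (k * (k + 1) / 2)))
    (CE.lit 1 0 (Nat.factorial (k + 1))))

def zB : CB := CB.widen (CB.lit (-7330525232968) (-831274819049) 10000000000000) 1152921504607
def qB : CB := CB.widen (CB.lit (-7328123181135) 6804308241262 10000000000000) 1152921504607

def base1 (i : ℕ) : CB := [zB, qB].getD i CB.zero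

def ALlit : List CB := [CB.zero,
  ⟨271888365218503862, (-156582882802228540), 1165489582554⟩,
  ⟨25403738826275275, 72855415762595611, 545773715789⟩,
  ⟨8881113775592240, (-11119328742254590), 162705536836⟩,
  ⟨1689530481419527, (-1246764237631262), 35263866887⟩,
  ⟨(-111792755168257), 232723226288779, 5978555382⟩,
  ⟨19286402361812, 19194976394821, 830454086⟩,
  ⟨(-907118235866), 2339623327663, 97572535⟩,
  ⟨144540257524, (-146350732719), 9924794⟩]

def b0lit : CB := ⟨880229370314739712, 27962448820404224, 1807572662564⟩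

def zilit : CB := ⟨(-1552799936729327616), 176086084612159488, 2120386731899⟩

def rho9B : CB := ⟨0, 0, 23058430092⟩
def remSB : CB := ⟨0, 0, 172938225691⟩
def remTB : CB := ⟨0, 0, 807045053224⟩

def kapRaw : CB := ⟨318683269293300362, 408157348959, 4515304253082⟩

def alCheck (k : ℕ) : Bool := CB.incl ((alCE k).ball base1) (ALlit.getD k CB.zero)

theorem alCheck1 : alCheck 1 = true := by decide +kernel
theorem alCheck2 : alCheck 2 = true := by decide +kernel
theorem alCheck3 : alCheck 3 = true := by decide +kernel
theorem alCheck4 : alCheck 4 = true := by decide +kernel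
theorem alCheck5 : alCheck 5 = true := by decide +kernel
theorem alCheck6 : alCheck 6 = true := by decide +kernel
theorem alCheck7 : alCheck 7 = true := by decide +kernel
theorem alCheck8 : alCheck 8 = true := by decide +kernel

/-- second environment: `al 1 .. al 8`, `St 9`, `remS`, `remT`, `b0` -/
def base2List : List CB := ALlit ++ [rho9B, remSB, remTB, b0lit]
def base2 (i : ℕ) : CB := base2List.getD i CB.zero

def sumCE (c : ℕ → ℤ) : ℕ → CE
  | 0 => CE.lit 0 0 1
  | (n + 1) => CE.add (sumCE c n) (CE.mul (CE.lit (c (n + 1)) 0 1) (CE.var (n + 1)))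

def SCE : CE := CE.add (CE.lit 1 0 1) (CE.add (sumCE (fun n => (n : ℤ)) 8) (CE.var 10))

def TCE : CE := CE.add (sumCE (fun n => ((n * (n + 1) / 2 : ℕ) : ℤ)) 8) (CE.var 11)

/-- `stCE m` encloses `St (9 - m)` -/
def stCE : ℕ → CE
  | 0 => CE.var 9
  | (m + 1) => CE.add (CE.var (8 - m)) (stCE m)

theorem SCheck : CB.invOk (SCE.ball base2) b0lit = true := by decide +kernel

def beCheck (k : ℕ) : Bool := CB.incl ((CE.mul (CE.var 12) (stCE (9 - k))).ball base2) (benvMain (10 + k))

theorem beCheck0 : CB.incl b0lit (benvMain 10) = true := by decide +kernel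
theorem beCheck1 : beCheck 1 = true := by decide +kernel
theorem beCheck2 : beCheck 2 = true := by decide +kernel
theorem beCheck3 : beCheck 3 = true := by decide +kernel
theorem beCheck4 : beCheck 4 = true := by decide +kernel
theorem beCheck5 : beCheck 5 = true := by decide +kernel
theorem beCheck6 : beCheck 6 = true := by decide +kernel
theorem beCheck7 : beCheck 7 = true := by decide +kernel

theorem kapCheck : CB.incl ((CE.mul (CE.var 12) TCE).ball base2) kapRaw = true := by decide +kernel
theorem kapCheck2 : benvMain 30 = ⟨kapRaw.re, 0, kapRaw.rad⟩ := by decide +kernel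

theorem alMain (k : ℕ) (h : k ≤ 6) : benvMain k = ALlit.getD k CB.zero := by
  interval_cases k <;> rfl

def base3 (i : ℕ) : CB := [zB, qB, zilit].getD i CB.zero

theorem ziCheck : CB.invOk zB zilit = true := by decide +kernel

def chiCE (k : ℕ) : CE :=
  CE.mul (cpow (CE.mul (CE.conj (CE.var 0)) (CE.var 2)) k) (cpow (CE.conj (CE.var 1)) (k * (k + 1)))

def chiCheck (k : ℕ) : Bool := CB.incl ((chiCE k).ball base3) (benvMain (20 + k))

theorem chiCheck1 : chiCheck 1 = true := by decide +kernel
theorem chiCheck2 : chiCheck 2 = true := by decide +kernel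
theorem chiCheck3 : chiCheck 3 = true := by decide +kernel
theorem chiCheck4 : chiCheck 4 = true := by decide +kernel
theorem chiCheck5 : chiCheck 5 = true := by decide +kernel
theorem chiCheck6 : chiCheck 6 = true := by decide +kernel

end Pool.Agent.H81.W
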