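import Pool.Agent.H81.W.Key
import Pool.Agent.H81.W.DataC

set_option autoImplicit false
set_option linter.unusedVariables false
set_option linter.unusedSimpArgs false

/-!
# The constants attached to a critical pair
-/

namespace Pool.Agent.H81.W

open Complex

namespace CB

theorem mem_incl {A B : CB} {z : ℂ} (h : A.Mem z) (hi : incl A B = true) : B.Mem z := by
  unfold incl at hi
  have hi' : (A.re - B.re).natAbs + (A.im - B.im).natAbs + A.rad ≤ B.rad := Nat.le_of_ble_eq_true hi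
  unfold Mem at *
  have h1 : (2 : ℂ) ^ 60 * z - B.c = ((2 : ℂ) ^ 60 * z - A.c) + (A.c - B.c) := by ring
  have h2 : ‖A.c - B.c‖ ≤ ((A.re - B.re).natAbs + (A.im - B.im).natAbs : ℕ) := by
    have := norm_c_le_l1 ⟨A.re - B.re, A.im - B.im, 0⟩
    have e : (⟨A.re - B.re, A.im - B.im, 0⟩ : CB).c = A.c - B.c := by
      simp only [c]; push_cast; ring
    rwa [e] at this
  rw [h1]
  refine (norm_add_le _ _).trans ?_
  have h3 : (((A.re - B.re).natAbs + (A.im - B.im).natAbs + A.rad : ℕ) : ℝ) ≤ B.rad := by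
    exact_mod_cast hi'
  push_cast at h2 h3
  linarith

theorem mem_center (C : CB) : (⟨C.re, C.im, 0⟩ : CB).Mem (C.c / 2 ^ 60) := by
  unfold Mem
  have : (2 : ℂ) ^ 60 * (C.c / 2 ^ 60) - (⟨C.re, C.im, 0⟩ : CB).c = 0 := by
    have h : (2 : ℂ) ^ 60 ≠ 0 := pow_ne_zero _ two_ne_zero
    rw [mul_div_cancel₀ _ h]
    simp [c]
  rw [this]; simp

theorem mem_one : one.Mem 1 := by
  unfold Mem one c
  norm_num

theorem cast_sub_aux {e : ℕ} (h : e + 1 ≤ 2 ^ 60) : ((2 ^ 60 - e : ℕ) : ℝ) = 2 ^ 60 - (e : ℝ) := by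
  have h2 : e ≤ 2 ^ 60 := by omega
  rw [Nat.cast_sub h2]
  norm_num

theorem mem_inv {A C : CB} {x : ℂ} (h : A.Mem x) (hi : invOk A C = true) :
    x ≠ 0 ∧ C.Mem x⁻¹ := by
  unfold invOk at hi
  rw [Bool.and_eq_true] at hi
  obtain ⟨h1, h2⟩ := hi
  have h1' : invErr A C + 1 ≤ 2 ^ 60 := Nat.le_of_ble_eq_true h1
  have h2' : nrm C * invErr A C ≤ C.rad * (2 ^ 60 - invErr A C) := Nat.le_of_ble_eq_true h2
  set e := invErr A C with he
  have hm := norm_le_up (mem_add mem_one (mem_neg (mem_mul (mem_center C) h)))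
  have hm' : 2 ^ 60 * ‖1 + -(C.c / 2 ^ 60 * x)‖ ≤ (e : ℝ) := hm
  set c := C.c / 2 ^ 60 with hc
  set δ := ‖1 + -(c * x)‖ with hδ
  have he1 : (e : ℝ) < 2 ^ 60 := by
    have : ((e + 1 : ℕ) : ℝ) ≤ ((2 ^ 60 : ℕ) : ℝ) := by exact_mod_cast h1'
    push_cast at this
    linarith
  have hδ0 : 0 ≤ δ := norm_nonneg _
  have hδ1 : δ < 1 := by
    by_contra hcon
    push Not at hcon
    nlinarith
  have hcx : 1 - δ ≤ ‖c‖ * ‖x‖ := by
    have : ‖(1 : ℂ)‖ ≤ ‖1 + -(c * x)‖ + ‖c * x‖ := by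
      have := norm_add_le (1 + -(c * x)) (c * x)
      simpa using this
    rw [norm_one, norm_mul] at this
    linarith
  have hx : x ≠ 0 := by
    rintro rfl
    rw [norm_zero, mul_zero] at hcx
    linarith
  refine ⟨hx, ?_⟩
  have hxn : 0 < ‖x‖ := norm_pos_iff.mpr hx
  unfold Mem
  have e1 : (2 : ℂ) ^ 60 * x⁻¹ - C.c = (2 : ℂ) ^ 60 * x⁻¹ * (1 + -(c * x)) := by
    have h60 : (2 : ℂ) ^ 60 ≠ 0 := pow_ne_zero _ two_ne_zero
    rw [hc]; field_simp; ring
  rw [e1, norm_mul, norm_mul, norm_inv]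
  have h260 : ‖(2 : ℂ) ^ 60‖ = 2 ^ 60 := by simp
  rw [h260, ← hδ]
  -- 2^60 * ‖x‖⁻¹ * δ ≤ rad
  have hcn : 2 ^ 60 * ‖c‖ = ‖C.c‖ := by
    rw [hc, norm_div, h260]; field_simp
  have hnrm := norm_c_le_nrm C
  have h3 : (nrm C : ℝ) * e ≤ C.rad * (2 ^ 60 - e) := by
    have hsub : ((2 ^ 60 - e : ℕ) : ℝ) = 2 ^ 60 - (e : ℝ) := cast_sub_aux h1'
    have : ((nrm C * e : ℕ) : ℝ) ≤ ((C.rad * (2 ^ 60 - e) : ℕ) : ℝ) := by exact_mod_cast h2'
    rw [Nat.cast_mul, Nat.cast_mul, hsub] at this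
    exact this
  have hδe : δ * 2 ^ 60 ≤ e := by linarith
  -- main estimate
  have h4 : 2 ^ 60 * ‖x‖⁻¹ * δ * (1 - δ) ≤ ‖C.c‖ * δ := by
    have : 2 ^ 60 * ‖x‖⁻¹ * δ * (1 - δ) ≤ 2 ^ 60 * ‖x‖⁻¹ * δ * (‖c‖ * ‖x‖) :=
      mul_le_mul_of_nonneg_left hcx
        (mul_nonneg (mul_nonneg (by norm_num) (inv_nonneg.mpr (norm_nonneg _))) hδ0)
    have e2 : 2 ^ 60 * ‖x‖⁻¹ * δ * (‖c‖ * ‖x‖) = ‖C.c‖ * δ := by
      rw [← hcn]; field_simp
    linarith
  have h5 : ‖C.c‖ * δ ≤ C.rad * (1 - δ) := by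
    have a1 : ‖C.c‖ * (δ * 2 ^ 60) ≤ nrm C * e :=
      mul_le_mul hnrm hδe (mul_nonneg hδ0 (by norm_num)) (Nat.cast_nonneg _)
    have a2 : (C.rad : ℝ) * (2 ^ 60 - e) ≤ C.rad * (2 ^ 60 - δ * 2 ^ 60) :=
      mul_le_mul_of_nonneg_left (by linarith) (Nat.cast_nonneg _)
    have a3 : ‖C.c‖ * δ * 2 ^ 60 ≤ C.rad * (1 - δ) * 2 ^ 60 := by linarith
    exact le_of_mul_le_mul_right a3 (by positivity)
  have h6 : 2 ^ 60 * ‖x‖⁻¹ * δ * (1 - δ) ≤ C.rad * (1 - δ) := h4.trans h5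
  exact le_of_mul_le_mul_right h6 (by linarith)

theorem mem_widen {a : CB} {z w : ℂ} (h : a.Mem w) {r : ℕ} (hr : 2 ^ 60 * ‖z - w‖ ≤ r) :
    (widen a r).Mem z := by
  unfold Mem at *
  have h1 : (2 : ℂ) ^ 60 * z - (widen a r).c = ((2 : ℂ) ^ 60 * w - a.c) + (2 : ℂ) ^ 60 * (z - w) := by
    simp only [widen, c]; ring
  rw [h1]
  refine (norm_add_le _ _).trans ?_
  have h2 : ‖(2 : ℂ) ^ 60 * (z - w)‖ = 2 ^ 60 * ‖z - w‖ := by rw [norm_mul]; simp
  rw [h2]
  simp only [widen]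
  push_cast
  linarith

theorem mem_small {z : ℂ} {r : ℕ} (h : 2 ^ 60 * ‖z‖ ≤ r) : (⟨0, 0, r⟩ : CB).Mem z := by
  unfold Mem c
  simpa using h

theorem mem_real {A : CB} {x : ℝ} (h : A.Mem (x : ℂ)) : (⟨A.re, 0, A.rad⟩ : CB).Mem (x : ℂ) := by
  have h2 := omem_rl (a := some A) (z := (x : ℂ)) h
  rw [Complex.ofReal_re] at h2
  exact h2

end CB

/-- critical pair -/
structure Crit (z q : ℂ) : Prop where
  hq : ‖q‖ = 1
  hz : ‖z - z0‖ ≤ 1 / 10 ^ 6
  hq0 : ‖q - q0‖ ≤ 1 / 10 ^ 6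
  hphi : phi q z = 0
  hcrit : ((∑' n : ℕ, ((n * (n + 1) / 2 : ℕ) : ℂ) * alpha z q n) *
      (starRingEnd ℂ) (∑' n : ℕ, ((n + 1 : ℕ) : ℂ) * alpha z q n)).im = 0

noncomputable def SS (z q : ℂ) : ℂ := ∑' n : ℕ, ((n + 1 : ℕ) : ℂ) * alpha z q n
noncomputable def TTs (z q : ℂ) : ℂ := ∑' n : ℕ, ((n * (n + 1) / 2 : ℕ) : ℂ) * alpha z q n
noncomputable def St (z q : ℂ) (k : ℕ) : ℂ := ∑' n : ℕ, alpha z q (n + k)
noncomputable def be (z q : ℂ) (k : ℕ) : ℂ := (SS z q)⁻¹ * St z q k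
noncomputable def ww (z q : ℂ) (k : ℕ) : ℂ := z ^ k * q ^ (k * (k + 1) / 2)
noncomputable def chi (z q : ℂ) (k : ℕ) : ℂ := (starRingEnd ℂ) (ww z q k) / ww z q k
noncomputable def kap (z q : ℂ) : ℝ := ((SS z q)⁻¹ * TTs z q).re

theorem norm_z0_sq : ‖z0‖ ^ 2 = (7330525232968 / 10 ^ 13) ^ 2 + (831274819049 / 10 ^ 13) ^ 2 := by
  rw [← Complex.normSq_eq_norm_sq, Complex.normSq_apply]
  unfold z0
  norm_num

section
variable {z q : ℂ} (H : Crit z q)
include H

theorem Crit.z_le : ‖z‖ ≤ 7378 / 10000 := by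
  have h1 : ‖z0‖ ≤ 73776 / 100000 := by
    refine abs_le_of_sq_le_sq' ?_ (by norm_num) |>.2
    rw [norm_z0_sq]; norm_num
  have h2 : ‖z‖ ≤ ‖z - z0‖ + ‖z0‖ := by
    have := norm_add_le (z - z0) z0
    simpa using this
  have := H.hz
  norm_num at this
  linarith

theorem Crit.z_ge : 7377 / 10000 ≤ ‖z‖ := by
  have h1 : 73774 / 100000 ≤ ‖z0‖ := by
    by_contra hcon
    push Not at hcon
    have : ‖z0‖ ^ 2 < (73774 / 100000) ^ 2 := pow_lt_pow_left₀ hcon (norm_nonneg _) (by norm_num)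
    rw [norm_z0_sq] at this
    norm_num at this
  have h2 : ‖z0‖ ≤ ‖z - z0‖ + ‖z‖ := by
    have := norm_add_le (z0 - z) z
    rw [norm_sub_rev] at this
    simpa using this
  have := H.hz
  norm_num at this
  linarith

theorem Crit.z_ne : z ≠ 0 := by
  have := H.z_ge
  intro h
  rw [h, norm_zero] at this
  norm_num at this

theorem Crit.q_ne : q ≠ 0 := by
  intro h
  have := H.hq
  rw [h, norm_zero] at this
  norm_num at this

theorem Crit.norm_al (k : ℕ) : ‖alpha z q k‖ = ‖z‖ ^ (k + 1) / (Nat.factorial (k + 1) : ℝ) := by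
  unfold alpha
  rw [norm_neg, norm_div, norm_mul, norm_pow, norm_pow, H.hq, one_pow, mul_one, Complex.norm_natCast]

theorem Crit.norm_al_succ (k : ℕ) : ‖alpha z q (k + 1)‖ = ‖alpha z q k‖ * (‖z‖ / (k + 2)) := by
  rw [H.norm_al, H.norm_al, Nat.factorial_succ (k + 1)]
  have h1 : ((Nat.factorial (k + 1) : ℕ) : ℝ) ≠ 0 := by positivity
  have h2 : ((k : ℝ) + 2) ≠ 0 := by positivity
  push_cast
  field_simp
  ring

theorem Crit.al_tail (k : ℕ) : ‖alpha z q (k + 7)‖ ≤ (22 / 10 ^ 7 : ℝ) * (1 / 8) ^ k := by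
  induction k with
  | zero =>
    rw [zero_add, H.norm_al]
    have h1 : ‖z‖ ^ 8 ≤ (7378 / 10000) ^ 8 := pow_le_pow_left₀ (norm_nonneg _) H.z_le 8
    have h2 : ((Nat.factorial (7 + 1) : ℕ) : ℝ) = 40320 := by norm_num [Nat.factorial]
    rw [h2, div_le_iff₀ (by norm_num)]
    refine h1.trans ?_
    norm_num
  | succ k ih =>
    rw [show k + 1 + 7 = (k + 7) + 1 by ring, H.norm_al_succ]
    have h1 : ‖z‖ / (((k + 7 : ℕ) : ℝ) + 2) ≤ 1 / 8 := by
      rw [div_le_div_iff₀ (by positivity) (by norm_num)]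
      have := H.z_le
      push_cast
      have : (0 : ℝ) ≤ k := Nat.cast_nonneg k
      linarith
    calc ‖alpha z q (k + 7)‖ * (‖z‖ / (((k + 7 : ℕ) : ℝ) + 2))
        ≤ ((22 / 10 ^ 7 : ℝ) * (1 / 8) ^ k) * (1 / 8) :=
          mul_le_mul ih h1 (by positivity) (by positivity)
      _ = _ := by rw [pow_succ]; ring

theorem Crit.al9_tail (k : ℕ) : ‖alpha z q (k + 9)‖ ≤ (133 / 10 ^ 10 : ℝ) * (1 / 12) ^ k := by
  induction k with
  | zero =>
    rw [zero_add, H.norm_al]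
    have h1 : ‖z‖ ^ 10 ≤ (7378 / 10000) ^ 10 := pow_le_pow_left₀ (norm_nonneg _) H.z_le 10
    have h2 : ((Nat.factorial (9 + 1) : ℕ) : ℝ) = 3628800 := by norm_num [Nat.factorial]
    rw [h2, div_le_iff₀ (by norm_num)]
    refine h1.trans ?_
    norm_num
  | succ k ih =>
    rw [show k + 1 + 9 = (k + 9) + 1 by ring, H.norm_al_succ]
    have h1 : ‖z‖ / (((k + 9 : ℕ) : ℝ) + 2) ≤ 1 / 12 := by
      rw [div_le_div_iff₀ (by positivity) (by norm_num)]
      have := H.z_le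
      push_cast
      have : (0 : ℝ) ≤ k := Nat.cast_nonneg k
      linarith
    calc ‖alpha z q (k + 9)‖ * (‖z‖ / (((k + 9 : ℕ) : ℝ) + 2))
        ≤ ((133 / 10 ^ 10 : ℝ) * (1 / 12) ^ k) * (1 / 12) :=
          mul_le_mul ih h1 (by positivity) (by positivity)
      _ = _ := by rw [pow_succ]; ring

theorem Crit.summ_al {u : ℕ → ℂ} (hu : Gb 4 u) : Summable (fun k => alpha z q k * u k) :=
  summ (fun k => H.al_tail k) (by norm_num) hu

theorem Crit.summ_al0 : Summable (fun k => alpha z q k) := by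
  have := H.summ_al (Gb.const (b := 4) (by norm_num) 1)
  simpa using this

omit H in
theorem tsum_geom_bound {f : ℕ → ℂ} {c : ℝ} (h : ∀ k, ‖f k‖ ≤ c * (1 / 8) ^ k) :
    ‖∑' k, f k‖ ≤ c * (8 / 7) := by
  have h1 : HasSum (fun k : ℕ => c * ((1 : ℝ) / 8) ^ k) (c * (8 / 7)) := by
    have h2 := (hasSum_geometric_of_lt_one (r := (1 / 8 : ℝ)) (by norm_num) (by norm_num)).mul_left c
    have h3 : (1 - 1 / 8 : ℝ)⁻¹ = 8 / 7 := by norm_num
    rw [h3] at h2
    exact h2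
  exact tsum_of_norm_bounded h1 h

theorem Crit.sum_al : ∑' k, alpha z q k = 1 := by
  have h := H.hphi
  unfold phi at h
  have e : ∀ n : ℕ, q ^ ((n + 1) * (n + 1 - 1) / 2) * z ^ (n + 1) / (Nat.factorial (n + 1) : ℂ)
      = - alpha z q n := by
    intro n
    unfold alpha
    rw [neg_neg, Nat.add_sub_cancel, mul_comm (n + 1) n, mul_comm (q ^ _)]
  have hs : Summable (fun n : ℕ => q ^ (n * (n - 1) / 2) * z ^ n / (Nat.factorial n : ℂ)) := by
    rw [← summable_nat_add_iff 1]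
    refine H.summ_al0.neg.congr fun n => ?_
    exact (e n).symm
  rw [hs.tsum_eq_zero_add, tsum_congr e, tsum_neg] at h
  simp at h
  linear_combination -h

theorem Crit.St_zero : St z q 0 = 1 := by
  unfold St
  simpa using H.sum_al

theorem Crit.St_succ (k : ℕ) : St z q k = alpha z q k + St z q (k + 1) := by
  unfold St
  have hs : Summable (fun n => alpha z q (n + k)) := (summable_nat_add_iff k).mpr H.summ_al0
  rw [hs.tsum_eq_zero_add, zero_add]
  congr 1
  refine tsum_congr fun n => ?_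
  rw [show n + 1 + k = n + (k + 1) by ring]

theorem Crit.St_tail (k : ℕ) : ‖St z q (k + 7)‖ ≤ (22 / 10 ^ 7 : ℝ) * (8 / 7) * (1 / 8) ^ k := by
  unfold St
  have h := tsum_geom_bound (f := fun n => alpha z q (n + (k + 7))) (c := (22 / 10 ^ 7 : ℝ) * (1 / 8) ^ k)
    (fun n => by
      have := H.al_tail (n + k)
      rw [show n + (k + 7) = n + k + 7 by ring]
      refine this.trans (le_of_eq ?_)
      rw [pow_add]; ring)
  refine h.trans (le_of_eq ?_)
  ring

theorem Crit.St9 : ‖St z q 9‖ ≤ 199 / 10 ^ 10 := by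
  unfold St
  have h := tsum_geom_bound (f := fun n => alpha z q (n + 9)) (c := (133 / 10 ^ 10 : ℝ))
    (fun n => (H.al9_tail n).trans (mul_le_mul_of_nonneg_left
      (pow_le_pow_left₀ (by norm_num) (by norm_num) n) (by norm_num)))
  refine h.trans (by norm_num)

omit H in
theorem lin_le (n : ℕ) : ((n : ℝ) + 9) ≤ 9 * (3 / 2) ^ n := by
  induction n with
  | zero => norm_num
  | succ n ih =>
    push_cast
    rw [pow_succ]
    have : (0 : ℝ) ≤ n := Nat.cast_nonneg n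
    nlinarith

omit H in
theorem tri_le (n : ℕ) : ((((n + 9) * (n + 9 + 1) / 2 : ℕ) : ℕ) : ℝ) ≤ 45 * (3 / 2) ^ n := by
  have h1 : ((((n + 9) * (n + 9 + 1) / 2 : ℕ) : ℕ) : ℝ) ≤ ((n : ℝ) + 9) * (n + 10) / 2 := by
    refine (Nat.cast_div_le).trans (le_of_eq ?_)
    push_cast; ring
  refine h1.trans ?_
  clear h1
  induction n with
  | zero => norm_num
  | succ n ih =>
    push_cast
    rw [pow_succ]
    have : (0 : ℝ) ≤ n := Nat.cast_nonneg n
    nlinarith

omit H in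
theorem r12 (n : ℕ) : ((3 : ℝ) / 2) ^ n * (1 / 12) ^ n = (1 / 8) ^ n := by
  rw [← mul_pow]; norm_num

theorem Crit.remS : ‖∑' n : ℕ, ((n + 9 : ℕ) : ℂ) * alpha z q (n + 9)‖ ≤ 149 / 10 ^ 9 := by
  have h := tsum_geom_bound (f := fun n : ℕ => ((n + 9 : ℕ) : ℂ) * alpha z q (n + 9))
    (c := 9 * (133 / 10 ^ 10 : ℝ))
    (fun n => by
      rw [norm_mul, Complex.norm_natCast]
      have h1 := lin_le n
      have h2 := H.al9_tail n
      push_cast
      calc ((n : ℝ) + 9) * ‖alpha z q (n + 9)‖ ≤ (9 * (3 / 2) ^ n) * ((133 / 10 ^ 10 : ℝ) * (1 / 12) ^ n) :=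
            mul_le_mul h1 h2 (norm_nonneg _) (by positivity)
        _ = 9 * (133 / 10 ^ 10 : ℝ) * ((3 / 2) ^ n * (1 / 12) ^ n) := by ring
        _ = _ := by rw [r12])
  refine h.trans (by norm_num)

theorem Crit.remT : ‖∑' n : ℕ, (((n + 9) * (n + 9 + 1) / 2 : ℕ) : ℂ) * alpha z q (n + 9)‖ ≤ 69 / 10 ^ 8 := by
  have h := tsum_geom_bound (f := fun n : ℕ => (((n + 9) * (n + 9 + 1) / 2 : ℕ) : ℂ) * alpha z q (n + 9))
    (c := 45 * (133 / 10 ^ 10 : ℝ))
    (fun n => by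
      rw [norm_mul, Complex.norm_natCast]
      have h1 := tri_le n
      have h2 := H.al9_tail n
      calc ((((n + 9) * (n + 9 + 1) / 2 : ℕ) : ℕ) : ℝ) * ‖alpha z q (n + 9)‖
          ≤ (45 * (3 / 2) ^ n) * ((133 / 10 ^ 10 : ℝ) * (1 / 12) ^ n) :=
            mul_le_mul h1 h2 (norm_nonneg _) (by positivity)
        _ = 45 * (133 / 10 ^ 10 : ℝ) * ((3 / 2) ^ n * (1 / 12) ^ n) := by ring
        _ = _ := by rw [r12])
  refine h.trans (by norm_num)

omit H in
theorem Gb_tri : Gb 4 (fun n => ((n * (n + 1) / 2 : ℕ) : ℂ)) := by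
  refine ⟨1, by norm_num, fun k => ?_⟩
  rw [Complex.norm_natCast, one_mul]
  have h : k + 1 ≤ 2 ^ k := Nat.lt_two_pow_self
  have h1 : k * (k + 1) / 2 ≤ (k + 1) * (k + 1) :=
    (Nat.div_le_self _ _).trans (Nat.mul_le_mul_right _ (Nat.le_succ k))
  have h2 : (k + 1) * (k + 1) ≤ 2 ^ k * 2 ^ k := Nat.mul_le_mul h h
  have h3 : (2 : ℕ) ^ k * 2 ^ k = 4 ^ k := by rw [← mul_pow]; norm_num
  have h4 : k * (k + 1) / 2 ≤ 4 ^ k := by omega
  exact_mod_cast h4

omit H in
theorem Gb_id : Gb 4 (fun n => (n : ℂ)) := by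
  refine ⟨1, by norm_num, fun k => ?_⟩
  rw [Complex.norm_natCast, one_mul]
  have h : k < 2 ^ k := Nat.lt_two_pow_self
  have h2 : (2 : ℕ) ^ k ≤ 4 ^ k := Nat.pow_le_pow_left (by norm_num) k
  exact_mod_cast h.le.trans h2

theorem Crit.SS_eq : SS z q = 1 + ∑' n : ℕ, (n : ℂ) * alpha z q n := by
  unfold SS
  have s1 : Summable (fun n : ℕ => (n : ℂ) * alpha z q n) := by
    simpa [mul_comm] using H.summ_al Gb_id
  have e : ∀ n : ℕ, ((n + 1 : ℕ) : ℂ) * alpha z q n = alpha z q n + (n : ℂ) * alpha z q n := by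
    intro n; push_cast; ring
  rw [tsum_congr e, H.summ_al0.tsum_add s1, H.sum_al]

omit H in
theorem tendsto_zero_of_bound {f : ℕ → ℂ} {M : ℝ} (h : ∀ k, ‖f (k + 7)‖ ≤ M * (1 / 2) ^ k) :
    Filter.Tendsto f Filter.atTop (nhds 0) := by
  rw [← Filter.tendsto_add_atTop_iff_nat 7]
  refine squeeze_zero_norm h ?_
  have : Filter.Tendsto (fun k : ℕ => M * ((1 : ℝ) / 2) ^ k) Filter.atTop (nhds (M * 0)) :=
    (tendsto_pow_atTop_nhds_zero_of_lt_one (by norm_num) (by norm_num)).const_mul M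
  simpa using this

theorem Crit.sum_St1 : ∑' k, St z q (k + 1) = ∑' n : ℕ, (n : ℂ) * alpha z q n := by
  have s1 : Summable (fun n : ℕ => (n : ℂ) * alpha z q n) := by
    simpa [mul_comm] using H.summ_al Gb_id
  have sSt : Summable (fun k => St z q (k + 1)) := by
    have h1 : Summable (fun k => St z q k * 1) :=
      summ (b := (22 / 10 ^ 7 : ℝ) * (8 / 7)) (fun k => H.St_tail k) (by norm_num)
        (Gb.const (b := 4) (by norm_num) 1)
    have h2 : Summable (fun k => St z q k) := by simpa using h1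
    exact (summable_nat_add_iff 1).mpr h2
  have hpart : ∀ n : ℕ, ∑ k ∈ Finset.range n, St z q (k + 1)
      = (n : ℂ) * St z q n + ∑ k ∈ Finset.range n, (k : ℂ) * alpha z q k := by
    intro n
    induction n with
    | zero => simp
    | succ n ih =>
      rw [Finset.sum_range_succ, Finset.sum_range_succ, ih]
      have := H.St_succ n
      push_cast
      linear_combination (n : ℂ) * this
  have hD : Filter.Tendsto (fun n : ℕ => (n : ℂ) * St z q n) Filter.atTop (nhds 0) := by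
    obtain ⟨M, hM, hk⟩ := Gb_id
    refine tendsto_zero_of_bound (M := M * 4 ^ 7 * ((22 / 10 ^ 7 : ℝ) * (8 / 7))) fun k => ?_
    rw [norm_mul]
    calc ‖((k + 7 : ℕ) : ℂ)‖ * ‖St z q (k + 7)‖
        ≤ (M * 4 ^ (k + 7)) * ((22 / 10 ^ 7 : ℝ) * (8 / 7) * (1 / 8) ^ k) :=
          mul_le_mul (hk (k + 7)) (H.St_tail k) (norm_nonneg _) (by positivity)
      _ = M * 4 ^ 7 * ((22 / 10 ^ 7 : ℝ) * (8 / 7)) * ((4 * (1 / 8)) ^ k) := by
          rw [mul_pow, pow_add]; ring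
      _ = _ := by norm_num
  have t1 := sSt.hasSum.tendsto_sum_nat
  have t2 := hD.add s1.hasSum.tendsto_sum_nat
  rw [zero_add] at t2
  refine tendsto_nhds_unique t1 (t2.congr fun n => ?_)
  exact (hpart n).symm

theorem Crit.sum_kSt1 : ∑' k, ((k + 1 : ℕ) : ℂ) * St z q (k + 1) = TTs z q := by
  unfold TTs
  have s1 : Summable (fun n : ℕ => ((n * (n + 1) / 2 : ℕ) : ℂ) * alpha z q n) := by
    simpa [mul_comm] using H.summ_al Gb_tri
  have sSt : Summable (fun k => ((k + 1 : ℕ) : ℂ) * St z q (k + 1)) := by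
    have h1 : Summable (fun k => St z q k * ((k : ℕ) : ℂ)) :=
      summ (b := (22 / 10 ^ 7 : ℝ) * (8 / 7)) (fun k => H.St_tail k) (by norm_num) Gb_id
    have h2 := (summable_nat_add_iff 1).mpr h1
    refine h2.congr fun k => ?_
    ring
  have htri : ∀ n : ℕ, (((n + 1) * (n + 1 + 1) / 2 : ℕ) : ℂ) = ((n * (n + 1) / 2 : ℕ) : ℂ) + ((n + 1 : ℕ) : ℂ) := by
    intro n
    have : (n + 1) * (n + 1 + 1) / 2 = n * (n + 1) / 2 + (n + 1) := by
      have h : (n + 1) * (n + 1 + 1) = n * (n + 1) + (n + 1) * 2 := by ring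
      rw [h, Nat.add_mul_div_right _ _ (by norm_num)]
    rw [this]; push_cast; ring
  have hpart : ∀ n : ℕ, ∑ k ∈ Finset.range n, ((k + 1 : ℕ) : ℂ) * St z q (k + 1)
      = ((n * (n + 1) / 2 : ℕ) : ℂ) * St z q n
        + ∑ k ∈ Finset.range n, ((k * (k + 1) / 2 : ℕ) : ℂ) * alpha z q k := by
    intro n
    induction n with
    | zero => simp
    | succ n ih =>
      rw [Finset.sum_range_succ, Finset.sum_range_succ, ih, htri n]
      have := H.St_succ n
      linear_combination ((n * (n + 1) / 2 : ℕ) : ℂ) * this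
  have hD : Filter.Tendsto (fun n : ℕ => ((n * (n + 1) / 2 : ℕ) : ℂ) * St z q n) Filter.atTop (nhds 0) := by
    obtain ⟨M, hM, hk⟩ := Gb_tri
    refine tendsto_zero_of_bound (M := M * 4 ^ 7 * ((22 / 10 ^ 7 : ℝ) * (8 / 7))) fun k => ?_
    rw [norm_mul]
    calc ‖(((k + 7) * (k + 7 + 1) / 2 : ℕ) : ℂ)‖ * ‖St z q (k + 7)‖
        ≤ (M * 4 ^ (k + 7)) * ((22 / 10 ^ 7 : ℝ) * (8 / 7) * (1 / 8) ^ k) :=
          mul_le_mul (hk (k + 7)) (H.St_tail k) (norm_nonneg _) (by positivity)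
      _ = M * 4 ^ 7 * ((22 / 10 ^ 7 : ℝ) * (8 / 7)) * ((4 * (1 / 8)) ^ k) := by
          rw [mul_pow, pow_add]; ring
      _ = _ := by norm_num
  have t1 := sSt.hasSum.tendsto_sum_nat
  have t2 := hD.add s1.hasSum.tendsto_sum_nat
  rw [zero_add] at t2
  refine tendsto_nhds_unique t1 (t2.congr fun n => ?_)
  exact (hpart n).symm

/-! ### enclosures -/

theorem Crit.z_mem : zB.Mem z := by
  unfold zB
  refine CB.mem_widen (w := z0) ?_ ?_
  · have h := CB.mem_lit (-7330525232968) (-831274819049) 10000000000000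
    have e : (((-7330525232968 : ℤ) : ℂ) + ((-831274819049 : ℤ) : ℂ) * I) / ((10000000000000 : ℕ) : ℂ) = z0 := by
      apply Complex.ext
      · simp [z0]; norm_num
      · simp [z0]; norm_num
    rwa [e] at h
  · have := H.hz
    push_cast
    norm_num at this ⊢
    linarith

theorem Crit.q_mem : qB.Mem q := by
  unfold qB
  refine CB.mem_widen (w := q0) ?_ ?_
  · have h := CB.mem_lit (-7328123181135) 6804308241262 10000000000000
    have e : (((-7328123181135 : ℤ) : ℂ) + ((6804308241262 : ℤ) : ℂ) * I) / ((10000000000000 : ℕ) : ℂ) = q0 := by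
      apply Complex.ext
      · simp [q0]; norm_num
      · simp [q0]; norm_num
    rwa [e] at h
  · have := H.hq0
    push_cast
    norm_num at this ⊢
    linarith

omit H in
theorem cpow_eval (env : ℕ → ℂ) (e : CE) : ∀ n : ℕ, (cpow e n).eval env = (e.eval env) ^ n
  | 0 => by simp [cpow, CE.eval]
  | (n + 1) => by
    rw [cpow, CE.eval, cpow_eval env e n, pow_succ]

theorem Crit.base1_mem : ∀ i, (base1 i).Mem (([z, q] : List ℂ).getD i 0) := by
  intro i
  match i with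
  | 0 => exact H.z_mem
  | 1 => exact H.q_mem
  | (n + 2) => exact CB.mem_zero

theorem Crit.al_mem_of_check {k : ℕ} (hk : alCheck k = true) : (ALlit.getD k CB.zero).Mem (alpha z q k) := by
  have h := CE.mem_ball H.base1_mem (alCE k)
  have e : (alCE k).eval (fun i => ([z, q] : List ℂ).getD i 0) = alpha z q k := by
    simp only [alCE, CE.eval, cpow_eval]
    unfold alpha
    simp only [List.getD_cons_zero, List.getD_cons_succ]
    push_cast
    ring
  rw [e] at h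
  exact CB.mem_incl h hk

/-- the second environment -/
noncomputable def env2 (z q : ℂ) (i : ℕ) : ℂ :=
  ([0, alpha z q 1, alpha z q 2, alpha z q 3, alpha z q 4, alpha z q 5, alpha z q 6, alpha z q 7,
    alpha z q 8, St z q 9, ∑' n : ℕ, ((n + 9 : ℕ) : ℂ) * alpha z q (n + 9),
    ∑' n : ℕ, (((n + 9) * (n + 9 + 1) / 2 : ℕ) : ℂ) * alpha z q (n + 9), (SS z q)⁻¹] : List ℂ).getD i 0

theorem Crit.rho9_mem : rho9B.Mem (St z q 9) := by
  refine CB.mem_small ?_
  have := H.St9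
  norm_num at this ⊢
  linarith

theorem Crit.remS_mem : remSB.Mem (∑' n : ℕ, ((n + 9 : ℕ) : ℂ) * alpha z q (n + 9)) := by
  refine CB.mem_small ?_
  have := H.remS
  norm_num at this ⊢
  linarith

theorem Crit.remT_mem : remTB.Mem (∑' n : ℕ, (((n + 9) * (n + 9 + 1) / 2 : ℕ) : ℂ) * alpha z q (n + 9)) := by
  refine CB.mem_small ?_
  have := H.remT
  norm_num at this ⊢
  linarith

theorem Crit.SS_fin : SS z q = 1 + ((1 * alpha z q 1 + 2 * alpha z q 2 + 3 * alpha z q 3 + 4 * alpha z q 4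
    + 5 * alpha z q 5 + 6 * alpha z q 6 + 7 * alpha z q 7 + 8 * alpha z q 8)
    + ∑' n : ℕ, ((n + 9 : ℕ) : ℂ) * alpha z q (n + 9)) := by
  rw [H.SS_eq]
  have s1 : Summable (fun n : ℕ => (n : ℂ) * alpha z q n) := by
    simpa [mul_comm] using H.summ_al Gb_id
  rw [← s1.sum_add_tsum_nat_add 9]
  simp only [Finset.sum_range_succ, Finset.sum_range_zero]
  push_cast
  ring

theorem Crit.TTs_fin : TTs z q = (1 * alpha z q 1 + 3 * alpha z q 2 + 6 * alpha z q 3 + 10 * alpha z q 4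
    + 15 * alpha z q 5 + 21 * alpha z q 6 + 28 * alpha z q 7 + 36 * alpha z q 8)
    + ∑' n : ℕ, (((n + 9) * (n + 9 + 1) / 2 : ℕ) : ℂ) * alpha z q (n + 9) := by
  unfold TTs
  have s1 : Summable (fun n : ℕ => ((n * (n + 1) / 2 : ℕ) : ℂ) * alpha z q n) := by
    simpa [mul_comm] using H.summ_al Gb_tri
  rw [← s1.sum_add_tsum_nat_add 9]
  simp only [Finset.sum_range_succ, Finset.sum_range_zero]
  norm_num

/-- environment without `b0` -/
theorem Crit.env2_mem' (b : ℂ) (hb : b0lit.Mem b) : ∀ i, (base2 i).Mem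
    (([0, alpha z q 1, alpha z q 2, alpha z q 3, alpha z q 4, alpha z q 5, alpha z q 6, alpha z q 7,
    alpha z q 8, St z q 9, ∑' n : ℕ, ((n + 9 : ℕ) : ℂ) * alpha z q (n + 9),
    ∑' n : ℕ, (((n + 9) * (n + 9 + 1) / 2 : ℕ) : ℂ) * alpha z q (n + 9), b] : List ℂ).getD i 0) := by
  intro i
  match i with
  | 0 => exact CB.mem_zero
  | 1 => exact H.al_mem_of_check alCheck1
  | 2 => exact H.al_mem_of_check alCheck2
  | 3 => exact H.al_mem_of_check alCheck3
  | 4 => exact H.al_mem_of_check alCheck4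
  | 5 => exact H.al_mem_of_check alCheck5
  | 6 => exact H.al_mem_of_check alCheck6
  | 7 => exact H.al_mem_of_check alCheck7
  | 8 => exact H.al_mem_of_check alCheck8
  | 9 => exact H.rho9_mem
  | 10 => exact H.remS_mem
  | 11 => exact H.remT_mem
  | 12 => exact hb
  | (n + 13) => exact CB.mem_zero

theorem Crit.S_inv : SS z q ≠ 0 ∧ b0lit.Mem (SS z q)⁻¹ := by
  have hb : b0lit.Mem (b0lit.c / 2 ^ 60) := by
    have := CB.mem_center b0lit
    unfold CB.Mem at this ⊢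
    have e : (⟨b0lit.re, b0lit.im, 0⟩ : CB).c = b0lit.c := rfl
    rw [e] at this
    exact this.trans (by simp)
  have h := CE.mem_ball (H.env2_mem' _ hb) SCE
  have e : SCE.eval (fun i => ([0, alpha z q 1, alpha z q 2, alpha z q 3, alpha z q 4, alpha z q 5,
    alpha z q 6, alpha z q 7, alpha z q 8, St z q 9, ∑' n : ℕ, ((n + 9 : ℕ) : ℂ) * alpha z q (n + 9),
    ∑' n : ℕ, (((n + 9) * (n + 9 + 1) / 2 : ℕ) : ℂ) * alpha z q (n + 9), b0lit.c / 2 ^ 60] : List ℂ).getD i 0)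
      = SS z q := by
    rw [H.SS_fin]
    simp only [SCE, sumCE, CE.eval, List.getD_cons_zero, List.getD_cons_succ]
    push_cast
    ring
  rw [e] at h
  exact CB.mem_inv h SCheck

theorem Crit.env2_mem : ∀ i, (base2 i).Mem (env2 z q i) := H.env2_mem' _ H.S_inv.2

theorem Crit.st_eval : ∀ m : ℕ, m ≤ 8 → (stCE m).eval (env2 z q) = St z q (9 - m)
  | 0, _ => rfl
  | (m + 1), h => by
    have ih := Crit.st_eval m (by omega)
    rw [stCE, CE.eval, ih, CE.eval]
    have e : env2 z q (8 - m) = alpha z q (8 - m) := by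
      have hm : m ≤ 7 := by omega
      interval_cases m <;> rfl
    rw [e, show 9 - (m + 1) = 8 - m by omega, H.St_succ (8 - m), show 8 - m + 1 = 9 - m by omega]

theorem Crit.be_mem_of_check {k : ℕ} (h1 : 1 ≤ k) (h2 : k ≤ 7) (hk : beCheck k = true) :
    (benvMain (10 + k)).Mem (be z q k) := by
  have h := CE.mem_ball H.env2_mem (CE.mul (CE.var 12) (stCE (9 - k)))
  have e : (CE.mul (CE.var 12) (stCE (9 - k))).eval (env2 z q) = be z q k := by
    rw [CE.eval, CE.eval, H.st_eval (9 - k) (by omega), show 9 - (9 - k) = k by omega]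
    rfl
  rw [e] at h
  exact CB.mem_incl h hk

theorem Crit.TTs_eval : TCE.eval (env2 z q) = TTs z q := by
  rw [H.TTs_fin]
  simp only [TCE, sumCE, CE.eval, env2, List.getD_cons_zero, List.getD_cons_succ]
  norm_num

theorem Crit.kap_real : ((kap z q : ℝ) : ℂ) = (SS z q)⁻¹ * TTs z q := by
  have hS := H.S_inv.1
  have h := H.hcrit
  have h' : (TTs z q * (starRingEnd ℂ) (SS z q)).im = 0 := h
  unfold kap
  apply Complex.ext
  · simp
  · rw [Complex.ofReal_im]
    have : (SS z q)⁻¹ * TTs z q = (((Complex.normSq (SS z q))⁻¹ : ℝ) : ℂ) * (TTs z q * (starRingEnd ℂ) (SS z q)) := by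
      rw [Complex.inv_def]; ring
    rw [this, Complex.im_ofReal_mul, h', mul_zero]

theorem Crit.kap_mem : (benvMain 30).Mem ((kap z q : ℝ) : ℂ) := by
  have h := CE.mem_ball H.env2_mem (CE.mul (CE.var 12) TCE)
  have e : (CE.mul (CE.var 12) TCE).eval (env2 z q) = ((kap z q : ℝ) : ℂ) := by
    rw [CE.eval, CE.eval, H.TTs_eval, H.kap_real]
    rfl
  rw [e] at h
  have h2 := CB.mem_incl h kapCheck
  rw [kapCheck2]
  exact CB.mem_real h2

theorem Crit.ww_ne (k : ℕ) : ww z q k ≠ 0 := by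
  unfold ww
  exact mul_ne_zero (pow_ne_zero _ H.z_ne) (pow_ne_zero _ H.q_ne)

theorem Crit.chi_norm (k : ℕ) : ‖chi z q k‖ = 1 := by
  unfold chi
  rw [norm_div, RCLike.norm_conj]
  exact div_self (norm_ne_zero_iff.mpr (H.ww_ne k))

theorem Crit.chi_mem_of_check {k : ℕ} (hk : chiCheck k = true) : (benvMain (20 + k)).Mem (chi z q k) := by
  have hb : ∀ i, (base3 i).Mem (([z, q, z⁻¹] : List ℂ).getD i 0) := by
    intro i
    match i with
    | 0 => exact H.z_mem
    | 1 => exact H.q_mem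
    | 2 => exact (CB.mem_inv H.z_mem ziCheck).2
    | (n + 3) => exact CB.mem_zero
  have h := CE.mem_ball hb (chiCE k)
  have e : (chiCE k).eval (fun i => ([z, q, z⁻¹] : List ℂ).getD i 0) = chi z q k := by
    simp only [chiCE, CE.eval, cpow_eval, List.getD_cons_zero, List.getD_cons_succ]
    unfold chi ww
    have hq := H.q_ne
    have hz := H.z_ne
    have hqq : (starRingEnd ℂ) q * q = 1 := by rw [conj_mul_self_re, H.hq]; simp
    have hk2 : k * (k + 1) / 2 + k * (k + 1) / 2 = k * (k + 1) := by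
      have := Nat.even_mul_succ_self k
      obtain ⟨m, hm⟩ := this
      have : k * (k + 1) = m + m := hm
      omega
    rw [map_mul, map_pow, map_pow, mul_pow]
    set m := k * (k + 1) / 2 with hm
    rw [← hk2, pow_add]
    have h1 : (starRingEnd ℂ) q ^ m * q ^ m = 1 := by rw [← mul_pow, hqq, one_pow]
    have hqm : q ^ m ≠ 0 := pow_ne_zero _ hq
    have hzk : z ^ k ≠ 0 := pow_ne_zero _ hz
    rw [inv_pow]
    field_simp
    linear_combination ((starRingEnd ℂ) z ^ k * (starRingEnd ℂ) q ^ m) * h1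
  rw [e] at h
  exact CB.mem_incl h hk

theorem Crit.al_main {k : ℕ} (hk : k ≤ 6) (hc : alCheck k = true) : (benvMain k).Mem (alpha z q k) := by
  rw [alMain k hk]
  exact H.al_mem_of_check hc

theorem Crit.main_mem : ∀ i, (benvMain i).Mem (envOf (alpha z q) (be z q) (chi z q) (kap z q) i) := by
  intro i
  match i with
  | 0 => exact CB.mem_zero
  | 1 => exact H.al_main (by norm_num) alCheck1
  | 2 => exact H.al_main (by norm_num) alCheck2
  | 3 => exact H.al_main (by norm_num) alCheck3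
  | 4 => exact H.al_main (by norm_num) alCheck4
  | 5 => exact H.al_main (by norm_num) alCheck5
  | 6 => exact H.al_main (by norm_num) alCheck6
  | 7 => exact CB.mem_zero
  | 8 => exact CB.mem_zero
  | 9 => exact CB.mem_zero
  | 10 =>
    have h := CB.mem_incl H.S_inv.2 beCheck0
    have e : be z q 0 = (SS z q)⁻¹ := by unfold be; rw [H.St_zero, mul_one]
    have e2 : envOf (alpha z q) (be z q) (chi z q) (kap z q) 10 = be z q 0 := rfl
    rw [e2, e]; exact h
  | 11 => exact H.be_mem_of_check (by norm_num) (by norm_num) beCheck1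
  | 12 => exact H.be_mem_of_check (by norm_num) (by norm_num) beCheck2
  | 13 => exact H.be_mem_of_check (by norm_num) (by norm_num) beCheck3
  | 14 => exact H.be_mem_of_check (by norm_num) (by norm_num) beCheck4
  | 15 => exact H.be_mem_of_check (by norm_num) (by norm_num) beCheck5
  | 16 => exact H.be_mem_of_check (by norm_num) (by norm_num) beCheck6
  | 17 => exact H.be_mem_of_check (by norm_num) (by norm_num) beCheck7
  | 18 => exact CB.mem_zero
  | 19 => exact CB.mem_zero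
  | 20 => exact CB.mem_zero
  | 21 => exact H.chi_mem_of_check chiCheck1
  | 22 => exact H.chi_mem_of_check chiCheck2
  | 23 => exact H.chi_mem_of_check chiCheck3
  | 24 => exact H.chi_mem_of_check chiCheck4
  | 25 => exact H.chi_mem_of_check chiCheck5
  | 26 => exact H.chi_mem_of_check chiCheck6
  | 27 => exact CB.mem_zero
  | 28 => exact CB.mem_zero
  | 29 => exact CB.mem_zero
  | 30 => exact H.kap_mem
  | (n + 31) => exact CB.mem_zero

theorem Crit.norm_b0 : ‖(SS z q)⁻¹‖ ≤ 79 / 100 := by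
  have h := CB.norm_le_up H.S_inv.2
  have hu : b0lit.up ≤ 2 ^ 60 * 79 / 100 := by decide +kernel
  have hu' : (b0lit.up : ℝ) ≤ 2 ^ 60 * (79 / 100) := by
    have : (b0lit.up : ℝ) ≤ ((2 ^ 60 * 79 / 100 : ℕ) : ℝ) := by exact_mod_cast hu
    refine this.trans ?_
    norm_num
  linarith

theorem Crit.cdata : CData (alpha z q) (be z q) (chi z q) (kap z q) where
  mem := H.main_mem
  al_tail := H.al_tail
  be_tail := by
    intro k
    unfold be
    rw [norm_mul]
    calc ‖(SS z q)⁻¹‖ * ‖St z q (k + 7)‖ ≤ (79 / 100) * ((22 / 10 ^ 7 : ℝ) * (8 / 7) * (1 / 8) ^ k) :=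
          mul_le_mul H.norm_b0 (H.St_tail k) (norm_nonneg _) (by norm_num)
      _ = ((79 / 100) * ((22 / 10 ^ 7 : ℝ) * (8 / 7))) * (1 / 8) ^ k := by ring
      _ ≤ _ := mul_le_mul_of_nonneg_right (by norm_num) (by positivity)
  be_succ := by
    intro k
    unfold be
    rw [H.St_zero]
    have := H.St_succ k
    linear_combination -(SS z q)⁻¹ * this
  sum_be := by
    unfold be
    rw [tsum_mul_left, H.sum_St1, H.St_zero]
    have h := H.SS_eq
    have hS := H.S_inv.1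
    have : ∑' n : ℕ, (n : ℂ) * alpha z q n = SS z q - 1 := by rw [h]; ring
    rw [this]
    field_simp
  sum_kbe := by
    unfold be
    rw [H.kap_real, ← H.sum_kSt1, ← tsum_mul_left]
    exact tsum_congr fun k => by ring
  chi_norm := H.chi_norm

end

end Pool.Agent.H81.W
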