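import Pool.Agent.H81.W.Data

set_option autoImplicit false

/-!
# Certificate data for the lower bound of the Lyapunov form (machine generated)
-/

namespace Pool.Agent.H81.W

/-- finite part of the form `N`; here `v 0 = s 0` -/
def lowForm : List Term :=
  ⟨CE.lit 1 0 1, mono (0, 0), mono (0, 0)⟩ :: (nTerms 1 1 (fun k => lfTau k 0) ++
  [⟨beM 2 1, mono (0, 0), lfTau 1 0⟩, ⟨beM 2 2, mono (0, 0), lfTau 2 0⟩,
   ⟨beM 2 3, mono (0, 0), lfTau 3 0⟩, ⟨beM 2 4, mono (0, 0), lfTau 4 0⟩,
   ⟨beM 2 5, mono (0, 0), lfTau 5 0⟩, ⟨beM 2 6, mono (0, 0), lfTau 6 0⟩])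

def lowKeys : List Key := [(0,0), (1,0), (2,0), (3,0), (4,0), (5,0), (6,0)]

def lowDiag : List (Key × ℕ) := [((0,0), 329853488333), ((1,0), 2199023256), ((2,0), 2199023256), ((3,0), 2199023256), ((4,0), 2199023256), ((5,0), 2199023256), ((6,0), 2199023256)]

def lcol0 : List (Key × (Int × Int)) := [
  ((0,0), (919917427669, 0)),
  ((1,0), (405731811693, (-112344604821))),
  ((2,0), (73866188613, 134635783035)),
  ((3,0), (47264227036, (-51254373488))),
  ((4,0), (15582591251, (-9017059400))),
  ((5,0), ((-2381209602), 5901218197)),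
  ((6,0), (1102572024, 1357900669))]

def lcol1 : List (Key × (Int × Int)) := [
  ((1,0), (505525301216, 0)),
  ((2,0), ((-163283824546), 133800425848)),
  ((3,0), ((-49324440811), 30632787056)),
  ((4,0), ((-14510393320), 3774069836)),
  ((5,0), (3222593426, (-4207100799))),
  ((6,0), ((-583147332), (-1334871895)))]

def lcol2 : List (Key × (Int × Int)) := [
  ((2,0), (370634887895, 0)),
  ((3,0), (15551668585, (-159586209913))),
  ((4,0), ((-7585072349), 3881927966)),
  ((5,0), (1269402903, (-2731161272))),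
  ((6,0), ((-488019119), (-668705664)))]

def lcol3 : List (Key × (Int × Int)) := [
  ((3,0), (329714191173, 0)),
  ((4,0), (25412552170, 118905701527)),
  ((5,0), (749861886, (-1291330738))),
  ((6,0), ((-210828435), (-352172865)))]

def lcol4 : List (Key × (Int × Int)) := [
  ((4,0), (200511101247, 0)),
  ((5,0), (1534465706, (-65725135))),
  ((6,0), (188352671, (-377822727)))]

def lcol5 : List (Key × (Int × Int)) := [
  ((5,0), (183759854836, 0)),
  ((6,0), ((-59544505), 107643184))]

def lcol6 : List (Key × (Int × Int)) := [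
  ((6,0), (202724564865, 0))]

def lowSqs : List LF := [mkCol lcol0, mkCol lcol1, mkCol lcol2, mkCol lcol3, mkCol lcol4, mkCol lcol5, mkCol lcol6]

def lowCert : Cert := ⟨lowKeys, colDen, lowDiag, [], lowSqs, 6085295790646⟩

end Pool.Agent.H81.W
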