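import Pool.Agent.H81.W.Gram

set_option autoImplicit false

/-!
# The main finite form

Variables: `v 0 = y`, `v j = τ_j / r_j` (`1 ≤ j ≤ 6`), `v 7 = 100 η`.
Environment: `j ↦ alpha_j` (`0 ≤ j ≤ 9`), `10 + k ↦ beta_k`, `20 + k ↦ chi_k`, `30 ↦ kappa`.
-/

namespace Pool.Agent.H81.W

open Complex

/-- twice the scaling factors -/
def r2 : ℕ → ℤ
  | 1 => 3
  | 2 => 5
  | 3 => 10
  | 4 => 22
  | 5 => 54
  | 6 => 142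
  | _ => 0

def lfTau (k m : ℕ) : LF := [((k, m), CE.lit (r2 k) 0 2)]

def lfP : ℕ → LF
  | 0 => []
  | (k + 1) => ((0, k), CE.lit 1 0 1) :: lfP k

def lfScale (c : CE) : LF → LF
  | [] => []
  | p :: L => (p.1, CE.mul c p.2) :: lfScale c L

def lfAc (j : ℕ) : LF → LF := fun L => ((j, 0), CE.mul (CE.var j) (CE.lit (r2 j) 0 2)) :: L

def lfA : LF := lfAc 1 (lfAc 2 (lfAc 3 (lfAc 4 (lfAc 5 (lfAc 6 [((7, 0), CE.lit 1 0 100)])))))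

/-- `rho k = ξ^k τ_{k-1}` -/
def lfRho (k : ℕ) : LF := lfTau (k - 1) k

def lfNegA : LF := lfScale (CE.lit (-1) 0 1) lfA

def lfTp (k : ℕ) : LF := (if k ≤ 1 then [] else lfRho k) ++ (lfP k ++ lfNegA)

def lfY : LF := [((0, 0), CE.lit 1 0 2), ((0, 1), CE.lit 1 0 2)]

def lfT (k : ℕ) : LF := [((k, 2), CE.lit (r2 k) 0 4), ((k, 0), CE.lit (-r2 k) 0 4)]

def chiC (k : ℕ) : CE := CE.conj (CE.var (20 + k))

def lfV (k : ℕ) : LF :=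
  lfScale (chiC k) (lfT k) ++ lfScale (CE.add (chiC k) (CE.lit (-1) 0 1)) lfY

/-- `∑_{e=1}^{k-1} (k-e) ξ^e y` -/
def lfQ (k : ℕ) : ℕ → LF
  | 0 => []
  | (e + 1) => if e = 0 then [] else ((0, e), CE.lit ((k : ℤ) - e) 0 1) :: lfQ k e

def nTerms (s cj : ℤ) (f : ℕ → LF) : List Term :=
  [⟨CE.lit (s * 4) 0 25, f 1, f 1⟩, ⟨CE.lit (s * 86) 0 3125, f 2, f 2⟩,
   ⟨CE.lit (s * 3) 0 625, f 3, f 3⟩, ⟨CE.lit (s * 6) 0 15125, f 4, f 4⟩,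
   ⟨CE.lit (s * 1) 0 24300, f 5, f 5⟩, ⟨CE.lit (s * 9) 0 1260250, f 6, f 6⟩,
   ⟨CE.lit (s * (-112)) (s * cj * (-216)) 3750, f 2, f 1⟩,
   ⟨CE.lit (s * 24) (s * cj * 112) 12500, f 3, f 2⟩,
   ⟨CE.lit (s * 16) (s * cj * (-64)) 55000, f 4, f 3⟩]

def beM (m : ℤ) (k : ℕ) : CE := CE.mul (CE.lit m 0 1) (CE.var (10 + k))

/-- `2 Re ∑ be_k conj(P_k - A) rho_k`, `2 ≤ k ≤ 7` -/
def t2Terms : ℕ → List Term
  | 0 => []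
  | (k + 1) => if k + 1 ≤ 1 then [] else ⟨beM 2 (k + 1), lfP (k + 1) ++ lfNegA, lfRho (k + 1)⟩ :: t2Terms k

def t3Terms : ℕ → List Term
  | 0 => []
  | (k + 1) => ⟨beM (-2) (k + 1), lfA, lfP (k + 1)⟩ :: t3Terms k

def t4Terms : ℕ → List Term
  | 0 => []
  | (k + 1) => if k + 1 ≤ 1 then [] else ⟨beM 2 (k + 1), mono (0, 0), lfQ (k + 1) (k + 1)⟩ :: t4Terms k

def t5Terms : ℕ → List Term
  | 0 => []
  | (k + 1) => ⟨beM (-2) (k + 1), lfY, lfT (k + 1)⟩ :: t5Terms k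

def t6Terms : ℕ → List Term
  | 0 => []
  | (k + 1) => ⟨CE.conj (beM 2 (k + 1)), lfY, lfV (k + 1)⟩ :: t6Terms k

def mainForm : List Term :=
  nTerms 1 1 (fun k => lfTau k 0) ++ (nTerms (-1) 1 lfTp ++ (nTerms (-1) 1 lfT ++ (nTerms 1 (-1) lfV ++
  (⟨CE.lit (-1) 0 1683375, lfTp 7, lfTp 7⟩ ::
   ⟨CE.add (CE.lit 1 0 1) (CE.neg (CE.add (CE.var 10) (CE.conj (CE.var 10)))), lfA, lfA⟩ ::
   ⟨CE.var 30, mono (0, 0), mono (0, 0)⟩ ::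
   ⟨CE.lit 1 0 1, [((7, 0), CE.lit 1 0 1)], [((7, 0), CE.lit 1 0 1)]⟩ ::
   (t2Terms 7 ++ (t3Terms 7 ++ (t4Terms 7 ++ (t5Terms 6 ++ t6Terms 6)))))))) 

end Pool.Agent.H81.W
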