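import Pool.Agent.H81.W.Ball

set_option autoImplicit false

/-!
# The Gram-matrix checker
-/

namespace Pool.Agent.H81.W

open Complex

/-- operations shared by `ℂ` and the option-balls -/
structure Ops (R : Type) where
  zero : R
  add : R → R → R
  mul : R → R → R
  conj : R → R
  rl : R → R

noncomputable def opsC : Ops ℂ := ⟨0, (· + ·), (· * ·), starRingEnd ℂ, fun z => (z.re : ℂ)⟩

def oadd : Option CB → Option CB → Option CB
  | none, b => b
  | some a, none => some a
  | some a, some b => some (CB.add a b)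

def omul : Option CB → Option CB → Option CB
  | none, _ => none
  | some _, none => none
  | some a, some b => some (CB.mul a b)

def oconj : Option CB → Option CB
  | none => none
  | some a => some (CB.conj a)

def orl : Option CB → Option CB
  | none => none
  | some a => some ⟨a.re, 0, a.rad⟩

def opsB : Ops (Option CB) := ⟨none, oadd, omul, oconj, orl⟩

def OMem : Option CB → ℂ → Prop
  | none, z => z = 0
  | some a, z => a.Mem z

theorem omem_add {a b : Option CB} {z w : ℂ} (ha : OMem a z) (hb : OMem b w) :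
    OMem (oadd a b) (z + w) := by
  cases a with
  | none => simp only [OMem] at ha; subst ha; simpa [oadd] using hb
  | some a =>
    cases b with
    | none => simp only [OMem] at hb; subst hb; simpa [oadd] using ha
    | some b => exact CB.mem_add ha hb

theorem omem_mul {a b : Option CB} {z w : ℂ} (ha : OMem a z) (hb : OMem b w) :
    OMem (omul a b) (z * w) := by
  cases a with
  | none => simp only [OMem] at ha; subst ha; simp [omul, OMem]
  | some a =>
    cases b with
    | none => simp only [OMem] at hb; subst hb; simp [omul, OMem]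
    | some b => exact CB.mem_mul ha hb

theorem omem_conj {a : Option CB} {z : ℂ} (ha : OMem a z) : OMem (oconj a) ((starRingEnd ℂ) z) := by
  cases a with
  | none => simp only [OMem] at ha; subst ha; simp [oconj, OMem]
  | some a => exact CB.mem_conj ha

theorem omem_rl {a : Option CB} {z : ℂ} (ha : OMem a z) : OMem (orl a) (z.re : ℂ) := by
  cases a with
  | none => simp only [OMem] at ha; subst ha; simp [orl, OMem]
  | some a =>
    simp only [orl, OMem, CB.Mem, CB.c] at ha ⊢
    have h1 : (2 : ℂ) ^ 60 * (z.re : ℂ) - (((a.re : ℤ) : ℂ) + (((0 : ℤ)) : ℂ) * I)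
        = ((((2 : ℂ) ^ 60 * z - ((a.re : ℂ) + (a.im : ℂ) * I)).re : ℝ) : ℂ) := by
      have h2 : ((2 : ℂ) ^ 60 * z - ((a.re : ℂ) + (a.im : ℂ) * I)).re = 2 ^ 60 * z.re - a.re := by
        have h3 : (2 : ℂ) ^ 60 = (((2 : ℝ) ^ 60 : ℝ) : ℂ) := by push_cast; rfl
        rw [Complex.sub_re, h3, Complex.re_ofReal_mul]
        simp
      rw [h2]
      push_cast
      ring
    rw [h1, Complex.norm_real, Real.norm_eq_abs]
    exact (Complex.abs_re_le_norm _).trans ha

section generic
variable {R : Type} (o : Ops R)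

def rowUpd : List R → ℕ → R → List R
  | [], 0, c => [c]
  | [], (j + 1), c => o.zero :: rowUpd [] j c
  | a :: l, 0, c => o.add a c :: l
  | a :: l, (j + 1), c => a :: rowUpd l j c

def addRows : List R → List R → List R
  | [], b => b
  | a :: l, [] => a :: l
  | a :: l, b :: m => o.add a b :: addRows l m

def addTri : List (List R) → List (List R) → List (List R)
  | [], b => b
  | a :: l, [] => a :: l
  | a :: l, b :: m => addRows o a b :: addTri l m

/-- `outer cL M`: here `cL i = c * conj (l i)`. -/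
def outer : List R → List R → List (List R)
  | [], _ => []
  | _ :: _, [] => []
  | l :: L, m :: M =>
    (o.rl (o.mul l m) :: addRows o (L.map fun x => o.mul x m)
      (M.map fun x => o.conj (o.mul l x))) ::
      outer L M

end generic

/-- relation on rows -/
abbrev RMem (l : List (Option CB)) (x : List ℂ) : Prop := List.Forall₂ OMem l x
abbrev TMem (l : List (List (Option CB))) (x : List (List ℂ)) : Prop := List.Forall₂ RMem l x

theorem rmem_upd : ∀ (l : List (Option CB)) (x : List ℂ) (j : ℕ) (a : Option CB) (z : ℂ),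
    RMem l x → OMem a z → RMem (rowUpd opsB l j a) (rowUpd opsC x j z)
  | [], _, 0, a, z, h, ha => by
    cases h; exact List.Forall₂.cons ha List.Forall₂.nil
  | [], _, (j + 1), a, z, h, ha => by
    cases h
    exact List.Forall₂.cons rfl (rmem_upd [] [] j a z List.Forall₂.nil ha)
  | b :: l, _, 0, a, z, h, ha => by
    cases h with
    | cons h1 h2 => exact List.Forall₂.cons (omem_add h1 ha) h2
  | b :: l, _, (j + 1), a, z, h, ha => by
    cases h with
    | cons h1 h2 => exact List.Forall₂.cons h1 (rmem_upd l _ j a z h2 ha)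

theorem rmem_addRows : ∀ (l m : List (Option CB)) (x y : List ℂ),
    RMem l x → RMem m y → RMem (addRows opsB l m) (addRows opsC x y)
  | [], m, _, y, h, h' => by cases h; exact h'
  | a :: l, [], _, _, h, h' => by cases h' ; cases h with
    | cons h1 h2 => exact List.Forall₂.cons h1 h2
  | a :: l, b :: m, _, _, h, h' => by
    cases h with
    | cons h1 h2 =>
      cases h' with
      | cons h3 h4 => exact List.Forall₂.cons (omem_add h1 h3) (rmem_addRows l m _ _ h2 h4)

theorem tmem_addTri : ∀ (l m : List (List (Option CB))) (x y : List (List ℂ)),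
    TMem l x → TMem m y → TMem (addTri opsB l m) (addTri opsC x y)
  | [], m, _, y, h, h' => by cases h; exact h'
  | a :: l, [], _, _, h, h' => by cases h' ; cases h with
    | cons h1 h2 => exact List.Forall₂.cons h1 h2
  | a :: l, b :: m, _, _, h, h' => by
    cases h with
    | cons h1 h2 =>
      cases h' with
      | cons h3 h4 => exact List.Forall₂.cons (rmem_addRows _ _ _ _ h1 h3) (tmem_addTri l m _ _ h2 h4)

theorem rmem_map {f : Option CB → Option CB} {g : ℂ → ℂ} (hfg : ∀ a z, OMem a z → OMem (f a) (g z)) :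
    ∀ (l : List (Option CB)) (x : List ℂ), RMem l x → RMem (l.map f) (x.map g)
  | [], _, h => by cases h; exact List.Forall₂.nil
  | a :: l, _, h => by
    cases h with
    | cons h1 h2 => exact List.Forall₂.cons (hfg _ _ h1) (rmem_map hfg l _ h2)

theorem tmem_outer : ∀ (l m : List (Option CB)) (x y : List ℂ),
    RMem l x → RMem m y → TMem (outer opsB l m) (outer opsC x y)
  | [], m, _, y, h, h' => by cases h; exact List.Forall₂.nil
  | a :: l, [], _, _, h, h' => by
    cases h' ; cases h with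
    | cons h1 h2 => exact List.Forall₂.nil
  | a :: l, b :: m, _, _, h, h' => by
    cases h with
    | cons h1 h2 =>
      cases h' with
      | cons h3 h4 =>
        refine List.Forall₂.cons ?_ (tmem_outer l m _ _ h2 h4)
        refine List.Forall₂.cons (omem_rl (omem_mul h1 h3)) ?_
        refine rmem_addRows _ _ _ _ ?_ ?_
        · exact rmem_map (fun a z hz => omem_mul hz h3) _ _ h2
        · exact rmem_map (fun a z hz => omem_conj (omem_mul h1 hz)) _ _ h4

/-! ### values -/

/-- value of a row -/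
noncomputable def rowVal : List ℂ → (ℕ → ℂ) → ℂ
  | [], _ => 0
  | a :: l, f => a * f 0 + rowVal l (fun k => f (k + 1))

theorem rowVal_upd : ∀ (l : List ℂ) (j : ℕ) (c : ℂ) (f : ℕ → ℂ),
    rowVal (rowUpd opsC l j c) f = rowVal l f + c * f j
  | [], 0, c, f => by simp [rowUpd, rowVal]
  | [], (j + 1), c, f => by
    have := rowVal_upd [] j c (fun k => f (k + 1))
    simp only [rowUpd, rowVal] at this ⊢
    rw [this]; simp [opsC]
  | a :: l, 0, c, f => by
    simp only [rowUpd, rowVal, opsC]; ring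
  | a :: l, (j + 1), c, f => by
    have := rowVal_upd l j c (fun k => f (k + 1))
    simp only [rowUpd, rowVal] at this ⊢
    rw [this]; ring

theorem rowVal_addRows : ∀ (l m : List ℂ) (f : ℕ → ℂ),
    rowVal (addRows opsC l m) f = rowVal l f + rowVal m f
  | [], m, f => by simp [addRows, rowVal]
  | a :: l, [], f => by simp [addRows, rowVal]
  | a :: l, b :: m, f => by
    have := rowVal_addRows l m (fun k => f (k + 1))
    simp only [addRows, rowVal, opsC] at this ⊢
    rw [this]; ring

theorem rowVal_map_mul (c : ℂ) : ∀ (l : List ℂ) (f : ℕ → ℂ),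
    rowVal (l.map fun x => x * c) f = rowVal l f * c
  | [], f => by simp [rowVal]
  | a :: l, f => by
    have := rowVal_map_mul c l (fun k => f (k + 1))
    simp only [List.map_cons, rowVal] at this ⊢
    rw [this]; ring

theorem rowVal_map_conj (c : ℂ) : ∀ (l : List ℂ) (f : ℕ → ℂ),
    rowVal (l.map fun x => (starRingEnd ℂ) (c * x)) (fun k => (starRingEnd ℂ) (f k))
      = (starRingEnd ℂ) (c * rowVal l f)
  | [], f => by simp [rowVal]
  | a :: l, f => by
    have := rowVal_map_conj c l (fun k => f (k + 1))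
    simp only [List.map_cons, rowVal] at this ⊢
    rw [this]; simp only [map_mul, map_add]; ring

/-- value of a triangular form -/
noncomputable def triVal : List (List ℂ) → (ℕ → ℂ) → ℝ
  | [], _ => 0
  | col :: rest, u => (u 0 * rowVal col (fun i => (starRingEnd ℂ) (u i))).re
      + triVal rest (fun k => u (k + 1))

theorem triVal_addTri : ∀ (l m : List (List ℂ)) (u : ℕ → ℂ),
    triVal (addTri opsC l m) u = triVal l u + triVal m u
  | [], m, f => by simp [addTri, triVal]
  | a :: l, [], f => by simp [addTri, triVal]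
  | a :: l, b :: m, f => by
    have := triVal_addTri l m (fun k => f (k + 1))
    simp only [addTri, triVal] at this ⊢
    rw [this, rowVal_addRows, mul_add, Complex.add_re]; ring

theorem rowVal_nil (f : ℕ → ℂ) : rowVal [] f = 0 := rfl

theorem triVal_outer : ∀ (l m : List ℂ) (u : ℕ → ℂ),
    triVal (outer opsC l m) u
      = (rowVal l (fun i => (starRingEnd ℂ) (u i)) * rowVal m u).re
  | [], m, u => by simp [outer, triVal, rowVal]
  | a :: l, [], u => by simp [outer, triVal, rowVal]
  | a :: l, b :: m, u => by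
    have := triVal_outer l m (fun k => u (k + 1))
    simp only [outer, triVal, rowVal] at this ⊢
    rw [this, rowVal_addRows]
    have h1 : rowVal (l.map fun x => opsC.mul x b) (fun k => (starRingEnd ℂ) (u (k + 1)))
        = rowVal l (fun k => (starRingEnd ℂ) (u (k + 1))) * b := rowVal_map_mul b l _
    have h2 : rowVal (m.map fun x => opsC.conj (opsC.mul a x)) (fun k => (starRingEnd ℂ) (u (k + 1)))
        = (starRingEnd ℂ) (a * rowVal m (fun k => u (k + 1))) := rowVal_map_conj a m _
    rw [h1, h2]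
    set X := rowVal l (fun k => (starRingEnd ℂ) (u (k + 1))) with hX
    set Y := rowVal m (fun k => u (k + 1)) with hY
    have h3 : opsC.rl (opsC.mul a b) = ((a * b).re : ℂ) := rfl
    rw [h3]
    have e0 : (u 0 * (((a * b).re : ℂ) * (starRingEnd ℂ) (u 0))).re
        = ((a * (starRingEnd ℂ) (u 0)) * (b * u 0)).re := by
      have h4 : u 0 * (((a * b).re : ℂ) * (starRingEnd ℂ) (u 0))
          = (((a * b).re * Complex.normSq (u 0) : ℝ) : ℂ) := by
        push_cast
        rw [← Complex.mul_conj]; ring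
      have h5 : (a * (starRingEnd ℂ) (u 0)) * (b * u 0)
          = ((Complex.normSq (u 0) : ℝ) : ℂ) * (a * b) := by
        rw [← Complex.mul_conj]; ring
      rw [h4, h5, Complex.ofReal_re, Complex.re_ofReal_mul]
      ring
    have e1 : u 0 * (((a * b).re : ℂ) * (starRingEnd ℂ) (u 0) + (X * b + (starRingEnd ℂ) (a * Y)))
        = u 0 * (((a * b).re : ℂ) * (starRingEnd ℂ) (u 0)) + X * (b * u 0)
          + (starRingEnd ℂ) ((a * (starRingEnd ℂ) (u 0)) * Y) := by
      simp only [map_mul, Complex.conj_conj]; ring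
    rw [e1]
    simp only [Complex.add_re, Complex.conj_re, add_mul, mul_add, e0]
    ring

/-! ### terms -/

abbrev Key := ℕ × ℕ
abbrev LF := List (Key × CE)

/-- lifted variable -/
noncomputable def lv (ξ : ℂ) (v : ℕ → ℂ) (k : Key) : ℂ := ξ ^ k.2 * v k.1

noncomputable def LFeval (env : ℕ → ℂ) (ξ : ℂ) (v : ℕ → ℂ) (L : LF) : ℂ :=
  (L.map fun p => p.2.eval env * lv ξ v p.1).sum

structure Term where
  c : CE
  L : LF
  M : LF

noncomputable def Term.eval (env : ℕ → ℂ) (ξ : ℂ) (v : ℕ → ℂ) (t : Term) : ℝ :=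
  (t.c.eval env * (starRingEnd ℂ) (LFeval env ξ v t.L) * LFeval env ξ v t.M).re

noncomputable def tsEval (env : ℕ → ℂ) (ξ : ℂ) (v : ℕ → ℂ) (ts : List Term) : ℝ :=
  (ts.map (Term.eval env ξ v)).sum

theorem tsEval_append (env : ℕ → ℂ) (ξ : ℂ) (v : ℕ → ℂ) (a b : List Term) :
    tsEval env ξ v (a ++ b) = tsEval env ξ v a + tsEval env ξ v b := by
  simp [tsEval]

theorem tsEval_cons (env : ℕ → ℂ) (ξ : ℂ) (v : ℕ → ℂ) (a : Term) (b : List Term) :
    tsEval env ξ v (a :: b) = a.eval env ξ v + tsEval env ξ v b := by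
  simp [tsEval]

theorem tsEval_nil (env : ℕ → ℂ) (ξ : ℂ) (v : ℕ → ℂ) : tsEval env ξ v [] = 0 := by
  simp [tsEval]

/-- index of a key (total) -/
def keyIdx (k : Key) : List Key → ℕ
  | [] => 0
  | a :: l => if a.1 == k.1 && a.2 == k.2 then 0 else keyIdx k l + 1

def hasKey (k : Key) : List Key → Bool
  | [] => false
  | a :: l => (a.1 == k.1 && a.2 == k.2) || hasKey k l

/-- values of the lifted variables as a function on `ℕ` -/
noncomputable def kv (ξ : ℂ) (v : ℕ → ℂ) : List Key → ℕ → ℂ
  | [], _ => 0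
  | k :: _, 0 => lv ξ v k
  | _ :: l, (p + 1) => kv ξ v l p

theorem kv_keyIdx (ξ : ℂ) (v : ℕ → ℂ) (k : Key) : ∀ (keys : List Key), hasKey k keys = true →
    kv ξ v keys (keyIdx k keys) = lv ξ v k
  | [], h => by simp [hasKey] at h
  | a :: l, h => by
    unfold keyIdx
    split_ifs with h1
    · simp only [Bool.and_eq_true, beq_iff_eq] at h1
      have : a = k := Prod.ext h1.1 h1.2
      subst this; rfl
    · simp only [hasKey] at h
      have h2 : hasKey k l = true := by
        rcases Bool.or_eq_true _ _ |>.mp h with h3 | h3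
        · exact absurd h3 h1
        · exact h3
      exact kv_keyIdx ξ v k l h2

section dense
variable {R : Type} (o : Ops R) (ev : CE → R) (keys : List Key)

/-- dense row of a linear functional -/
def dense : LF → List R
  | [] => []
  | p :: L => rowUpd o (dense L) (keyIdx p.1 keys) (ev p.2)

def termTri (t : Term) : List (List R) :=
  outer o ((dense o ev keys t.L).map fun x => o.mul (ev t.c) (o.conj x)) (dense o ev keys t.M)

def tsTri : List Term → List (List R)
  | [] => []
  | t :: ts => addTri o (termTri o ev keys t) (tsTri ts)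

end dense

def LFok (keys : List Key) : LF → Bool
  | [] => true
  | p :: L => hasKey p.1 keys && LFok keys L

def tsOk (keys : List Key) : List Term → Bool
  | [] => true
  | t :: ts => LFok keys t.L && (LFok keys t.M && tsOk keys ts)

theorem rowVal_dense (env : ℕ → ℂ) (ξ : ℂ) (v : ℕ → ℂ) (keys : List Key) :
    ∀ (L : LF), LFok keys L = true →
      rowVal (dense opsC (CE.eval env) keys L) (kv ξ v keys) = LFeval env ξ v L
  | [], _ => by simp [dense, rowVal, LFeval]
  | p :: L, h => by
    simp only [LFok, Bool.and_eq_true] at h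
    rw [dense, rowVal_upd, rowVal_dense env ξ v keys L h.2, kv_keyIdx ξ v p.1 keys h.1]
    simp only [LFeval, List.map_cons, List.sum_cons]
    ring

theorem rowVal_map_cconj (c : ℂ) : ∀ (l : List ℂ) (f : ℕ → ℂ),
    rowVal (l.map fun x => c * (starRingEnd ℂ) x) (fun k => (starRingEnd ℂ) (f k))
      = c * (starRingEnd ℂ) (rowVal l f)
  | [], f => by simp [rowVal]
  | a :: l, f => by
    have := rowVal_map_cconj c l (fun k => f (k + 1))
    simp only [List.map_cons, rowVal] at this ⊢
    rw [this]; simp only [map_mul, map_add]; ring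

theorem triVal_termTri (env : ℕ → ℂ) (ξ : ℂ) (v : ℕ → ℂ) (keys : List Key) (t : Term)
    (hL : LFok keys t.L = true) (hM : LFok keys t.M = true) :
    triVal (termTri opsC (CE.eval env) keys t) (kv ξ v keys) = t.eval env ξ v := by
  unfold termTri
  rw [triVal_outer, rowVal_dense env ξ v keys t.M hM]
  have h1 : rowVal ((dense opsC (CE.eval env) keys t.L).map
      fun x => opsC.mul (CE.eval env t.c) (opsC.conj x)) (fun i => (starRingEnd ℂ) (kv ξ v keys i))
      = CE.eval env t.c * (starRingEnd ℂ) (rowVal (dense opsC (CE.eval env) keys t.L) (kv ξ v keys)) :=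
    rowVal_map_cconj _ _ _
  rw [h1, rowVal_dense env ξ v keys t.L hL]
  rfl

theorem triVal_tsTri (env : ℕ → ℂ) (ξ : ℂ) (v : ℕ → ℂ) (keys : List Key) :
    ∀ (ts : List Term), tsOk keys ts = true →
      triVal (tsTri opsC (CE.eval env) keys ts) (kv ξ v keys) = tsEval env ξ v ts
  | [], _ => by simp [tsTri, triVal, tsEval]
  | t :: ts, h => by
    simp only [tsOk, Bool.and_eq_true] at h
    rw [tsTri, triVal_addTri, triVal_tsTri env ξ v keys ts h.2.2,
      triVal_termTri env ξ v keys t h.1 h.2.1, tsEval_cons]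

def ballO (benv : ℕ → CB) (e : CE) : Option CB := some (e.ball benv)

theorem rmem_dense {env : ℕ → ℂ} {benv : ℕ → CB} (h : ∀ i, (benv i).Mem (env i)) (keys : List Key) :
    ∀ (L : LF), RMem (dense opsB (ballO benv) keys L) (dense opsC (CE.eval env) keys L)
  | [] => List.Forall₂.nil
  | p :: L => rmem_upd _ _ _ _ _ (rmem_dense h keys L) (CE.mem_ball h p.2)

theorem tmem_termTri {env : ℕ → ℂ} {benv : ℕ → CB} (h : ∀ i, (benv i).Mem (env i)) (keys : List Key)
    (t : Term) : TMem (termTri opsB (ballO benv) keys t) (termTri opsC (CE.eval env) keys t) := by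
  refine tmem_outer _ _ _ _ ?_ (rmem_dense h keys t.M)
  have hc : OMem (ballO benv t.c) (CE.eval env t.c) := CE.mem_ball h t.c
  exact rmem_map (fun a z hz => omem_mul hc (omem_conj hz)) _ _ (rmem_dense h keys t.L)

theorem tmem_tsTri {env : ℕ → ℂ} {benv : ℕ → CB} (h : ∀ i, (benv i).Mem (env i)) (keys : List Key) :
    ∀ (ts : List Term), TMem (tsTri opsB (ballO benv) keys ts) (tsTri opsC (CE.eval env) keys ts)
  | [] => List.Forall₂.nil
  | t :: ts => tmem_addTri _ _ _ _ (tmem_termTri h keys t) (tmem_tsTri h keys ts)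

/-! ### smallness -/

def rowSmall (E : ℕ) : List (Option CB) → Bool
  | [] => true
  | none :: l => rowSmall E l
  | some a :: l => (a.up.ble E) && rowSmall E l

def triSmall (E : ℕ) : List (List (Option CB)) → Bool
  | [] => true
  | r :: l => rowSmall E r && triSmall E l

theorem norm_rowVal_le (E : ℕ) : ∀ (l : List (Option CB)) (x : List ℂ) (f : ℕ → ℂ) (Sm : ℝ),
    rowSmall E l = true → RMem l x → (∀ N, ∑ i ∈ Finset.range N, ‖f i‖ ≤ Sm) →
      ∃ T : ℕ, ‖rowVal x f‖ ≤ ((E : ℝ) / 2 ^ 60) * ∑ i ∈ Finset.range T, ‖f i‖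
  | [], _, f, Sm, _, h, _ => by cases h; exact ⟨0, by simp [rowVal]⟩
  | o :: l, _, f, Sm, hs, h, hf => by
    cases h with
    | @cons _ z _ x h1 h2 =>
      have hE : (0 : ℝ) ≤ (E : ℝ) / 2 ^ 60 := by positivity
      have hz : ‖z‖ ≤ (E : ℝ) / 2 ^ 60 := by
        cases o with
        | none => simp only [OMem] at h1; subst h1; simpa using hE
        | some a =>
          simp only [rowSmall, Bool.and_eq_true] at hs
          have h3 := CB.norm_le_up h1
          have h4 : a.up ≤ E := Nat.le_of_ble_eq_true hs.1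
          rw [le_div_iff₀ (by positivity)]
          have h5 : (a.up : ℝ) ≤ E := by exact_mod_cast h4
          linarith
      have hs2 : rowSmall E l = true := by
        cases o with
        | none => simpa [rowSmall] using hs
        | some a => simp only [rowSmall, Bool.and_eq_true] at hs; exact hs.2
      have hf2 : ∀ N, ∑ i ∈ Finset.range N, ‖f (i + 1)‖ ≤ Sm := by
        intro N
        have := hf (N + 1)
        rw [Finset.sum_range_succ'] at this
        linarith [norm_nonneg (f 0)]
      obtain ⟨T, hT⟩ := norm_rowVal_le E l x (fun k => f (k + 1)) Sm hs2 h2 hf2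
      refine ⟨T + 1, ?_⟩
      rw [Finset.sum_range_succ', mul_add]
      simp only [rowVal]
      refine (norm_add_le _ _).trans ?_
      rw [norm_mul]
      have := mul_le_mul_of_nonneg_right hz (norm_nonneg (f 0))
      linarith

theorem norm_rowVal_le' (E : ℕ) (l : List (Option CB)) (x : List ℂ) (f : ℕ → ℂ) (Sm : ℝ)
    (hs : rowSmall E l = true) (h : RMem l x) (hf : ∀ N, ∑ i ∈ Finset.range N, ‖f i‖ ≤ Sm) :
    ‖rowVal x f‖ ≤ ((E : ℝ) / 2 ^ 60) * Sm := by
  obtain ⟨T, hT⟩ := norm_rowVal_le E l x f Sm hs h hf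
  exact hT.trans (mul_le_mul_of_nonneg_left (hf T) (by positivity))

theorem abs_triVal_le (E : ℕ) : ∀ (l : List (List (Option CB))) (x : List (List ℂ)) (u : ℕ → ℂ) (Sm : ℝ),
    triSmall E l = true → TMem l x → (∀ N, ∑ i ∈ Finset.range N, ‖u i‖ ≤ Sm) →
      ∃ T : ℕ, |triVal x u| ≤ ((E : ℝ) / 2 ^ 60) * Sm * ∑ i ∈ Finset.range T, ‖u i‖
  | [], _, u, Sm, _, h, _ => by cases h; exact ⟨0, by simp [triVal]⟩
  | r :: l, _, u, Sm, hs, h, hu => by
    cases h with
    | @cons _ z _ x h1 h2 =>
      simp only [triSmall, Bool.and_eq_true] at hs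
      have hE : (0 : ℝ) ≤ (E : ℝ) / 2 ^ 60 := by positivity
      have hr := norm_rowVal_le' E r z (fun i => (starRingEnd ℂ) (u i)) Sm hs.1 h1
        (by simpa using hu)
      have hu2 : ∀ N, ∑ i ∈ Finset.range N, ‖u (i + 1)‖ ≤ Sm := by
        intro N
        have := hu (N + 1)
        rw [Finset.sum_range_succ'] at this
        linarith [norm_nonneg (u 0)]
      obtain ⟨T, hT⟩ := abs_triVal_le E l x (fun k => u (k + 1)) Sm hs.2 h2 hu2
      refine ⟨T + 1, ?_⟩
      rw [Finset.sum_range_succ', mul_add]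
      simp only [triVal]
      refine (abs_add_le _ _).trans ?_
      have h3 : |(u 0 * rowVal z (fun i => (starRingEnd ℂ) (u i))).re|
          ≤ (E : ℝ) / 2 ^ 60 * Sm * ‖u 0‖ := by
        refine (Complex.abs_re_le_norm _).trans ?_
        rw [norm_mul, mul_comm]
        exact mul_le_mul_of_nonneg_right hr (norm_nonneg _)
      linarith

noncomputable def nsum (v : ℕ → ℂ) (keys : List Key) : ℝ := (keys.map fun k => ‖v k.1‖).sum
noncomputable def nsum2 (v : ℕ → ℂ) (keys : List Key) : ℝ := (keys.map fun k => ‖v k.1‖ ^ 2).sum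

theorem norm_lv {ξ : ℂ} (hξ : ‖ξ‖ = 1) (v : ℕ → ℂ) (k : Key) : ‖lv ξ v k‖ = ‖v k.1‖ := by
  simp [lv, hξ]

theorem nsum_nonneg (v : ℕ → ℂ) (keys : List Key) : 0 ≤ nsum v keys := by
  unfold nsum
  apply List.sum_nonneg
  intro x hx
  simp only [List.mem_map] at hx
  obtain ⟨k, _, rfl⟩ := hx
  exact norm_nonneg _

theorem sum_kv_le {ξ : ℂ} (hξ : ‖ξ‖ = 1) (v : ℕ → ℂ) : ∀ (keys : List Key) (N : ℕ),
    ∑ i ∈ Finset.range N, ‖kv ξ v keys i‖ ≤ nsum v keys
  | [], N => by simp [kv, nsum]
  | k :: l, 0 => by simpa using nsum_nonneg v (k :: l)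
  | k :: l, (N + 1) => by
    rw [Finset.sum_range_succ']
    have := sum_kv_le hξ v l N
    simp only [kv, nsum, List.map_cons, List.sum_cons] at this ⊢
    rw [norm_lv hξ]
    linarith

theorem nsum_sq_le (v : ℕ → ℂ) : ∀ (keys : List Key),
    nsum v keys ^ 2 ≤ keys.length * nsum2 v keys
  | [] => by simp [nsum]
  | k :: l => by
    have ih := nsum_sq_le v l
    simp only [nsum, nsum2, List.map_cons, List.sum_cons, List.length_cons] at ih ⊢
    set a := ‖v k.1‖
    set S := (l.map fun k => ‖v k.1‖).sum with hS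
    set Q := (l.map fun k => ‖v k.1‖ ^ 2).sum with hQ
    push_cast
    set n : ℝ := (l.length : ℝ) with hn
    have hn0 : 0 ≤ n := Nat.cast_nonneg _
    have hQ0 : 0 ≤ Q := by
      rw [hQ]
      apply List.sum_nonneg
      intro x hx
      simp only [List.mem_map] at hx
      obtain ⟨k, _, rfl⟩ := hx
      positivity
    -- 2 a S ≤ n a^2 + Q
    have h1 : 2 * a * S ≤ n * a ^ 2 + Q := by
      rcases eq_or_lt_of_le hn0 with h0 | h0
      · have hl : l.length = 0 := by
          have : (l.length : ℝ) = 0 := by rw [← hn, ← h0]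
          exact_mod_cast this
        have : l = [] := List.length_eq_zero_iff.mp hl
        have hS0 : S = 0 := by rw [hS, this]; simp
        rw [hS0]; nlinarith [sq_nonneg a]
      · have h2 : S ^ 2 / n ≤ Q := by rw [div_le_iff₀ h0]; linarith
        have h3 : 2 * a * S ≤ n * a ^ 2 + S ^ 2 / n := by
          have : 0 ≤ (n * a - S) ^ 2 / n := by positivity
          have h4 : (n * a - S) ^ 2 / n = n * a ^ 2 - 2 * a * S + S ^ 2 / n := by
            field_simp
            ring
          linarith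
        linarith
    nlinarith

/-- the main soundness statement of the checker -/
theorem tsEval_small {env : ℕ → ℂ} {benv : ℕ → CB} (h : ∀ i, (benv i).Mem (env i))
    (keys : List Key) (ts : List Term) (E : ℕ) (hok : tsOk keys ts = true)
    (hs : triSmall E (tsTri opsB (ballO benv) keys ts) = true)
    {ξ : ℂ} (hξ : ‖ξ‖ = 1) (v : ℕ → ℂ) :
    |tsEval env ξ v ts| ≤ ((E : ℝ) / 2 ^ 60) * (keys.length * nsum2 v keys) := by
  rw [← triVal_tsTri env ξ v keys ts hok]
  obtain ⟨T, hT⟩ := abs_triVal_le E _ _ (kv ξ v keys) (nsum v keys) hs (tmem_tsTri h keys ts)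
    (sum_kv_le hξ v keys)
  refine hT.trans ?_
  have h1 := sum_kv_le hξ v keys T
  have h2 := nsum_sq_le v keys
  have h3 := nsum_nonneg v keys
  have hE : (0 : ℝ) ≤ (E : ℝ) / 2 ^ 60 := by positivity
  calc (E : ℝ) / 2 ^ 60 * nsum v keys * ∑ i ∈ Finset.range T, ‖kv ξ v keys i‖
      ≤ (E : ℝ) / 2 ^ 60 * nsum v keys * nsum v keys :=
        mul_le_mul_of_nonneg_left h1 (mul_nonneg hE h3)
    _ = (E : ℝ) / 2 ^ 60 * nsum v keys ^ 2 := by ring
    _ ≤ _ := mul_le_mul_of_nonneg_left h2 hE

/-! ### certificates -/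

def mono (k : Key) : LF := [(k, CE.lit 1 0 1)]

theorem LFeval_mono (env : ℕ → ℂ) (ξ : ℂ) (v : ℕ → ℂ) (k : Key) :
    LFeval env ξ v (mono k) = lv ξ v k := by
  simp [LFeval, mono, CE.eval]

/-- diagonal terms `- D / den * |v k|^2` -/
def diagTerms (den : ℕ) : List (Key × ℕ) → List Term
  | [] => []
  | p :: l => ⟨CE.lit (-(p.2 : ℤ)) 0 den, mono p.1, mono p.1⟩ :: diagTerms den l

noncomputable def diagVal (den : ℕ) (v : ℕ → ℂ) (l : List (Key × ℕ)) : ℝ :=
  (l.map fun p => (p.2 : ℝ) / den * ‖v p.1.1‖ ^ 2).sum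

theorem conj_mul_self_re (z : ℂ) : (starRingEnd ℂ) z * z = ((‖z‖ ^ 2 : ℝ) : ℂ) := by
  rw [mul_comm, Complex.mul_conj, Complex.normSq_eq_norm_sq]

theorem tsEval_diag (env : ℕ → ℂ) {ξ : ℂ} (hξ : ‖ξ‖ = 1) (v : ℕ → ℂ) (den : ℕ) :
    ∀ l : List (Key × ℕ), tsEval env ξ v (diagTerms den l) = - diagVal den v l
  | [] => by simp [diagTerms, tsEval, diagVal]
  | p :: l => by
    rw [diagTerms, tsEval_cons, tsEval_diag env hξ v den l]
    simp only [Term.eval, LFeval_mono, diagVal, List.map_cons, List.sum_cons, CE.eval]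
    rw [mul_assoc, conj_mul_self_re, norm_lv hξ]
    have : (((-(p.2 : ℤ) : ℤ) : ℂ) + ((0 : ℤ) : ℂ) * I) / (den : ℂ) * ((‖v p.1.1‖ ^ 2 : ℝ) : ℂ)
        = ((-((p.2 : ℝ) / den * ‖v p.1.1‖ ^ 2) : ℝ) : ℂ) := by
      push_cast; ring
    rw [this, Complex.ofReal_re]
    ring

/-- null forms: `Re z (conj u_a u_b - conj u_c u_d)` -/
structure NullT where
  a : Key
  b : Key
  c : Key
  d : Key
  re : Int
  im : Int

def nullTerms (den : ℕ) : List NullT → List Term
  | [] => []
  | t :: l => ⟨CE.lit t.re t.im den, mono t.a, mono t.b⟩ ::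
      ⟨CE.lit (-t.re) (-t.im) den, mono t.c, mono t.d⟩ :: nullTerms den l

def nullOk : List NullT → Bool
  | [] => true
  | t :: l => (t.a.1 == t.c.1 && (t.b.1 == t.d.1 && (t.b.2 + t.c.2 == t.d.2 + t.a.2))) && nullOk l

theorem null_aux {ξ : ℂ} (hξ : ‖ξ‖ = 1) (x y : ℂ) {a b c d : ℕ} (h : b + c = d + a) :
    (starRingEnd ℂ) (ξ ^ a * x) * (ξ ^ b * y) = (starRingEnd ℂ) (ξ ^ c * x) * (ξ ^ d * y) := by
  have hx : (starRingEnd ℂ) ξ * ξ = 1 := by
    rw [conj_mul_self_re, hξ]; simp
  have hne : ξ ≠ 0 := by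
    intro h0; rw [h0] at hξ; simp at hξ
  have hc : (starRingEnd ℂ) ξ = ξ⁻¹ := eq_inv_of_mul_eq_one_left hx
  simp only [map_mul, map_pow, hc]
  have e : ξ⁻¹ ^ a * ξ ^ b = ξ⁻¹ ^ c * ξ ^ d := by
    rw [inv_pow, inv_pow]
    field_simp
    rw [← pow_add, ← pow_add, add_comm a d, ← h, add_comm]
  linear_combination (starRingEnd ℂ) x * y * e

theorem tsEval_null (env : ℕ → ℂ) {ξ : ℂ} (hξ : ‖ξ‖ = 1) (v : ℕ → ℂ) (den : ℕ) :
    ∀ l : List NullT, nullOk l = true → tsEval env ξ v (nullTerms den l) = 0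
  | [], _ => by simp [nullTerms, tsEval]
  | t :: l, h => by
    simp only [nullOk, Bool.and_eq_true, beq_iff_eq] at h
    obtain ⟨⟨h1, h2, h3⟩, h4⟩ := h
    rw [nullTerms, tsEval_cons, tsEval_cons, tsEval_null env hξ v den l h4]
    simp only [Term.eval, LFeval_mono, CE.eval, lv]
    have e := null_aux hξ (v t.a.1) (v t.b.1) h3
    rw [← h1, ← h2]
    rw [mul_assoc, mul_assoc, e, add_zero, ← Complex.add_re]
    have : ((t.re : ℂ) + (t.im : ℂ) * I) / (den : ℂ) *
          ((starRingEnd ℂ) (ξ ^ t.c.2 * v t.a.1) * (ξ ^ t.d.2 * v t.b.1)) +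
        (((-t.re : ℤ) : ℂ) + ((-t.im : ℤ) : ℂ) * I) / (den : ℂ) *
          ((starRingEnd ℂ) (ξ ^ t.c.2 * v t.a.1) * (ξ ^ t.d.2 * v t.b.1)) = 0 := by
      push_cast; ring
    rw [this]; simp

/-- sum of squares terms, entering with a minus sign -/
def sqTerms : List LF → List Term
  | [] => []
  | L :: l => ⟨CE.lit (-1) 0 1, L, L⟩ :: sqTerms l

theorem tsEval_sq (env : ℕ → ℂ) (ξ : ℂ) (v : ℕ → ℂ) :
    ∀ l : List LF, tsEval env ξ v (sqTerms l) ≤ 0
  | [] => by simp [sqTerms, tsEval]
  | L :: l => by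
    rw [sqTerms, tsEval_cons]
    have := tsEval_sq env ξ v l
    have h1 : Term.eval env ξ v ⟨CE.lit (-1) 0 1, L, L⟩ = -‖LFeval env ξ v L‖ ^ 2 := by
      simp only [Term.eval, CE.eval]
      rw [mul_assoc, conj_mul_self_re]
      have : (((-1 : ℤ) : ℂ) + ((0 : ℤ) : ℂ) * I) / ((1 : ℕ) : ℂ) * ((‖LFeval env ξ v L‖ ^ 2 : ℝ) : ℂ)
          = ((-‖LFeval env ξ v L‖ ^ 2 : ℝ) : ℂ) := by
        push_cast; ring
      rw [this, Complex.ofReal_re]
    rw [h1]
    nlinarith [sq_nonneg ‖LFeval env ξ v L‖]

/-- full certificate -/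
structure Cert where
  keys : List Key
  den : ℕ
  diag : List (Key × ℕ)
  nulls : List NullT
  sqs : List LF
  E : ℕ

def Cert.terms (C : Cert) (G : List Term) : List Term :=
  G ++ (diagTerms C.den C.diag ++ (nullTerms C.den C.nulls ++ sqTerms C.sqs))

def Cert.check (C : Cert) (benv : ℕ → CB) (G : List Term) : Bool :=
  nullOk C.nulls && (tsOk C.keys (C.terms G) &&
    triSmall C.E (tsTri opsB (ballO benv) C.keys (C.terms G)))

theorem Cert.sound (C : Cert) {env : ℕ → ℂ} {benv : ℕ → CB} (h : ∀ i, (benv i).Mem (env i))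
    (G : List Term) (hc : C.check benv G = true) {ξ : ℂ} (hξ : ‖ξ‖ = 1) (v : ℕ → ℂ) :
    diagVal C.den v C.diag - ((C.E : ℝ) / 2 ^ 60) * (C.keys.length * nsum2 v C.keys)
      ≤ tsEval env ξ v G := by
  simp only [Cert.check, Bool.and_eq_true] at hc
  obtain ⟨h1, h2, h3⟩ := hc
  have h4 := tsEval_small h C.keys (C.terms G) C.E h2 h3 hξ v
  have h5 : tsEval env ξ v (C.terms G) = tsEval env ξ v G - diagVal C.den v C.diag
      + tsEval env ξ v (sqTerms C.sqs) := by
    simp only [Cert.terms, tsEval_append, tsEval_diag env hξ, tsEval_null env hξ v _ _ h1]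
    ring
  have h6 := tsEval_sq env ξ v C.sqs
  have h7 := (abs_le.mp h4).1
  linarith

end Pool.Agent.H81.W
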