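import Pool.Agent.H81.W.MainLower

set_option autoImplicit false
set_option linter.unusedVariables false
set_option linter.unusedSimpArgs false

/-!
# The exact identity behind the Lyapunov form
-/

namespace Pool.Agent.H81.W

open Complex

/-- The properties of the constants that are used. -/
structure CData (al be chi : ℕ → ℂ) (κ : ℝ) : Prop where
  mem : ∀ i, (benvMain i).Mem (envOf al be chi κ i)
  al_tail : ∀ k, ‖al (k + 7)‖ ≤ (22 / 10 ^ 7 : ℝ) * (1 / 8) ^ k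
  be_tail : ∀ k, ‖be (k + 7)‖ ≤ (2 / 10 ^ 6 : ℝ) * (1 / 8) ^ k
  be_succ : ∀ k, be (k + 1) = be k - be 0 * al k
  sum_be : ∑' k, be (k + 1) = 1 - be 0
  sum_kbe : ∑' k, ((k + 1 : ℕ) : ℂ) * be (k + 1) = (κ : ℂ)
  chi_norm : ∀ k, ‖chi k‖ = 1

/-- growth at most `b^k` -/
def Gb (b : ℝ) (u : ℕ → ℂ) : Prop := ∃ M : ℝ, 0 ≤ M ∧ ∀ k, ‖u k‖ ≤ M * b ^ k

theorem Gb.mono {b b' : ℝ} {u : ℕ → ℂ} (hb : 0 ≤ b) (h : b ≤ b') (hu : Gb b u) : Gb b' u := by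
  obtain ⟨M, hM, hk⟩ := hu
  exact ⟨M, hM, fun k => (hk k).trans (mul_le_mul_of_nonneg_left (pow_le_pow_left₀ hb h k) hM)⟩

theorem Gb.add {b : ℝ} {u v : ℕ → ℂ} (hu : Gb b u) (hv : Gb b v) : Gb b (fun k => u k + v k) := by
  obtain ⟨M, hM, hk⟩ := hu
  obtain ⟨M', hM', hk'⟩ := hv
  refine ⟨M + M', add_nonneg hM hM', fun k => ?_⟩
  refine (norm_add_le _ _).trans ?_
  have := hk k
  have := hk' k
  linarith

theorem Gb.const_mul {b : ℝ} {u : ℕ → ℂ} (c : ℂ) (hu : Gb b u) : Gb b (fun k => c * u k) := by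
  obtain ⟨M, hM, hk⟩ := hu
  refine ⟨‖c‖ * M, by positivity, fun k => ?_⟩
  rw [norm_mul, mul_assoc]
  exact mul_le_mul_of_nonneg_left (hk k) (norm_nonneg _)

theorem Gb.neg {b : ℝ} {u : ℕ → ℂ} (hu : Gb b u) : Gb b (fun k => - u k) := by
  obtain ⟨M, hM, hk⟩ := hu
  exact ⟨M, hM, fun k => by rw [norm_neg]; exact hk k⟩

theorem Gb.sub {b : ℝ} {u v : ℕ → ℂ} (hu : Gb b u) (hv : Gb b v) : Gb b (fun k => u k - v k) := by
  simpa [sub_eq_add_neg] using hu.add hv.neg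

theorem Gb.const {b : ℝ} (hb : 1 ≤ b) (c : ℂ) : Gb b (fun _ => c) := by
  refine ⟨‖c‖, norm_nonneg _, fun k => ?_⟩
  have : 1 ≤ b ^ k := one_le_pow₀ hb
  nlinarith [norm_nonneg c]

theorem Gb.unim_mul {b : ℝ} {u c : ℕ → ℂ} (hc : ∀ k, ‖c k‖ ≤ 1) (hb : 0 ≤ b) (hu : Gb b u) :
    Gb b (fun k => c k * u k) := by
  obtain ⟨M, hM, hk⟩ := hu
  refine ⟨M, hM, fun k => ?_⟩
  rw [norm_mul]
  calc ‖c k‖ * ‖u k‖ ≤ 1 * ‖u k‖ := mul_le_mul_of_nonneg_right (hc k) (norm_nonneg _)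
    _ ≤ _ := by rw [one_mul]; exact hk k

theorem Gb.shift {b : ℝ} {u : ℕ → ℂ} (hb : 0 ≤ b) (hu : Gb b u) (n : ℕ) : Gb b (fun k => u (k + n)) := by
  obtain ⟨M, hM, hk⟩ := hu
  refine ⟨M * b ^ n, by positivity, fun k => ?_⟩
  have := hk (k + n)
  rw [pow_add] at this
  calc ‖u (k + n)‖ ≤ _ := this
    _ = _ := by ring

/-- summability from decay -/
theorem summ {f u : ℕ → ℂ} {b : ℝ} (hf : ∀ k, ‖f (k + 7)‖ ≤ b * (1 / 8) ^ k) (hb : 0 ≤ b)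
    (hu : Gb 4 u) : Summable (fun k => f k * u k) := by
  obtain ⟨M, hM, hk⟩ := hu
  rw [← summable_nat_add_iff 7]
  refine Summable.of_norm_bounded (g := fun k => (b * M * 4 ^ 7) * (1 / 2 : ℝ) ^ k) ?_ ?_
  · exact (summable_geometric_of_lt_one (by norm_num) (by norm_num)).mul_left _
  · intro k
    rw [norm_mul]
    have h1 := hf k
    have h2 := hk (k + 7)
    calc ‖f (k + 7)‖ * ‖u (k + 7)‖ ≤ (b * (1 / 8) ^ k) * (M * 4 ^ (k + 7)) :=
          mul_le_mul h1 h2 (norm_nonneg _) (by positivity)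
      _ = (b * M * 4 ^ 7) * ((1 / 8) * 4) ^ k := by rw [mul_pow, pow_add]; ring
      _ = _ := by norm_num

theorem Gb_nat : Gb 4 (fun k => ((k + 1 : ℕ) : ℂ)) := by
  refine ⟨1, by norm_num, fun k => ?_⟩
  rw [Complex.norm_natCast, one_mul]
  have h : k + 1 ≤ 2 ^ k := Nat.lt_two_pow_self
  have h2 : (2 : ℕ) ^ k ≤ 4 ^ k := Nat.pow_le_pow_left (by norm_num) k
  exact_mod_cast h.trans h2

theorem norm_PP_le {ξ : ℂ} (hξ : ‖ξ‖ = 1) (y : ℂ) (k : ℕ) : ‖PP ξ y k‖ ≤ k * ‖y‖ := by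
  unfold PP
  rw [norm_mul]
  refine mul_le_mul_of_nonneg_right ?_ (norm_nonneg _)
  refine (norm_sum_le _ _).trans ?_
  simp [hξ]

theorem norm_PP_sub_le {ξ : ℂ} (hξ : ‖ξ‖ = 1) (y : ℂ) (k : ℕ) : ‖PP ξ y (k + 1) - y‖ ≤ k * ‖y‖ := by
  have : PP ξ y (k + 1) - y = ξ * PP ξ y k := by
    unfold PP
    rw [Finset.sum_range_succ']
    have : ∑ e ∈ Finset.range k, ξ ^ (e + 1) = ξ * ∑ e ∈ Finset.range k, ξ ^ e := by
      rw [Finset.mul_sum]; exact Finset.sum_congr rfl fun e _ => by ring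
    rw [this]; ring
  rw [this, norm_mul, hξ, one_mul]
  exact norm_PP_le hξ y k

theorem norm_QQ_le {ξ : ℂ} (hξ : ‖ξ‖ = 1) (y : ℂ) (k : ℕ) : ‖QQ ξ y k‖ ≤ (k : ℝ) ^ 2 / 2 * ‖y‖ := by
  unfold QQ
  induction k with
  | zero => simp
  | succ k ih =>
    rw [Finset.sum_range_succ]
    refine (norm_add_le _ _).trans ?_
    have h1 := norm_PP_sub_le hξ y k
    have h2 : ((k : ℝ) ^ 2 / 2 + k) * ‖y‖ ≤ (((k + 1 : ℕ) : ℝ)) ^ 2 / 2 * ‖y‖ := by
      refine mul_le_mul_of_nonneg_right ?_ (norm_nonneg _)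
      push_cast; nlinarith
    linarith

theorem Gb_PP {ξ : ℂ} (hξ : ‖ξ‖ = 1) (y : ℂ) : Gb (3 / 2) (fun k => PP ξ y k) := by
  refine ⟨2 * ‖y‖, by positivity, fun k => ?_⟩
  refine (norm_PP_le hξ y k).trans ?_
  have h := one_add_mul_le_pow (a := (1 / 2 : ℝ)) (by norm_num) k
  have h2 : (k : ℝ) ≤ 2 * (3 / 2) ^ k := by
    have : (1 + 1 / 2 : ℝ) = 3 / 2 := by norm_num
    rw [this] at h
    linarith
  calc (k : ℝ) * ‖y‖ ≤ (2 * (3 / 2) ^ k) * ‖y‖ := mul_le_mul_of_nonneg_right h2 (norm_nonneg _)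
    _ = _ := by ring

theorem Gb_QQ {ξ : ℂ} (hξ : ‖ξ‖ = 1) (y : ℂ) : Gb 4 (fun k => QQ ξ y k) := by
  refine ⟨‖y‖, by positivity, fun k => ?_⟩
  refine (norm_QQ_le hξ y k).trans ?_
  have h : (k : ℝ) ≤ 2 ^ k := by exact_mod_cast (Nat.lt_two_pow_self).le
  have h2 : (k : ℝ) ^ 2 ≤ 4 ^ k := by
    calc (k : ℝ) ^ 2 ≤ (2 ^ k) ^ 2 := pow_le_pow_left₀ (Nat.cast_nonneg k) h 2
      _ = 4 ^ k := by rw [← pow_mul, mul_comm, pow_mul]; norm_num
  have h3 : (k : ℝ) ^ 2 / 2 ≤ 4 ^ k := by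
    have : 0 ≤ (k : ℝ) ^ 2 := sq_nonneg _
    linarith
  calc (k : ℝ) ^ 2 / 2 * ‖y‖ ≤ 4 ^ k * ‖y‖ := mul_le_mul_of_nonneg_right h3 (norm_nonneg _)
    _ = _ := by ring

theorem PP_eq (ξ σ : ℂ) (k : ℕ) : PP ξ ((ξ - 1) * σ) k = (ξ ^ k - 1) * σ := by
  unfold PP
  rw [← mul_assoc, geom_sum_mul]

section ident
variable {al be chi : ℕ → ℂ} {κ : ℝ} (C : CData al be chi κ)
include C

theorem CData.be_tail1 (k : ℕ) : ‖be (k + 7 + 1)‖ ≤ (2 / 10 ^ 6 : ℝ) * (1 / 8) ^ k := by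
  have := C.be_tail (k + 1)
  rw [show k + 7 + 1 = k + 1 + 7 by ring]
  refine this.trans ?_
  have h8 : (0 : ℝ) ≤ (1 / 8) ^ k := by positivity
  have h9 : ((1 : ℝ) / 8) ^ (k + 1) = (1 / 8) ^ k * (1 / 8) := pow_succ _ _
  rw [h9]
  linarith

theorem CData.summ_al {u : ℕ → ℂ} (hu : Gb 4 u) : Summable (fun k => al k * u k) :=
  summ C.al_tail (by norm_num) hu

theorem CData.summ_be {u : ℕ → ℂ} (hu : Gb 4 u) : Summable (fun k => be k * u k) :=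
  summ C.be_tail (by norm_num) hu

theorem CData.summ_be1 {u : ℕ → ℂ} (hu : Gb 4 u) : Summable (fun k => be (k + 1) * u k) :=
  summ (f := fun k => be (k + 1)) (fun k => C.be_tail1 k) (by norm_num) hu

theorem F_identity {ξ : ℂ} (hξ : ‖ξ‖ = 1) (σ : ℂ) {τ : ℕ → ℂ} (h0 : τ 0 = 0) (hτ : Gb 4 τ)
    (A y : ℂ) (hA : A = ∑' k, al k * τ k) (hy : y = (ξ - 1) * σ) :
    ‖σ‖ ^ 2 + 2 * ((starRingEnd ℂ) σ * ∑' k, be (k + 1) * τ (k + 1)).re - ‖σ + A‖ ^ 2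
      - 2 * ((starRingEnd ℂ) (σ + A) * ∑' k, be (k + 1) * TP ξ y A τ (k + 1)).re
    = (1 - 2 * (be 0).re) * ‖A‖ ^ 2
      + 2 * (∑' k, be (k + 1) * (starRingEnd ℂ) (PP ξ y (k + 1) - A) * (ξ ^ (k + 1) * τ k)).re
      - 2 * (∑' k, be (k + 1) * (starRingEnd ℂ) A * PP ξ y (k + 1)).re
      + κ * ‖y‖ ^ 2
      + 2 * (∑' k, be (k + 1) * (starRingEnd ℂ) y * QQ ξ y (k + 1)).re := by
  have hξx : (starRingEnd ℂ) ξ * ξ = 1 := by rw [conj_mul_self_re, hξ]; simp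
  -- growth facts
  have gP : Gb 4 (fun k => PP ξ y (k + 1)) :=
    ((Gb_PP hξ y).mono (by norm_num) (by norm_num)).shift (by norm_num) 1
  have gQ : Gb 4 (fun k => QQ ξ y (k + 1)) := (Gb_QQ hξ y).shift (by norm_num) 1
  have gξτ : Gb 4 (fun k => ξ ^ (k + 1) * τ k) :=
    hτ.unim_mul (fun k => by simp [hξ]) (by norm_num)
  -- basic sums
  set L1 := ∑' k, be (k + 1) * τ k with hL1
  set R := ∑' k, be (k + 1) * (ξ ^ (k + 1) * τ k) with hR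
  set V1 := ∑' k, be (k + 1) * PP ξ y (k + 1) with hV1
  have sL1 := C.summ_be1 hτ
  have sR := C.summ_be1 gξτ
  have sV := C.summ_be1 gP
  have sB : Summable (fun k => be (k + 1)) := by
    have := C.summ_be1 (Gb.const (b := 4) (by norm_num) 1)
    simpa using this
  have sA := C.summ_al hτ
  have sK : Summable (fun k => ((k + 1 : ℕ) : ℂ) * be (k + 1)) := by
    have := C.summ_be1 Gb_nat
    simpa [mul_comm] using this
  -- I2
  have I2 : ∑' k, be (k + 1) * τ (k + 1) = L1 + be 0 * A := by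
    have s := C.summ_be hτ
    have h1 := s.tsum_eq_zero_add
    rw [h0, mul_zero, zero_add] at h1
    rw [← h1]
    have h2 : ∀ k, be k * τ k = be (k + 1) * τ k + be 0 * (al k * τ k) := by
      intro k; rw [C.be_succ k]; ring
    rw [tsum_congr h2, sL1.tsum_add (sA.mul_left (be 0)), tsum_mul_left, ← hA]
  -- I1
  have I1 : ∑' k, be (k + 1) * TP ξ y A τ (k + 1) = R + V1 - (1 - be 0) * A := by
    have h2 : ∀ k, be (k + 1) * TP ξ y A τ (k + 1)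
        = (be (k + 1) * (ξ ^ (k + 1) * τ k) + be (k + 1) * PP ξ y (k + 1)) - be (k + 1) * A := by
      intro k; unfold TP; rw [Nat.add_sub_cancel]; ring
    rw [tsum_congr h2, (sR.add sV).tsum_sub (sB.mul_right A), sR.tsum_add sV, tsum_mul_right, C.sum_be]
  -- cross term
  have I4 : ∑' k, be (k + 1) * (starRingEnd ℂ) (PP ξ y (k + 1) - A) * (ξ ^ (k + 1) * τ k)
      = (starRingEnd ℂ) σ * (L1 - R) - (starRingEnd ℂ) A * R := by
    have h2 : ∀ k, be (k + 1) * (starRingEnd ℂ) (PP ξ y (k + 1) - A) * (ξ ^ (k + 1) * τ k)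
        = ((starRingEnd ℂ) σ * (be (k + 1) * τ k - be (k + 1) * (ξ ^ (k + 1) * τ k)))
          - (starRingEnd ℂ) A * (be (k + 1) * (ξ ^ (k + 1) * τ k)) := by
      intro k
      rw [hy, PP_eq]
      have h3 : (starRingEnd ℂ) ξ ^ (k + 1) * ξ ^ (k + 1) = 1 := by rw [← mul_pow, hξx, one_pow]
      simp only [map_sub, map_mul, map_pow, map_one]
      linear_combination (be (k + 1) * (starRingEnd ℂ) σ * τ k) * h3
    rw [tsum_congr h2, ((sL1.sub sR).mul_left ((starRingEnd ℂ) σ)).tsum_sub (sR.mul_left ((starRingEnd ℂ) A)),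
      tsum_mul_left, tsum_mul_left, sL1.tsum_sub sR]
  have I5 : ∑' k, be (k + 1) * (starRingEnd ℂ) A * PP ξ y (k + 1) = (starRingEnd ℂ) A * V1 := by
    rw [← tsum_mul_left]
    exact tsum_congr fun k => by ring
  -- QQ identity
  have hQ : ∀ k : ℕ, (starRingEnd ℂ) y * QQ ξ y k = (starRingEnd ℂ) σ * σ * ((1 - ξ ^ k) - k * (1 - ξ)) := by
    intro k
    induction k with
    | zero => simp [QQ]
    | succ k ih =>
      have : QQ ξ y (k + 1) = QQ ξ y k + (PP ξ y (k + 1) - y) := by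
        unfold QQ; rw [Finset.sum_range_succ]
      rw [this, mul_add, ih, hy, PP_eq]
      simp only [map_sub, map_mul, map_one]
      push_cast
      linear_combination ((starRingEnd ℂ) σ * σ * (ξ ^ k - 1)) * hξx
  have I6 : ∑' k, be (k + 1) * (starRingEnd ℂ) y * QQ ξ y (k + 1)
      = - ((starRingEnd ℂ) σ * V1) - (κ : ℂ) * ((1 - ξ) * ((starRingEnd ℂ) σ * σ)) := by
    have h2 : ∀ k, be (k + 1) * (starRingEnd ℂ) y * QQ ξ y (k + 1)
        = - ((starRingEnd ℂ) σ * (be (k + 1) * PP ξ y (k + 1)))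
          - (((k + 1 : ℕ) : ℂ) * be (k + 1)) * ((1 - ξ) * ((starRingEnd ℂ) σ * σ)) := by
      intro k
      rw [mul_assoc, hQ (k + 1)]
      have : PP ξ y (k + 1) = (ξ ^ (k + 1) - 1) * σ := by rw [hy, PP_eq]
      rw [this]
      ring
    rw [tsum_congr h2, ((sV.mul_left ((starRingEnd ℂ) σ)).neg).tsum_sub (sK.mul_right _), tsum_neg,
      tsum_mul_left, tsum_mul_right, C.sum_kbe]
  rw [I2, I1, I4, I5, I6]
  have hyn : ‖y‖ ^ 2 = (2 - 2 * ξ.re) * ‖σ‖ ^ 2 := by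
    rw [hy, norm_mul, mul_pow]
    congr 1
    rw [← Complex.normSq_eq_norm_sq, Complex.normSq_sub, Complex.normSq_one,
      Complex.normSq_eq_norm_sq, hξ]
    simp
    ring
  have hσ : (starRingEnd ℂ) σ * σ = ((‖σ‖ ^ 2 : ℝ) : ℂ) := conj_mul_self_re σ
  rw [hyn, hσ]
  have e1 : ((κ : ℂ) * ((1 - ξ) * ((‖σ‖ ^ 2 : ℝ) : ℂ))).re = κ * ((1 - ξ.re) * ‖σ‖ ^ 2) := by
    rw [Complex.re_ofReal_mul, mul_comm (1 - ξ), Complex.re_ofReal_mul, Complex.sub_re,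
      Complex.one_re]
    ring
  have nA : ‖A‖ ^ 2 = A.re ^ 2 + A.im ^ 2 := by
    rw [← Complex.normSq_eq_norm_sq, Complex.normSq_apply]; ring
  have nσ : ‖σ‖ ^ 2 = σ.re ^ 2 + σ.im ^ 2 := by
    rw [← Complex.normSq_eq_norm_sq, Complex.normSq_apply]; ring
  have nσA : ‖σ + A‖ ^ 2 = (σ.re + A.re) ^ 2 + (σ.im + A.im) ^ 2 := by
    rw [← Complex.normSq_eq_norm_sq, Complex.normSq_apply]; simp; ring
  simp only [Complex.sub_re, Complex.neg_re, e1]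
  rw [nσA, nA, nσ]
  simp only [map_add, Complex.add_re, Complex.add_im, Complex.mul_re, Complex.mul_im, Complex.conj_re,
    Complex.conj_im, Complex.sub_re, Complex.sub_im, Complex.one_re, Complex.one_im]
  ring

end ident

end Pool.Agent.H81.W
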