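import Pool.Agent.H81.W.Tail

set_option autoImplicit false
set_option linter.unusedVariables false
set_option linter.unusedSimpArgs false

/-!
# The key inequality in `σ, τ` coordinates
-/

namespace Pool.Agent.H81.W

open Complex

/-- the `τ`-part of the form -/
noncomputable def Nt (f : ℕ → ℂ) : ℝ :=
  Nt6 f + c7 * ∑' k : ℕ, ((1 : ℝ) / 4) ^ k * ‖f (k + 7)‖ ^ 2

/-- the full form in `σ, τ` coordinates -/
noncomputable def Nst (be : ℕ → ℂ) (σ : ℂ) (τ : ℕ → ℂ) : ℝ :=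
  ‖σ‖ ^ 2 + 2 * ((starRingEnd ℂ) σ * ∑' k, be (k + 1) * τ (k + 1)).re + Nt τ

theorem re_herm_smul (c e a b : ℂ) :
    (e * (starRingEnd ℂ) (c * a) * (c * b)).re = ‖c‖ ^ 2 * (e * (starRingEnd ℂ) a * b).re := by
  have h : e * (starRingEnd ℂ) (c * a) * (c * b) = ((‖c‖ ^ 2 : ℝ) : ℂ) * (e * (starRingEnd ℂ) a * b) := by
    rw [← conj_mul_self_re, map_mul]; ring
  rw [h, Complex.re_ofReal_mul]

theorem Nt6_smul (c : ℂ) (f : ℕ → ℂ) : Nt6 (fun k => c * f k) = ‖c‖ ^ 2 * Nt6 f := by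
  unfold Nt6
  simp only [re_herm_smul, norm_mul, mul_pow]
  ring

theorem Nt_smul (c : ℂ) (f : ℕ → ℂ) : Nt (fun k => c * f k) = ‖c‖ ^ 2 * Nt f := by
  unfold Nt
  rw [Nt6_smul]
  have : ∀ k : ℕ, ((1 : ℝ) / 4) ^ k * ‖c * f (k + 7)‖ ^ 2
      = ‖c‖ ^ 2 * (((1 : ℝ) / 4) ^ k * ‖f (k + 7)‖ ^ 2) := by
    intro k; rw [norm_mul, mul_pow]; ring
  rw [tsum_congr this, tsum_mul_left]
  ring

theorem al_bound {al be chi : ℕ → ℂ} {κ : ℝ} (C : CData al be chi κ) (y : ℂ) (τ : ℕ → ℂ) (η : ℂ) :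
    ∀ j, 1 ≤ j → j ≤ 6 → ‖al j * τ j‖ ≤ 6 / 10 * ‖vOf y τ η j‖ := by
  intro j h1 h2
  have hr := vOf_tau y τ η h1 h2
  have hτ : τ j = (r2 j : ℂ) / 2 * vOf y τ η j := by linear_combination -hr / 2
  have key : ‖al j‖ * (‖(r2 j : ℂ)‖ / 2) ≤ 6 / 10 := by
    have hm := CB.norm_le_up (C.mem j)
    interval_cases j
    · have e : envOf al be chi κ 1 = al 1 := rfl
      rw [e] at hm
      have hu : (benvMain 1).up ≤ 2 ^ 60 * 38 / 100 := by decide +kernel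
      have hu' : ((benvMain 1).up : ℝ) ≤ 2 ^ 60 * (38 / 100) := by
        have : ((benvMain 1).up : ℝ) ≤ ((2 ^ 60 * 38 / 100 : ℕ) : ℝ) := by exact_mod_cast hu
        refine this.trans ?_
        norm_num
      have hr : ‖((r2 1 : ℤ) : ℂ)‖ = 3 := by simp [r2]
      rw [hr]
      have : ‖al 1‖ ≤ 38 / 100 := by linarith
      linarith
    · have e : envOf al be chi κ 2 = al 2 := rfl
      rw [e] at hm
      have hu : (benvMain 2).up ≤ 2 ^ 60 * 10 / 100 := by decide +kernel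
      have hu' : ((benvMain 2).up : ℝ) ≤ 2 ^ 60 * (10 / 100) := by
        have : ((benvMain 2).up : ℝ) ≤ ((2 ^ 60 * 10 / 100 : ℕ) : ℝ) := by exact_mod_cast hu
        refine this.trans ?_
        norm_num
      have hr : ‖((r2 2 : ℤ) : ℂ)‖ = 5 := by simp [r2]
      rw [hr]
      have : ‖al 2‖ ≤ 10 / 100 := by linarith
      linarith
    · have e : envOf al be chi κ 3 = al 3 := rfl
      rw [e] at hm
      have hu : (benvMain 3).up ≤ 2 ^ 60 * 2 / 100 := by decide +kernel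
      have hu' : ((benvMain 3).up : ℝ) ≤ 2 ^ 60 * (2 / 100) := by
        have : ((benvMain 3).up : ℝ) ≤ ((2 ^ 60 * 2 / 100 : ℕ) : ℝ) := by exact_mod_cast hu
        refine this.trans ?_
        norm_num
      have hr : ‖((r2 3 : ℤ) : ℂ)‖ = 10 := by simp [r2]
      rw [hr]
      have : ‖al 3‖ ≤ 2 / 100 := by linarith
      linarith
    · have e : envOf al be chi κ 4 = al 4 := rfl
      rw [e] at hm
      have hu : (benvMain 4).up ≤ 2 ^ 60 * 1 / 100 := by decide +kernel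
      have hu' : ((benvMain 4).up : ℝ) ≤ 2 ^ 60 * (1 / 100) := by
        have : ((benvMain 4).up : ℝ) ≤ ((2 ^ 60 * 1 / 100 : ℕ) : ℝ) := by exact_mod_cast hu
        refine this.trans ?_
        norm_num
      have hr : ‖((r2 4 : ℤ) : ℂ)‖ = 22 := by simp [r2]
      rw [hr]
      have : ‖al 4‖ ≤ 1 / 100 := by linarith
      linarith
    · have e : envOf al be chi κ 5 = al 5 := rfl
      rw [e] at hm
      have hu : (benvMain 5).up ≤ 2 ^ 60 * 1 / 1000 := by decide +kernel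
      have hu' : ((benvMain 5).up : ℝ) ≤ 2 ^ 60 * (1 / 1000) := by
        have : ((benvMain 5).up : ℝ) ≤ ((2 ^ 60 * 1 / 1000 : ℕ) : ℝ) := by exact_mod_cast hu
        refine this.trans ?_
        norm_num
      have hr : ‖((r2 5 : ℤ) : ℂ)‖ = 54 := by simp [r2]
      rw [hr]
      have : ‖al 5‖ ≤ 1 / 1000 := by linarith
      linarith
    · have e : envOf al be chi κ 6 = al 6 := rfl
      rw [e] at hm
      have hu : (benvMain 6).up ≤ 2 ^ 60 * 1 / 1000 := by decide +kernel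
      have hu' : ((benvMain 6).up : ℝ) ≤ 2 ^ 60 * (1 / 1000) := by
        have : ((benvMain 6).up : ℝ) ≤ ((2 ^ 60 * 1 / 1000 : ℕ) : ℝ) := by exact_mod_cast hu
        refine this.trans ?_
        norm_num
      have hr : ‖((r2 6 : ℤ) : ℂ)‖ = 142 := by simp [r2]
      rw [hr]
      have : ‖al 6‖ ≤ 1 / 1000 := by linarith
      linarith
  rw [hτ, norm_mul, norm_mul, norm_div]
  have h2n : ‖(2 : ℂ)‖ = 2 := by simp
  rw [h2n]
  calc ‖al j‖ * (‖(r2 j : ℂ)‖ / 2 * ‖vOf y τ η j‖)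
      = (‖al j‖ * (‖(r2 j : ℂ)‖ / 2)) * ‖vOf y τ η j‖ := by ring
    _ ≤ _ := mul_le_mul_of_nonneg_right key (norm_nonneg _)

theorem sum6_sq (x1 x2 x3 x4 x5 x6 : ℝ) : (x1 + x2 + x3 + x4 + x5 + x6) ^ 2
    ≤ 6 * (x1 ^ 2 + x2 ^ 2 + x3 ^ 2 + x4 ^ 2 + x5 ^ 2 + x6 ^ 2) := by
  linarith [sq_nonneg (x1 - x2), sq_nonneg (x1 - x3), sq_nonneg (x1 - x4), sq_nonneg (x1 - x5),
        sq_nonneg (x1 - x6), sq_nonneg (x2 - x3), sq_nonneg (x2 - x4), sq_nonneg (x2 - x5),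
        sq_nonneg (x2 - x6), sq_nonneg (x3 - x4), sq_nonneg (x3 - x5), sq_nonneg (x3 - x6),
        sq_nonneg (x4 - x5), sq_nonneg (x4 - x6), sq_nonneg (x5 - x6)]

theorem two_sq (a b : ℝ) : (a + b) ^ 2 ≤ 2 * a ^ 2 + 2 * b ^ 2 := by
  nlinarith [sq_nonneg (a - b)]

theorem key_ineq {al be chi : ℕ → ℂ} {κ : ℝ} (C : CData al be chi κ) {ξ : ℂ} (hξ : ‖ξ‖ = 1)
    (σ : ℂ) {τ : ℕ → ℂ} (h0 : τ 0 = 0) (hτ : Gb (3 / 2) τ) :
    Nst be (σ + ∑' k, al k * τ k) (TP ξ ((ξ - 1) * σ) (∑' k, al k * τ k) τ)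
      ≤ (1 - ‖(ξ ^ 2 - 1) / 2‖ ^ 2) * Nst be σ τ
        + ‖(ξ ^ 2 - 1) / 2‖ ^ 2 *
          Nst be ((starRingEnd ℂ) σ) (fun k => (starRingEnd ℂ) ((starRingEnd ℂ) (chi k) * τ k + ((starRingEnd ℂ) (chi k) - 1) * σ)) := by
  have hτ4 : Gb 4 τ := hτ.mono (by norm_num) (by norm_num)
  set A := ∑' k, al k * τ k with hA
  set y := (ξ - 1) * σ with hy
  set g := (ξ ^ 2 - 1) / 2 with hg
  have hF := F_identity C hξ σ h0 hτ4 A y hA hy
  -- abbreviations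
  set η := ∑' k : ℕ, al (k + 7) * τ (k + 7) with hη
  have sA := C.summ_al hτ4
  have hAof : A = Aof al τ η := by
    rw [hA, ← sA.sum_add_tsum_nat_add 7]
    simp only [Finset.sum_range_succ, Finset.sum_range_zero, h0, mul_zero, Aof, zero_add, hη]
  -- growth
  have gTP := Gb_TP hξ y A hτ
  have gTT : Gb (3 / 2) (TT ξ τ) := Gb_TT hτ
  have gVV : Gb (3 / 2) (VV chi ξ y τ) := Gb_VV (ξ := ξ) C y hτ
  have gP : Gb 4 (fun k => PP ξ y (k + 1)) :=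
    ((Gb_PP hξ y).mono (by norm_num) (by norm_num)).shift (by norm_num) 1
  have gQ : Gb 4 (fun k => QQ ξ y (k + 1)) := (Gb_QQ hξ y).shift (by norm_num) 1
  have gξτ : Gb 4 (fun k => ξ ^ (k + 1) * τ k) :=
    hτ4.unim_mul (fun k => by simp [hξ]) (by norm_num)
  have hξx : (starRingEnd ℂ) ξ * ξ = 1 := by rw [conj_mul_self_re, hξ]; simp
  -- summability of the five series
  have s2 : Summable (fun k => be (k + 1) * (starRingEnd ℂ) (PP ξ y (k + 1) - A) * (ξ ^ (k + 1) * τ k)) := by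
    have a1 := (C.summ_be1 hτ4).mul_left ((starRingEnd ℂ) σ)
    have a2 := (C.summ_be1 gξτ).mul_left ((starRingEnd ℂ) σ)
    have a3 := (C.summ_be1 gξτ).mul_left ((starRingEnd ℂ) A)
    refine ((a1.sub a2).sub a3).congr fun k => ?_
    rw [hy, PP_eq]
    have h3 : (starRingEnd ℂ) ξ ^ (k + 1) * ξ ^ (k + 1) = 1 := by rw [← mul_pow, hξx, one_pow]
    simp only [map_sub, map_mul, map_pow, map_one]
    linear_combination -(be (k + 1) * (starRingEnd ℂ) σ * τ k) * h3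
  have s3 : Summable (fun k => be (k + 1) * (starRingEnd ℂ) A * PP ξ y (k + 1)) :=
    ((C.summ_be1 gP).mul_left ((starRingEnd ℂ) A)).congr fun k => by ring
  have s4 : Summable (fun k => be (k + 1) * (starRingEnd ℂ) y * QQ ξ y (k + 1)) :=
    ((C.summ_be1 gQ).mul_left ((starRingEnd ℂ) y)).congr fun k => by ring
  have sbT : Summable (fun k => be (k + 1) * TT ξ τ (k + 1)) :=
    C.summ_be1 ((gTT.mono (by norm_num) (by norm_num)).shift (by norm_num) 1)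
  have sbv : Summable (fun k => be (k + 1) * (starRingEnd ℂ) (VV chi ξ y τ (k + 1))) := by
    have g1 : Gb (3 / 2) (fun k => (starRingEnd ℂ) (VV chi ξ y τ k)) := by
      obtain ⟨M, hM, hk⟩ := gVV
      exact ⟨M, hM, fun k => by rw [RCLike.norm_conj]; exact hk k⟩
    exact C.summ_be1 ((g1.mono (by norm_num) (by norm_num)).shift (by norm_num) 1)
  have s5 : Summable (fun k => be (k + 1) * (starRingEnd ℂ) (YY ξ y) * TT ξ τ (k + 1)) :=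
    (sbT.mul_left ((starRingEnd ℂ) (YY ξ y))).congr fun k => by ring
  have s6 : Summable (fun k => (starRingEnd ℂ) (be (k + 1)) * (starRingEnd ℂ) (YY ξ y) * VV chi ξ y τ (k + 1)) := by
    have a1 := (Complex.conjCLE.summable.mpr sbv).mul_left ((starRingEnd ℂ) (YY ξ y))
    refine a1.congr fun k => ?_
    simp only [Complex.conjCLE_apply, map_mul, Complex.conj_conj]
    ring
  -- splittings
  have d2 := (s2.sum_add_tsum_nat_add 7).symm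
  have d3 := (s3.sum_add_tsum_nat_add 7).symm
  have d4 := (s4.sum_add_tsum_nat_add 7).symm
  have d5 := (s5.sum_add_tsum_nat_add 6).symm
  have d6 := (s6.sum_add_tsum_nat_add 6).symm
  -- the `ς` part
  have hYg : YY ξ y = g * σ := by rw [hy, hg]; unfold YY; ring
  have hVg : ∀ k, VV chi ξ y τ k = g * ((starRingEnd ℂ) (chi k) * τ k + ((starRingEnd ℂ) (chi k) - 1) * σ) := by
    intro k; unfold VV TT; rw [hYg, ← hg]; ring
  have hς1 : ‖g‖ ^ 2 * Nst be σ τ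
      = ‖YY ξ y‖ ^ 2 + 2 * (∑' k, be (k + 1) * (starRingEnd ℂ) (YY ξ y) * TT ξ τ (k + 1)).re + Nt (TT ξ τ) := by
    unfold Nst
    have e1 : Nt (TT ξ τ) = ‖g‖ ^ 2 * Nt τ := Nt_smul g τ
    have e2 : ∑' k, be (k + 1) * (starRingEnd ℂ) (YY ξ y) * TT ξ τ (k + 1)
        = ((‖g‖ ^ 2 : ℝ) : ℂ) * ((starRingEnd ℂ) σ * ∑' k, be (k + 1) * τ (k + 1)) := by
      rw [← tsum_mul_left, ← tsum_mul_left]
      refine tsum_congr fun k => ?_
      rw [hYg, ← conj_mul_self_re, map_mul]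
      unfold TT; rw [← hg]; ring
    rw [e1, e2, hYg, norm_mul, Complex.re_ofReal_mul]
    ring
  have hς2 : ‖g‖ ^ 2 * Nst be ((starRingEnd ℂ) σ) (fun k => (starRingEnd ℂ) ((starRingEnd ℂ) (chi k) * τ k + ((starRingEnd ℂ) (chi k) - 1) * σ))
      = ‖YY ξ y‖ ^ 2 + 2 * (∑' k, (starRingEnd ℂ) (be (k + 1)) * (starRingEnd ℂ) (YY ξ y) * VV chi ξ y τ (k + 1)).re
        + Nt (fun k => (starRingEnd ℂ) (VV chi ξ y τ k)) := by
    unfold Nst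
    have e1 : Nt (fun k => (starRingEnd ℂ) (VV chi ξ y τ k))
        = ‖g‖ ^ 2 * Nt (fun k => (starRingEnd ℂ) ((starRingEnd ℂ) (chi k) * τ k + ((starRingEnd ℂ) (chi k) - 1) * σ)) := by
      have h := Nt_smul ((starRingEnd ℂ) g) (fun k => (starRingEnd ℂ) ((starRingEnd ℂ) (chi k) * τ k + ((starRingEnd ℂ) (chi k) - 1) * σ))
      rw [RCLike.norm_conj] at h
      rw [← h]
      congr 1
      funext k
      rw [hVg k, map_mul]
    have e2 : (∑' k, (starRingEnd ℂ) (be (k + 1)) * (starRingEnd ℂ) (YY ξ y) * VV chi ξ y τ (k + 1))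
        = (starRingEnd ℂ) (((‖g‖ ^ 2 : ℝ) : ℂ) * ((starRingEnd ℂ) ((starRingEnd ℂ) σ) *
          ∑' k, be (k + 1) * (starRingEnd ℂ) ((starRingEnd ℂ) (chi (k + 1)) * τ (k + 1) + ((starRingEnd ℂ) (chi (k + 1)) - 1) * σ))) := by
      rw [← tsum_mul_left, ← tsum_mul_left, Complex.conj_tsum]
      refine tsum_congr fun k => ?_
      rw [hYg, hVg, ← conj_mul_self_re]
      simp only [map_mul, Complex.conj_conj]
      ring
    rw [e1, e2, Complex.conj_re, Complex.re_ofReal_mul, hYg, norm_mul, RCLike.norm_conj]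
    ring
  -- the tail of TP
  have hTPs : ∑' k : ℕ, ((1 : ℝ) / 4) ^ k * ‖TP ξ y A τ (k + 7)‖ ^ 2
      = ‖TP ξ y A τ 7‖ ^ 2 + ∑' k : ℕ, ((1 : ℝ) / 4) ^ (k + 1) * ‖TP ξ y A τ (k + 7 + 1)‖ ^ 2 := by
    rw [(summable_en0 gTP).tsum_eq_zero_add]
    simp only [pow_zero, one_mul, zero_add]
  have hen : ∑' k, en τ k = c7 * ∑' k : ℕ, ((1 : ℝ) / 4) ^ k * ‖τ (k + 7)‖ ^ 2 := by
    unfold en; rw [tsum_mul_left]
  have hconjV : ∀ k : ℕ, ‖(starRingEnd ℂ) (VV chi ξ y τ (k + 7))‖ = ‖VV chi ξ y τ (k + 7)‖ :=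
    fun k => RCLike.norm_conj _
  -- total identity
  have hTot : (1 - ‖g‖ ^ 2) * Nst be σ τ
        + ‖g‖ ^ 2 * Nst be ((starRingEnd ℂ) σ) (fun k => (starRingEnd ℂ) ((starRingEnd ℂ) (chi k) * τ k + ((starRingEnd ℂ) (chi k) - 1) * σ))
      - Nst be (σ + A) (TP ξ y A τ)
      = MainR al be chi κ ξ y τ A + ∑' k, en τ k
        - c7 * ∑' k : ℕ, ((1 : ℝ) / 4) ^ (k + 1) * ‖TP ξ y A τ (k + 7 + 1)‖ ^ 2
        + 2 * (∑' k : ℕ, be (k + 7 + 1) * (starRingEnd ℂ) (PP ξ y (k + 7 + 1) - A)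
            * (ξ ^ (k + 7 + 1) * τ (k + 7))).re
        - 2 * (∑' k : ℕ, be (k + 7 + 1) * (starRingEnd ℂ) A * PP ξ y (k + 7 + 1)).re
        + 2 * (∑' k : ℕ, be (k + 7 + 1) * (starRingEnd ℂ) y * QQ ξ y (k + 7 + 1)).re
        - 2 * (∑' k : ℕ, be (k + 7) * (starRingEnd ℂ) (YY ξ y) * TT ξ τ (k + 7)).re
        + 2 * (∑' k : ℕ, (starRingEnd ℂ) (be (k + 7)) * (starRingEnd ℂ) (YY ξ y) * VV chi ξ y τ (k + 7)).re
        + (c7 * ∑' k : ℕ, ((1 : ℝ) / 4) ^ k * ‖VV chi ξ y τ (k + 7)‖ ^ 2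
          - c7 * ∑' k : ℕ, ((1 : ℝ) / 4) ^ k * ‖TT ξ τ (k + 7)‖ ^ 2) := by
    have hL : (1 - ‖g‖ ^ 2) * Nst be σ τ
        + ‖g‖ ^ 2 * Nst be ((starRingEnd ℂ) σ) (fun k => (starRingEnd ℂ) ((starRingEnd ℂ) (chi k) * τ k + ((starRingEnd ℂ) (chi k) - 1) * σ))
      - Nst be (σ + A) (TP ξ y A τ)
      = (Nst be σ τ - Nst be (σ + A) (TP ξ y A τ)) - ‖g‖ ^ 2 * Nst be σ τ
        + ‖g‖ ^ 2 * Nst be ((starRingEnd ℂ) σ) (fun k => (starRingEnd ℂ) ((starRingEnd ℂ) (chi k) * τ k + ((starRingEnd ℂ) (chi k) - 1) * σ)) := by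
      ring
    rw [hL, hς1, hς2]
    have hD : Nst be σ τ - Nst be (σ + A) (TP ξ y A τ)
        = (‖σ‖ ^ 2 + 2 * ((starRingEnd ℂ) σ * ∑' k, be (k + 1) * τ (k + 1)).re - ‖σ + A‖ ^ 2
      - 2 * ((starRingEnd ℂ) (σ + A) * ∑' k, be (k + 1) * TP ξ y A τ (k + 1)).re) + Nt τ - Nt (TP ξ y A τ) := by
      unfold Nst; ring
    rw [hD, hF, d2, d3, d4, d5, d6]
    unfold Nt
    rw [hTPs, hen]
    simp only [hconjV]
    unfold MainR
    simp only [Complex.add_re]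
    ring
  -- bounds
  have b1 := B1 hξ y A hτ
  have b2 := abs_le.mp (B2 C hξ y A hτ)
  have b3 := abs_le.mp (B3 C hξ y A)
  have b4 := abs_le.mp (B4 C hξ y)
  have b5 := abs_le.mp (B5 C hξ y hτ)
  have b6 := abs_le.mp (B6 C hξ y hτ)
  have b7 := B7 C hξ y hτ
  have b8 := B8 C hτ
  have hmain := main_lower C.mem hξ y τ h0 η
  rw [← hAof] at hmain
  rw [← hη] at b8
  have hE0 : 0 ≤ ∑' k, en τ k := tsum_nonneg (en_nonneg τ)
  -- bound of A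
  have hAn : ‖A‖ ^ 2 ≤ 2 * (6 * (36 / 100) * (‖vOf y τ η 1‖ ^ 2 + ‖vOf y τ η 2‖ ^ 2 + ‖vOf y τ η 3‖ ^ 2
        + ‖vOf y τ η 4‖ ^ 2 + ‖vOf y τ η 5‖ ^ 2 + ‖vOf y τ η 6‖ ^ 2)) + 2 * ‖η‖ ^ 2 := by
    have hb := al_bound C y τ η
    have h1 := hb 1 (by norm_num) (by norm_num)
    have h2 := hb 2 (by norm_num) (by norm_num)
    have h3 := hb 3 (by norm_num) (by norm_num)
    have h4 := hb 4 (by norm_num) (by norm_num)
    have h5 := hb 5 (by norm_num) (by norm_num)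
    have h6 := hb 6 (by norm_num) (by norm_num)
    have hA1 : ‖A‖ ≤ 6 / 10 * (‖vOf y τ η 1‖ + ‖vOf y τ η 2‖ + ‖vOf y τ η 3‖
        + ‖vOf y τ η 4‖ + ‖vOf y τ η 5‖ + ‖vOf y τ η 6‖) + ‖η‖ := by
      rw [hAof]
      unfold Aof
      refine (norm_add_le _ _).trans ?_
      have n1 := norm_add_le (al 1 * τ 1 + al 2 * τ 2 + al 3 * τ 3 + al 4 * τ 4 + al 5 * τ 5) (al 6 * τ 6)
      have n2 := norm_add_le (al 1 * τ 1 + al 2 * τ 2 + al 3 * τ 3 + al 4 * τ 4) (al 5 * τ 5)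
      have n3 := norm_add_le (al 1 * τ 1 + al 2 * τ 2 + al 3 * τ 3) (al 4 * τ 4)
      have n4 := norm_add_le (al 1 * τ 1 + al 2 * τ 2) (al 3 * τ 3)
      have n5 := norm_add_le (al 1 * τ 1) (al 2 * τ 2)
      linarith
    have hA2 := pow_le_pow_left₀ (norm_nonneg A) hA1 2
    set x1 := ‖vOf y τ η 1‖
    set x2 := ‖vOf y τ η 2‖
    set x3 := ‖vOf y τ η 3‖
    set x4 := ‖vOf y τ η 4‖
    set x5 := ‖vOf y τ η 5‖
    set x6 := ‖vOf y τ η 6‖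
    have hs := sum6_sq x1 x2 x3 x4 x5 x6
    have h7 := two_sq (6 / 10 * (x1 + x2 + x3 + x4 + x5 + x6)) ‖η‖
    rw [mul_pow] at h7
    linarith
  have p1 := sq_nonneg ‖vOf y τ η 1‖
  have p2 := sq_nonneg ‖vOf y τ η 2‖
  have p3 := sq_nonneg ‖vOf y τ η 3‖
  have p4 := sq_nonneg ‖vOf y τ η 4‖
  have p5 := sq_nonneg ‖vOf y τ η 5‖
  have p6 := sq_nonneg ‖vOf y τ η 6‖
  have py := sq_nonneg ‖y‖
  have pη := sq_nonneg ‖η‖
  have pA := sq_nonneg ‖A‖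
  have hc1 : (2 / 10 ^ 6 : ℝ) ^ 2 / (8 * c7) * (256 * ‖y‖ ^ 2 + 4 * ‖A‖ ^ 2)
      ≤ 22 / 10 ^ 5 * ‖y‖ ^ 2 + 4 / 10 ^ 6 * ‖A‖ ^ 2 := by
    have : (2 / 10 ^ 6 : ℝ) ^ 2 / (8 * c7) = 1683375 * 4 / (8 * 10 ^ 12) := by
      unfold c7; norm_num
    rw [this]
    nlinarith
  have hc2 : 32 * ((2 / 10 ^ 6 : ℝ) ^ 2 / c7) ≤ 22 / 10 ^ 5 := by
    unfold c7; norm_num
  have hc3 : 32 * ((2 / 10 ^ 6 : ℝ) ^ 2 / c7) * ‖y‖ ^ 2 ≤ 22 / 10 ^ 5 * ‖y‖ ^ 2 :=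
    mul_le_mul_of_nonneg_right hc2 py
  have hc4 : (32 * ((2 / 10 ^ 6 : ℝ) ^ 2 / c7) + 16 / 10 ^ 6) * ‖y‖ ^ 2
      ≤ (22 / 10 ^ 5 + 16 / 10 ^ 6) * ‖y‖ ^ 2 :=
    mul_le_mul_of_nonneg_right (by linarith) py
  have hc7 : c7 ≤ 6 / 10 ^ 7 := by unfold c7; norm_num
  have hc5 : 128 * c7 * ‖y‖ ^ 2 ≤ 128 * (6 / 10 ^ 7) * ‖y‖ ^ 2 :=
    mul_le_mul_of_nonneg_right (by linarith) py
  have hc6 : 2 * c7 * ‖A‖ ^ 2 ≤ 2 * (6 / 10 ^ 7) * ‖A‖ ^ 2 :=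
    mul_le_mul_of_nonneg_right (by linarith) pA
  have hc8 : 64 * c7 * ‖y‖ ^ 2 ≤ 64 * (6 / 10 ^ 7) * ‖y‖ ^ 2 :=
    mul_le_mul_of_nonneg_right (by linarith) py
  have hfin : 0 ≤ (1 - ‖g‖ ^ 2) * Nst be σ τ
        + ‖g‖ ^ 2 * Nst be ((starRingEnd ℂ) σ) (fun k => (starRingEnd ℂ) ((starRingEnd ℂ) (chi k) * τ k + ((starRingEnd ℂ) (chi k) - 1) * σ))
      - Nst be (σ + A) (TP ξ y A τ) := by
    rw [hTot]
    linarith [b2.1, b3.1, b3.2, b4.1, b5.1, b5.2, b6.1]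
  linarith

end Pool.Agent.H81.W
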