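import Pool.Agent.H81.W.Consts

set_option autoImplicit false
set_option linter.unusedVariables false
set_option linter.unusedSimpArgs false

/-!
# The Lyapunov form
-/

namespace Pool.Agent.H81.W

open Complex

/-- the `τ` coordinates of a sequence -/
noncomputable def tauOf (z q : ℂ) (s : ℕ → ℂ) (k : ℕ) : ℂ := s k / ww z q k - s 0

/-- The Lyapunov form. -/
noncomputable def Ns (z q : ℂ) (s : ℕ → ℂ) : ℝ := Nst (be z q) (s 0) (tauOf z q s)

theorem Nt6_congr {f g : ℕ → ℂ} (h : ∀ k, f (k + 1) = g (k + 1)) : Nt6 f = Nt6 g := by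
  have h1 := h 0
  have h2 := h 1
  have h3 := h 2
  have h4 := h 3
  have h5 := h 4
  have h6 := h 5
  simp only [zero_add, Nat.reduceAdd] at h1 h2 h3 h4 h5 h6
  unfold Nt6
  rw [h1, h2, h3, h4, h5, h6]

theorem Nt_congr {f g : ℕ → ℂ} (h : ∀ k, f (k + 1) = g (k + 1)) : Nt f = Nt g := by
  unfold Nt
  rw [Nt6_congr h]
  congr 2
  refine tsum_congr fun k => ?_
  rw [h (k + 6)]

theorem Nst_congr {b f g : ℕ → ℂ} {σ σ' : ℂ} (hσ : σ = σ') (h : ∀ k, f (k + 1) = g (k + 1)) :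
    Nst b σ f = Nst b σ' g := by
  unfold Nst
  rw [Nt_congr h, hσ]
  have : ∑' k, b (k + 1) * f (k + 1) = ∑' k, b (k + 1) * g (k + 1) :=
    tsum_congr fun k => by rw [h k]
  rw [this]

theorem Nst_smul (b : ℕ → ℂ) (c σ : ℂ) (f : ℕ → ℂ) :
    Nst b (c * σ) (fun k => c * f k) = ‖c‖ ^ 2 * Nst b σ f := by
  unfold Nst
  rw [Nt_smul]
  have : (starRingEnd ℂ) (c * σ) * ∑' k, b (k + 1) * (c * f (k + 1))
      = ((‖c‖ ^ 2 : ℝ) : ℂ) * ((starRingEnd ℂ) σ * ∑' k, b (k + 1) * f (k + 1)) := by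
    have h : ∑' k, b (k + 1) * (c * f (k + 1)) = c * ∑' k, b (k + 1) * f (k + 1) := by
      rw [← tsum_mul_left]; exact tsum_congr fun k => by ring
    rw [h, ← conj_mul_self_re, map_mul]; ring
  rw [this, Complex.re_ofReal_mul, norm_mul]
  ring

theorem Ns_smul (z q c : ℂ) (s : ℕ → ℂ) : Ns z q (fun k => c * s k) = ‖c‖ ^ 2 * Ns z q s := by
  unfold Ns
  rw [← Nst_smul]
  refine Nst_congr rfl fun k => ?_
  unfold tauOf
  ring

section
variable {z q : ℂ} (H : Crit z q)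
include H

theorem Crit.ww_zero : ww z q 0 = 1 := by simp [ww]

theorem Crit.tau_zero (s : ℕ → ℂ) : tauOf z q s 0 = 0 := by
  unfold tauOf
  rw [H.ww_zero]; simp

theorem Crit.norm_ww (k : ℕ) : ‖ww z q k‖ = ‖z‖ ^ k := by
  unfold ww
  rw [norm_mul, norm_pow, norm_pow, H.hq, one_pow, mul_one]

theorem Crit.tau_bound {s : ℕ → ℂ} {M : ℝ} (hs : ∀ k, ‖s k‖ ≤ M) (k : ℕ) :
    ‖tauOf z q s k‖ ≤ 2 * M * (3 / 2) ^ k := by
  have hM : 0 ≤ M := (norm_nonneg _).trans (hs 0)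
  unfold tauOf
  have h1 : ‖s k / ww z q k‖ ≤ M * (3 / 2) ^ k := by
    rw [norm_div, H.norm_ww, div_eq_mul_inv]
    have hz := H.z_ge
    have h2 : (‖z‖ ^ k)⁻¹ ≤ (3 / 2) ^ k := by
      rw [← inv_pow]
      refine pow_le_pow_left₀ (by positivity) ?_ k
      rw [inv_le_comm₀ (by linarith) (by norm_num)]
      linarith
    exact mul_le_mul (hs k) h2 (by positivity) hM
  have h2 : ‖s 0‖ ≤ M * (3 / 2) ^ k := by
    have : (1 : ℝ) ≤ (3 / 2) ^ k := one_le_pow₀ (by norm_num)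
    calc ‖s 0‖ ≤ M := hs 0
      _ ≤ M * (3 / 2) ^ k := by nlinarith
  refine (norm_sub_le _ _).trans ?_
  linarith

theorem Crit.tau_growth {s : ℕ → ℂ} (hs : Bdd s) : Gb (3 / 2) (tauOf z q s) := by
  obtain ⟨M, hM⟩ := hs
  have hM0 : 0 ≤ M := (norm_nonneg _).trans (hM 0)
  exact ⟨2 * M, by positivity, fun k => H.tau_bound hM k⟩

theorem Crit.al_eq (j : ℕ) : alpha z q j = -(z * ww z q j / (Nat.factorial (j + 1) : ℂ)) := by
  unfold alpha ww
  rw [pow_succ]; ring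

theorem Crit.ww_succ (m : ℕ) : ww z q (m + 1) = ww z q m * (z * q ^ (m + 1)) := by
  unfold ww
  have : (m + 1) * (m + 1 + 1) / 2 = m * (m + 1) / 2 + (m + 1) := by
    have h : (m + 1) * (m + 1 + 1) = m * (m + 1) + (m + 1) * 2 := by ring
    rw [h, Nat.add_mul_div_right _ _ (by norm_num)]
  rw [this, pow_succ z, pow_add q]; ring

theorem Crit.Bop_zero {s : ℕ → ℂ} (hs : Bdd s) (ζ : ℂ) :
    z * Bop ζ s 0 = s 0 + ∑' k, alpha z q k * tauOf z q s k := by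
  have g := (H.tau_growth hs).mono (b' := 4) (by norm_num) (by norm_num)
  have s1 := H.summ_al g
  have e : ∀ j, -(z * (s j / (Nat.factorial (j + 1) : ℂ)))
      = alpha z q j * tauOf z q s j + alpha z q j * s 0 := by
    intro j
    unfold tauOf
    rw [H.al_eq]
    have := H.ww_ne j
    have hf : (Nat.factorial (j + 1) : ℂ) ≠ 0 := by exact_mod_cast Nat.factorial_ne_zero _
    field_simp
    ring
  have e1 : z * Bop ζ s 0 = ∑' j, -(z * (s j / (Nat.factorial (j + 1) : ℂ))) := by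
    rw [tsum_neg, tsum_mul_left]
    simp only [Bop]
    ring
  rw [e1, tsum_congr e, s1.tsum_add (H.summ_al0.mul_right _), tsum_mul_right, H.sum_al]
  ring

theorem Crit.step_aux {s : ℕ → ℂ} (hs : Bdd s) {ζ : ℂ} (hζ : ‖ζ‖ = 1) :
    ‖z‖ ^ 2 * Ns z q (Bop ζ s)
      = Nst (be z q) (s 0 + ∑' k, alpha z q k * tauOf z q s k)
          (TP (ζ / q) ((ζ / q - 1) * s 0) (∑' k, alpha z q k * tauOf z q s k) (tauOf z q s)) := by
  rw [← Ns_smul]
  unfold Ns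
  refine Nst_congr (H.Bop_zero hs ζ) fun k => ?_
  have h0 := H.Bop_zero hs ζ
  set A := ∑' k, alpha z q k * tauOf z q s k with hA
  have e1 : tauOf z q (fun k => z * Bop ζ s k) (k + 1)
      = z * Bop ζ s (k + 1) / ww z q (k + 1) - (s 0 + A) := by
    show z * Bop ζ s (k + 1) / ww z q (k + 1) - z * Bop ζ s 0 = _
    rw [h0]
  rw [e1]
  unfold TP
  rw [PP_eq, Nat.add_sub_cancel, H.ww_succ]
  simp only [Bop]
  have hw := H.ww_ne k
  have hz := H.z_ne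
  have hq := H.q_ne
  have e2 : z * (ζ ^ (k + 1) * s k) / (ww z q k * (z * q ^ (k + 1)))
      = (ζ / q) ^ (k + 1) * (s k / ww z q k) := by
    rw [div_pow]
    field_simp
  rw [e2]
  have e3 : s k / ww z q k = tauOf z q s k + s 0 := by unfold tauOf; ring
  rw [e3]
  ring

theorem Crit.conj_aux (s : ℕ → ℂ) :
    Ns z q (fun k => (starRingEnd ℂ) (s k)) = Nst (be z q) ((starRingEnd ℂ) (s 0))
      (fun k => (starRingEnd ℂ) ((starRingEnd ℂ) (chi z q k) * tauOf z q s k + ((starRingEnd ℂ) (chi z q k) - 1) * s 0)) := by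
  unfold Ns
  refine Nst_congr rfl fun k => ?_
  unfold tauOf chi
  have hw := H.ww_ne (k + 1)
  have hcw : (starRingEnd ℂ) (ww z q (k + 1)) ≠ 0 := by
    rw [Ne, map_eq_zero]; exact hw
  simp only [map_add, map_mul, map_sub, map_div₀, Complex.conj_conj, map_one]
  field_simp
  ring

theorem Crit.step {s : ℕ → ℂ} (hs : Bdd s) {ζ : ℂ} (hζ : ‖ζ‖ = 1) :
    ‖z‖ ^ 2 * Ns z q (Bop ζ s) ≤ max (Ns z q s) (Ns z q (fun k => (starRingEnd ℂ) (s k))) := by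
  have hξ : ‖ζ / q‖ = 1 := by rw [norm_div, hζ, H.hq, div_one]
  have hk := key_ineq H.cdata hξ (s 0) (H.tau_zero s) (H.tau_growth hs)
  rw [H.step_aux hs hζ]
  refine hk.trans ?_
  rw [← H.conj_aux s]
  have h1 : Nst (be z q) (s 0) (tauOf z q s) = Ns z q s := rfl
  rw [h1]
  have hg := norm_g_le hξ
  set g := ‖((ζ / q) ^ 2 - 1) / 2‖ with hgd
  have hg0 : 0 ≤ g := norm_nonneg _
  have hς : g ^ 2 ≤ 1 := by nlinarith
  have hς0 : 0 ≤ g ^ 2 := by positivity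
  have m1 := le_max_left (Ns z q s) (Ns z q (fun k => (starRingEnd ℂ) (s k)))
  have m2 := le_max_right (Ns z q s) (Ns z q (fun k => (starRingEnd ℂ) (s k)))
  nlinarith

/-! ### lower bound -/

theorem Crit.low_form (σ : ℂ) (τ : ℕ → ℂ) :
    27 / 100 * ‖σ‖ ^ 2 ≤ ‖σ‖ ^ 2 + 2 * ((starRingEnd ℂ) σ * (be z q 1 * τ 1 + be z q 2 * τ 2 + be z q 3 * τ 3
      + be z q 4 * τ 4 + be z q 5 * τ 5 + be z q 6 * τ 6)).re + Nt6 τ := by
  have h := lowCert.sound H.main_mem lowForm lowCheck (ξ := 1) (by simp) (vOf σ τ 0)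
  have hbe : ∀ k, 1 ≤ k → k ≤ 6 →
      Term.eval (envOf (alpha z q) (be z q) (chi z q) (kap z q)) 1 (vOf σ τ 0)
        ⟨beM 2 k, mono (0, 0), lfTau k 0⟩ = 2 * ((starRingEnd ℂ) σ * (be z q k * τ k)).re := by
    intro k h1 h2
    simp only [Term.eval]
    rw [eval_beM (alpha z q) (be z q) (chi z q) (kap z q) 2 (by omega), LFeval_mono,
      LFeval_tau 1 σ τ 0 _ 0 h1 h2]
    have : ((2 : ℤ) : ℂ) * be z q k * (starRingEnd ℂ) (lv 1 (vOf σ τ 0) (0, 0)) * (1 ^ 0 * τ k)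
        = ((2 : ℝ) : ℂ) * ((starRingEnd ℂ) σ * (be z q k * τ k)) := by
      simp only [lv, vOf_zero]
      push_cast; ring_nf
    rw [this, Complex.re_ofReal_mul]
  have hev : tsEval (envOf (alpha z q) (be z q) (chi z q) (kap z q)) 1 (vOf σ τ 0) lowForm
      = ‖σ‖ ^ 2 + 2 * ((starRingEnd ℂ) σ * (be z q 1 * τ 1 + be z q 2 * τ 2 + be z q 3 * τ 3
      + be z q 4 * τ 4 + be z q 5 * τ 5 + be z q 6 * τ 6)).re + Nt6 τ := by
    unfold lowForm
    simp only [tsEval_cons, tsEval_append, tsEval_nil]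
    rw [tsEval_nTerms 1 _ _ 1 _ (fun k => τ k)
      (fun k h1 h2 => by rw [LFeval_tau 1 σ τ 0 _ 0 h1 h2]; simp)]
    rw [hbe 1 (by norm_num) (by norm_num), hbe 2 (by norm_num) (by norm_num),
      hbe 3 (by norm_num) (by norm_num), hbe 4 (by norm_num) (by norm_num),
      hbe 5 (by norm_num) (by norm_num), hbe 6 (by norm_num) (by norm_num), term_eval_sq, LFeval_mono]
    have e0 : ‖lv 1 (vOf σ τ 0) (0, 0)‖ ^ 2 = ‖σ‖ ^ 2 := by simp [lv, vOf_zero]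
    rw [e0]
    simp only [mul_add, Complex.add_re]
    push_cast
    ring
  rw [hev] at h
  refine le_trans ?_ h
  have hy : ‖vOf σ τ 0 0‖ ^ 2 = ‖σ‖ ^ 2 := by rw [vOf_zero]
  simp only [lowCert, diagVal, nsum2, lowKeys, lowDiag, colDen, List.map_cons, List.map_nil,
    List.sum_cons, List.sum_nil, List.length_cons, List.length_nil, hy]
  push_cast
  have p0 := sq_nonneg ‖σ‖
  have p1 := sq_nonneg ‖vOf σ τ 0 1‖
  have p2 := sq_nonneg ‖vOf σ τ 0 2‖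
  have p3 := sq_nonneg ‖vOf σ τ 0 3‖
  have p4 := sq_nonneg ‖vOf σ τ 0 4‖
  have p5 := sq_nonneg ‖vOf σ τ 0 5‖
  have p6 := sq_nonneg ‖vOf σ τ 0 6‖
  linarith

theorem Crit.lower {s : ℕ → ℂ} (hs : Bdd s) : 1 / 4 * ‖s 0‖ ^ 2 ≤ Ns z q s := by
  have g := H.tau_growth hs
  have g4 := g.mono (b' := 4) (by norm_num) (by norm_num)
  set τ := tauOf z q s with hτ
  set σ := s 0 with hσ
  have hl := H.low_form σ τ
  have C := H.cdata
  have s1 : Summable (fun k => be z q (k + 1) * τ (k + 1)) := by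
    have := C.summ_be1 (g4.shift (by norm_num) 1)
    exact this
  have hsplit : ∑' k, be z q (k + 1) * τ (k + 1)
      = (be z q 1 * τ 1 + be z q 2 * τ 2 + be z q 3 * τ 3
      + be z q 4 * τ 4 + be z q 5 * τ 5 + be z q 6 * τ 6) + ∑' k, be z q (k + 7) * τ (k + 7) := by
    rw [← s1.sum_add_tsum_nat_add 6]
    simp only [Finset.sum_range_succ, Finset.sum_range_zero, zero_add, Nat.reduceAdd]
  have hE : ∑' k, en τ k = c7 * ∑' k : ℕ, ((1 : ℝ) / 4) ^ k * ‖τ (k + 7)‖ ^ 2 := by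
    unfold en; rw [tsum_mul_left]
  have htail : |2 * (∑' k, (starRingEnd ℂ) σ * (be z q (k + 7) * τ (k + 7))).re|
      ≤ 1 * ∑' k, en τ k + 2 * ((2 / 10 ^ 6) ^ 2 / c7) * ‖σ‖ ^ 2 := by
    refine tail_c (summable_en g) fun k => ?_
    have hp := half_pos k
    have hl := half_le k
    have hb := C.be7 k
    rw [norm_mul, norm_mul, RCLike.norm_conj]
    unfold en
    rw [pow4, half_succ]
    set p := ((1 : ℝ) / 2) ^ k with hq
    set x := ‖τ (k + 7)‖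
    have hx : 0 ≤ x := norm_nonneg _
    have hy : 0 ≤ ‖σ‖ := norm_nonneg _
    have hc := c7_pos
    have h1 : 2 * (‖σ‖ * (‖be z q (k + 7)‖ * x)) ≤ 2 * x * ((2 / 10 ^ 6) * p ^ 3 * ‖σ‖) := by
      have a1 := mul_le_mul_of_nonneg_right hb (mul_nonneg hx hy)
      linarith
    have h2 := amgm (a := x) (b := (2 / 10 ^ 6) * p ^ 3 * ‖σ‖) (c := c7 * p ^ 2) (by positivity)
    have h3 : ((2 / 10 ^ 6) * p ^ 3 * ‖σ‖) ^ 2 / (c7 * p ^ 2)
        = ((2 / 10 ^ 6) ^ 2 / c7) * (p ^ 4 * ‖σ‖ ^ 2) := by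
      field_simp
    have h7 : p ^ 4 ≤ p := by
      have : p ^ 4 = p * p ^ 3 := by ring
      rw [this]
      have : p ^ 3 ≤ 1 := pow_le_one₀ hp.le hl
      nlinarith
    have h8 : ((2 / 10 ^ 6) ^ 2 / c7) * (p ^ 4 * ‖σ‖ ^ 2)
        ≤ ((2 / 10 ^ 6) ^ 2 / c7) * (p * ‖σ‖ ^ 2) :=
      mul_le_mul_of_nonneg_left (mul_le_mul_of_nonneg_right h7 (by positivity)) (by positivity)
    rw [h3] at h2
    calc 2 * (‖σ‖ * (‖be z q (k + 7)‖ * x)) ≤ _ := h1
      _ ≤ _ := h2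
      _ ≤ c7 * p ^ 2 * x ^ 2 + ((2 / 10 ^ 6) ^ 2 / c7) * (p * ‖σ‖ ^ 2) := by linarith
      _ = _ := by ring
  rw [tsum_mul_left] at htail
  have ht := (abs_le.mp htail).1
  have hc : 2 * ((2 / 10 ^ 6 : ℝ) ^ 2 / c7) * ‖σ‖ ^ 2 ≤ 1 / 10 ^ 4 * ‖σ‖ ^ 2 := by
    refine mul_le_mul_of_nonneg_right ?_ (sq_nonneg _)
    unfold c7; norm_num
  have p0 := sq_nonneg ‖σ‖
  unfold Ns Nst Nt
  rw [hsplit, ← hE, mul_add, Complex.add_re]
  linarith

/-! ### upper bound -/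

omit H in
theorem re_le_norm3 (e a b : ℂ) {r x y : ℝ} (he : ‖e‖ ≤ r) (ha : ‖a‖ ≤ x) (hb : ‖b‖ ≤ y)
    (hr : 0 ≤ r) (hx : 0 ≤ x) :
    (e * (starRingEnd ℂ) a * b).re ≤ r * x * y := by
  refine (Complex.re_le_norm _).trans ?_
  rw [norm_mul, norm_mul, RCLike.norm_conj]
  exact mul_le_mul (mul_le_mul he ha (norm_nonneg _) hr) hb (norm_nonneg _) (mul_nonneg hr hx)

omit H in
theorem Nt6_le {f : ℕ → ℂ} {x : ℝ} (hx : 0 ≤ x) (h : ∀ k, k ≤ 6 → ‖f k‖ ≤ x) : Nt6 f ≤ 10 * x ^ 2 := by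
  have e2 : ‖((-56 : ℂ) - 108 * I) / 3750‖ ≤ 1 := by
    have h1 : ‖(-56 : ℂ) - 108 * I‖ ≤ 164 := by
      refine (norm_sub_le _ _).trans ?_
      rw [norm_mul, Complex.norm_I, mul_one, norm_neg]
      norm_num
    rw [norm_div, div_le_one (by simp)]
    refine h1.trans ?_
    simp; norm_num
  have e3 : ‖((12 : ℂ) + 56 * I) / 12500‖ ≤ 1 := by
    have h1 : ‖(12 : ℂ) + 56 * I‖ ≤ 68 := by
      refine (norm_add_le _ _).trans ?_
      rw [norm_mul, Complex.norm_I, mul_one]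
      norm_num
    rw [norm_div, div_le_one (by simp)]
    refine h1.trans ?_
    simp; norm_num
  have e4 : ‖((8 : ℂ) - 32 * I) / 55000‖ ≤ 1 := by
    have h1 : ‖(8 : ℂ) - 32 * I‖ ≤ 40 := by
      refine (norm_sub_le _ _).trans ?_
      rw [norm_mul, Complex.norm_I, mul_one]
      norm_num
    rw [norm_div, div_le_one (by simp)]
    refine h1.trans ?_
    simp; norm_num
  have h1 := h 1 (by norm_num)
  have h2 := h 2 (by norm_num)
  have h3 := h 3 (by norm_num)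
  have h4 := h 4 (by norm_num)
  have h5 := h 5 (by norm_num)
  have h6 := h 6 (by norm_num)
  have r2 := re_le_norm3 _ _ _ e2 h2 h1 (by norm_num) hx
  have r3 := re_le_norm3 _ _ _ e3 h3 h2 (by norm_num) hx
  have r4 := re_le_norm3 _ _ _ e4 h4 h3 (by norm_num) hx
  have q1 := pow_le_pow_left₀ (norm_nonneg _) h1 2
  have q2 := pow_le_pow_left₀ (norm_nonneg _) h2 2
  have q3 := pow_le_pow_left₀ (norm_nonneg _) h3 2
  have q4 := pow_le_pow_left₀ (norm_nonneg _) h4 2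
  have q5 := pow_le_pow_left₀ (norm_nonneg _) h5 2
  have q6 := pow_le_pow_left₀ (norm_nonneg _) h6 2
  have hxx : 0 ≤ x ^ 2 := sq_nonneg x
  unfold Nt6
  nlinarith

theorem Crit.upper : ∃ C₀ : ℝ, ∀ (s : ℕ → ℂ) (M : ℝ), (∀ k, ‖s k‖ ≤ M) → Ns z q s ≤ C₀ * M ^ 2 := by
  have C := H.cdata
  -- constants
  have gb : Gb (3 / 2) (fun k => (((3 / 2 : ℝ) ^ k : ℝ) : ℂ)) :=
    ⟨1, by norm_num, fun k => by
      rw [Complex.norm_real, Real.norm_eq_abs, abs_of_nonneg (by positivity), one_mul]⟩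
  have gb4 : Gb 4 (fun k => (((3 / 2 : ℝ) ^ (k + 1) : ℝ) : ℂ)) :=
    (gb.mono (b' := 4) (by norm_num) (by norm_num)).shift (by norm_num) 1
  have sK : Summable (fun k => ‖be z q (k + 1)‖ * (3 / 2) ^ (k + 1)) := by
    have := (C.summ_be1 gb4).norm
    refine this.congr fun k => ?_
    rw [norm_mul, Complex.norm_real, Real.norm_eq_abs, abs_of_nonneg (by positivity)]
  set Kb := ∑' k, ‖be z q (k + 1)‖ * (3 / 2) ^ (k + 1) with hKb
  refine ⟨1 + 4 * Kb + 10 * (2 * (3 / 2) ^ 6) ^ 2 + c7 * (4 * (3 / 2) ^ 14 * (16 / 7)), ?_⟩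
  intro s M hs
  have hM : 0 ≤ M := (norm_nonneg _).trans (hs 0)
  have hτ := fun k => H.tau_bound hs k
  have g : Gb (3 / 2) (tauOf z q s) := H.tau_growth ⟨M, hs⟩
  set τ := tauOf z q s with hτd
  -- first
  have u1 : ‖s 0‖ ^ 2 ≤ M ^ 2 := pow_le_pow_left₀ (norm_nonneg _) (hs 0) 2
  -- linear part
  have u2 : ‖∑' k, be z q (k + 1) * τ (k + 1)‖ ≤ 2 * M * Kb := by
    have hb : ∀ k, ‖be z q (k + 1) * τ (k + 1)‖ ≤ 2 * M * (‖be z q (k + 1)‖ * (3 / 2) ^ (k + 1)) := by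
      intro k
      rw [norm_mul]
      have := mul_le_mul_of_nonneg_left (hτ (k + 1)) (norm_nonneg (be z q (k + 1)))
      linarith
    exact tsum_of_norm_bounded (sK.hasSum.mul_left (2 * M)) hb
  have u3 : ((starRingEnd ℂ) (s 0) * ∑' k, be z q (k + 1) * τ (k + 1)).re ≤ M * (2 * M * Kb) := by
    refine (Complex.re_le_norm _).trans ?_
    rw [norm_mul, RCLike.norm_conj]
    exact mul_le_mul (hs 0) u2 (norm_nonneg _) hM
  -- Nt6
  have u4 : Nt6 τ ≤ 10 * (2 * M * (3 / 2) ^ 6) ^ 2 := by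
    refine Nt6_le (by positivity) fun k hk => (hτ k).trans ?_
    exact mul_le_mul_of_nonneg_left (pow_le_pow_right₀ (by norm_num) hk) (by positivity)
  -- tail
  have u5 : ∑' k : ℕ, ((1 : ℝ) / 4) ^ k * ‖τ (k + 7)‖ ^ 2 ≤ 4 * (3 / 2) ^ 14 * (16 / 7) * M ^ 2 := by
    have hg : HasSum (fun k : ℕ => (4 * (3 / 2) ^ 14 * M ^ 2) * ((9 : ℝ) / 16) ^ k)
        ((4 * (3 / 2) ^ 14 * M ^ 2) * (16 / 7)) := by
      have h2 := (hasSum_geometric_of_lt_one (r := (9 / 16 : ℝ)) (by norm_num) (by norm_num)).mul_left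
        (4 * (3 / 2) ^ 14 * M ^ 2)
      have h3 : (1 - 9 / 16 : ℝ)⁻¹ = 16 / 7 := by norm_num
      rw [h3] at h2
      exact h2
    have hle : ∀ k : ℕ, ((1 : ℝ) / 4) ^ k * ‖τ (k + 7)‖ ^ 2
        ≤ (4 * (3 / 2) ^ 14 * M ^ 2) * ((9 : ℝ) / 16) ^ k := by
      intro k
      have h2 : ‖τ (k + 7)‖ ^ 2 ≤ (2 * M * (3 / 2) ^ (k + 7)) ^ 2 :=
        pow_le_pow_left₀ (norm_nonneg _) (hτ (k + 7)) 2
      calc ((1 : ℝ) / 4) ^ k * ‖τ (k + 7)‖ ^ 2 ≤ (1 / 4) ^ k * (2 * M * (3 / 2) ^ (k + 7)) ^ 2 :=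
            mul_le_mul_of_nonneg_left h2 (by positivity)
        _ = (4 * (3 / 2) ^ 14 * M ^ 2) * ((1 / 4) ^ k * ((3 / 2) ^ 2) ^ k) := by
            rw [pow_add, ← pow_mul, mul_comm 2 k, pow_mul]; ring
        _ = _ := by rw [← mul_pow]; norm_num
    have := (summable_en0 g).tsum_le_tsum hle hg.summable
    rw [hg.tsum_eq] at this
    linarith
  have hc := c7_pos
  have u6 := mul_le_mul_of_nonneg_left u5 hc.le
  unfold Ns Nst Nt
  rw [← hτd]
  calc ‖s 0‖ ^ 2 + 2 * ((starRingEnd ℂ) (s 0) * ∑' k, be z q (k + 1) * τ (k + 1)).re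
        + (Nt6 τ + c7 * ∑' k : ℕ, ((1 : ℝ) / 4) ^ k * ‖τ (k + 7)‖ ^ 2)
      ≤ M ^ 2 + 2 * (M * (2 * M * Kb)) + (10 * (2 * M * (3 / 2) ^ 6) ^ 2
        + c7 * (4 * (3 / 2) ^ 14 * (16 / 7) * M ^ 2)) := by linarith
    _ = _ := by ring

/-! ### quadratic dependence on the zeroth coordinate -/

/-- `F` is a quadratic function with leading coefficient `a` -/
def QF (F : ℂ → ℝ) (a : ℝ) : Prop := ∃ b : ℂ, ∀ x, F x = F 0 + 2 * (b * x).re + a * ‖x‖ ^ 2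

omit H in
theorem QF.add {F G : ℂ → ℝ} {a a' : ℝ} (hF : QF F a) (hG : QF G a') :
    QF (fun x => F x + G x) (a + a') := by
  obtain ⟨b, hb⟩ := hF
  obtain ⟨b', hb'⟩ := hG
  refine ⟨b + b', fun x => ?_⟩
  show F x + G x = F 0 + G 0 + _ + _
  rw [hb x, hb' x, add_mul, Complex.add_re]
  ring

omit H in
theorem QF.mul {F : ℂ → ℝ} {a : ℝ} (c : ℝ) (hF : QF F a) : QF (fun x => c * F x) (c * a) := by
  obtain ⟨b, hb⟩ := hF
  refine ⟨(c : ℂ) * b, fun x => ?_⟩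
  show c * F x = c * F 0 + _ + _
  rw [hb x, mul_assoc, Complex.re_ofReal_mul]
  ring

omit H in
theorem QF_sq (f : ℂ) : QF (fun x => ‖f - x‖ ^ 2) 1 := by
  refine ⟨-(starRingEnd ℂ) f, fun x => ?_⟩
  show ‖f - x‖ ^ 2 = ‖f - 0‖ ^ 2 + _ + _
  rw [sub_zero]
  have e : ∀ w : ℂ, ‖w‖ ^ 2 = w.re ^ 2 + w.im ^ 2 := fun w => by
    rw [← Complex.normSq_eq_norm_sq, Complex.normSq_apply]; ring
  rw [e, e, e]
  simp only [Complex.sub_re, Complex.sub_im, Complex.mul_re, Complex.neg_re, Complex.neg_im,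
    Complex.conj_re, Complex.conj_im]
  ring

omit H in
theorem QF_herm (e f g : ℂ) : QF (fun x => (e * (starRingEnd ℂ) (f - x) * (g - x)).re) e.re := by
  refine ⟨(-(e * (starRingEnd ℂ) f) - (starRingEnd ℂ) (e * g)) / 2, fun x => ?_⟩
  show (e * (starRingEnd ℂ) (f - x) * (g - x)).re = (e * (starRingEnd ℂ) (f - 0) * (g - 0)).re + _ + _
  rw [sub_zero, sub_zero]
  have e1 : ‖x‖ ^ 2 = x.re ^ 2 + x.im ^ 2 := by
    rw [← Complex.normSq_eq_norm_sq, Complex.normSq_apply]; ring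
  have e2 : ((-(e * (starRingEnd ℂ) f) - (starRingEnd ℂ) (e * g)) / 2 * x).re = ((-(e * (starRingEnd ℂ) f) - (starRingEnd ℂ) (e * g)) * x).re / 2 := by
    have : (-(e * (starRingEnd ℂ) f) - (starRingEnd ℂ) (e * g)) / 2 * x = (((1 / 2 : ℝ)) : ℂ) * ((-(e * (starRingEnd ℂ) f) - (starRingEnd ℂ) (e * g)) * x) := by
      push_cast; ring
    rw [this, Complex.re_ofReal_mul]; ring
  rw [e1, e2]
  simp only [map_sub, map_mul, Complex.sub_re, Complex.sub_im, Complex.mul_re, Complex.mul_im,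
    Complex.neg_re, Complex.neg_im, Complex.conj_re, Complex.conj_im]
  ring

omit H in
theorem QF_lin (σ L c : ℂ) : QF (fun x => ((starRingEnd ℂ) (σ + x) * (L - x * c)).re) (-c.re) := by
  refine ⟨((starRingEnd ℂ) L - (starRingEnd ℂ) σ * c) / 2, fun x => ?_⟩
  show ((starRingEnd ℂ) (σ + x) * (L - x * c)).re = ((starRingEnd ℂ) (σ + 0) * (L - 0 * c)).re + _ + _
  rw [add_zero, zero_mul, sub_zero]
  have e1 : ‖x‖ ^ 2 = x.re ^ 2 + x.im ^ 2 := by
    rw [← Complex.normSq_eq_norm_sq, Complex.normSq_apply]; ring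
  have e2 : (((starRingEnd ℂ) L - (starRingEnd ℂ) σ * c) / 2 * x).re = (((starRingEnd ℂ) L - (starRingEnd ℂ) σ * c) * x).re / 2 := by
    have : ((starRingEnd ℂ) L - (starRingEnd ℂ) σ * c) / 2 * x = (((1 / 2 : ℝ)) : ℂ) * (((starRingEnd ℂ) L - (starRingEnd ℂ) σ * c) * x) := by
      push_cast; ring
    rw [this, Complex.re_ofReal_mul]; ring
  rw [e1, e2]
  simp only [map_add, Complex.add_re, Complex.add_im, Complex.sub_re, Complex.sub_im, Complex.mul_re,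
    Complex.mul_im, Complex.conj_re, Complex.conj_im]
  ring

omit H in
theorem QF_Nt6 (f : ℕ → ℂ) : QF (fun x => Nt6 (fun k => f k - x))
    (4 / 25 * 1 + 86 / 3125 * 1 + 3 / 625 * 1 + 6 / 15125 * 1 + 1 / 24300 * 1 + 9 / 1260250 * 1
      + 2 * (((-56 : ℂ) - 108 * I) / 3750).re + 2 * (((12 : ℂ) + 56 * I) / 12500).re
      + 2 * (((8 : ℂ) - 32 * I) / 55000).re) := by
  unfold Nt6
  exact (((((((((QF_sq (f 1)).mul _).add ((QF_sq (f 2)).mul _)).add ((QF_sq (f 3)).mul _)).add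
    ((QF_sq (f 4)).mul _)).add ((QF_sq (f 5)).mul _)).add ((QF_sq (f 6)).mul _)).add
    ((QF_herm _ (f 2) (f 1)).mul 2)).add ((QF_herm _ (f 3) (f 2)).mul 2)).add
    ((QF_herm _ (f 4) (f 3)).mul 2)

omit H in
theorem QF_tail {f : ℕ → ℂ} (hf : Gb (3 / 2) f) :
    QF (fun x => ∑' k : ℕ, ((1 : ℝ) / 4) ^ k * ‖f (k + 7) - x‖ ^ 2) (4 / 3) := by
  have s1 := summable_en0 hf
  have s2 : Summable (fun k : ℕ => (((1 / 4 : ℝ) ^ k : ℝ) : ℂ) * -(starRingEnd ℂ) (f (k + 7))) := by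
    obtain ⟨M, hM, hk⟩ := hf
    refine Summable.of_norm_bounded (g := fun k => (M * (3 / 2) ^ 7) * (3 / 8 : ℝ) ^ k)
      ((summable_geometric_of_lt_one (by norm_num) (by norm_num)).mul_left _) fun k => ?_
    rw [norm_mul, Complex.norm_real, Real.norm_eq_abs, abs_of_nonneg (by positivity), norm_neg,
      RCLike.norm_conj]
    calc ((1 : ℝ) / 4) ^ k * ‖f (k + 7)‖ ≤ (1 / 4) ^ k * (M * (3 / 2) ^ (k + 7)) :=
          mul_le_mul_of_nonneg_left (hk (k + 7)) (by positivity)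
      _ = (M * (3 / 2) ^ 7) * ((1 / 4) ^ k * (3 / 2) ^ k) := by rw [pow_add]; ring
      _ = _ := by rw [← mul_pow]; norm_num
  have s3 : HasSum (fun k : ℕ => ((1 : ℝ) / 4) ^ k) (4 / 3) := by
    have h2 := hasSum_geometric_of_lt_one (r := (1 / 4 : ℝ)) (by norm_num) (by norm_num)
    have h3 : (1 - 1 / 4 : ℝ)⁻¹ = 4 / 3 := by norm_num
    rwa [h3] at h2
  refine ⟨∑' k : ℕ, (((1 / 4 : ℝ) ^ k : ℝ) : ℂ) * -(starRingEnd ℂ) (f (k + 7)), fun x => ?_⟩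
  simp only [sub_zero]
  have e : ∀ k : ℕ, ((1 : ℝ) / 4) ^ k * ‖f (k + 7) - x‖ ^ 2
      = (((1 : ℝ) / 4) ^ k * ‖f (k + 7)‖ ^ 2
          + 2 * ((((1 / 4 : ℝ) ^ k : ℝ) : ℂ) * -(starRingEnd ℂ) (f (k + 7)) * x).re)
        + ((1 : ℝ) / 4) ^ k * ‖x‖ ^ 2 := by
    intro k
    obtain ⟨b, hb⟩ := QF_sq (f (k + 7))
    have e0 : ∀ w : ℂ, ‖w‖ ^ 2 = w.re ^ 2 + w.im ^ 2 := fun w => by
      rw [← Complex.normSq_eq_norm_sq, Complex.normSq_apply]; ring
    rw [mul_assoc, Complex.re_ofReal_mul, e0, e0, e0]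
    simp only [Complex.sub_re, Complex.sub_im, Complex.mul_re, Complex.neg_re, Complex.neg_im,
      Complex.conj_re, Complex.conj_im]
    ring
  have s4 : Summable (fun k : ℕ => 2 * ((((1 / 4 : ℝ) ^ k : ℝ) : ℂ) * -(starRingEnd ℂ) (f (k + 7)) * x).re) := by
    have := (Complex.reCLM.summable (s2.mul_right x)).mul_left 2
    exact this
  have s5 : Summable (fun k : ℕ => ((1 : ℝ) / 4) ^ k * ‖x‖ ^ 2) := s3.summable.mul_right _
  rw [tsum_congr e, (s1.add s4).tsum_add s5, s1.tsum_add s4, tsum_mul_right, s3.tsum_eq,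
    tsum_mul_left]
  have e2 : ∑' k : ℕ, ((((1 / 4 : ℝ) ^ k : ℝ) : ℂ) * -(starRingEnd ℂ) (f (k + 7)) * x).re
      = ((∑' k : ℕ, (((1 / 4 : ℝ) ^ k : ℝ) : ℂ) * -(starRingEnd ℂ) (f (k + 7))) * x).re := by
    rw [← tsum_mul_right, Complex.re_tsum (s2.mul_right x)]
  rw [e2]

theorem Crit.quad_aux : ∃ a : ℝ, ∀ s : ℕ → ℂ, Bdd s → ∃ b : ℂ, ∀ x : ℂ,
    Ns z q (Function.update s 0 (s 0 + x)) = Ns z q s + 2 * (b * x).re + a * ‖x‖ ^ 2 := by
  have C := H.cdata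
  refine ⟨(1 + 2 * (-(1 - be z q 0).re)) + ((4 / 25 * 1 + 86 / 3125 * 1 + 3 / 625 * 1 + 6 / 15125 * 1
      + 1 / 24300 * 1 + 9 / 1260250 * 1
      + 2 * (((-56 : ℂ) - 108 * I) / 3750).re + 2 * (((12 : ℂ) + 56 * I) / 12500).re
      + 2 * (((8 : ℂ) - 32 * I) / 55000).re) + c7 * (4 / 3)), fun s hs => ?_⟩
  have g := H.tau_growth hs
  have g4 := g.mono (b' := 4) (by norm_num) (by norm_num)
  set τ := tauOf z q s with hτ
  have s1 : Summable (fun k => be z q (k + 1) * τ (k + 1)) := C.summ_be1 (g4.shift (by norm_num) 1)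
  have sB : Summable (fun k => be z q (k + 1)) := by
    have := C.summ_be1 (Gb.const (b := 4) (by norm_num) 1)
    simpa using this
  -- the form as a function of `x`
  have hform : ∀ x, Ns z q (Function.update s 0 (s 0 + x))
      = (‖(-s 0) - x‖ ^ 2 + 2 * ((starRingEnd ℂ) (s 0 + x) * (∑' k, be z q (k + 1) * τ (k + 1)
          - x * (1 - be z q 0))).re)
        + (Nt6 (fun k => τ k - x) + c7 * ∑' k : ℕ, ((1 : ℝ) / 4) ^ k * ‖τ (k + 7) - x‖ ^ 2) := by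
    intro x
    have h1 : Ns z q (Function.update s 0 (s 0 + x)) = Nst (be z q) (s 0 + x) (fun k => τ k - x) := by
      unfold Ns
      refine Nst_congr (by simp) fun k => ?_
      unfold tauOf
      rw [Function.update_of_ne (Nat.succ_ne_zero k), Function.update_self, hτ]
      unfold tauOf
      ring
    rw [h1]
    unfold Nst Nt
    have h2 : ∑' k, be z q (k + 1) * (τ (k + 1) - x) = ∑' k, be z q (k + 1) * τ (k + 1) - x * (1 - be z q 0) := by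
      have e : ∀ k, be z q (k + 1) * (τ (k + 1) - x) = be z q (k + 1) * τ (k + 1) - be z q (k + 1) * x := by
        intro k; ring
      rw [tsum_congr e, s1.tsum_sub (sB.mul_right x), tsum_mul_right, C.sum_be]
      ring
    have h3 : ‖(-s 0) - x‖ = ‖s 0 + x‖ := by
      rw [← norm_neg]; congr 1; ring
    rw [h2, h3]
  have hQ := ((QF_sq (-s 0)).add ((QF_lin (s 0) (∑' k, be z q (k + 1) * τ (k + 1))
    (1 - be z q 0)).mul 2)).add ((QF_Nt6 τ).add ((QF_tail g).mul c7))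
  obtain ⟨b, hb⟩ := hQ
  refine ⟨b, fun x => ?_⟩
  have h0 := hform 0
  have hu : Function.update s 0 (s 0 + 0) = s := by simp
  rw [hu] at h0
  rw [hform x, h0]
  exact hb x

theorem Crit.quad : ∃ a : ℝ, 0 ≤ a ∧ ∀ s : ℕ → ℂ, Bdd s → ∃ b : ℂ, ∀ x : ℂ,
    Ns z q (Function.update s 0 (s 0 + x)) = Ns z q s + 2 * (b * x).re + a * ‖x‖ ^ 2 := by
  obtain ⟨a, ha⟩ := H.quad_aux
  refine ⟨a, ?_, ha⟩
  have hb0 : Bdd (fun _ => (0 : ℂ)) := ⟨0, fun k => by simp⟩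
  obtain ⟨b, hb⟩ := ha (fun _ => 0) hb0
  have hN0 : Ns z q (fun _ => 0) = 0 := by
    have := Ns_smul z q 0 (fun _ => 0)
    simpa using this
  have hbd : ∀ x : ℂ, Bdd (Function.update (fun _ : ℕ => (0 : ℂ)) 0 (0 + x)) := by
    intro x
    refine ⟨‖x‖, fun k => ?_⟩
    by_cases hk : k = 0
    · subst hk; simp
    · rw [Function.update_of_ne hk]; simp
  have h1 := H.lower (hbd 1)
  have h2 := H.lower (hbd (-1))
  rw [hb 1, hN0] at h1
  rw [hb (-1), hN0] at h2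
  simp at h1 h2
  linarith

theorem Crit.lyap : LyapData z q (Ns z q) where
  norm_q := H.hq
  z_pos := by have := H.z_ge; linarith
  z_lt := by have := H.z_le; linarith
  phi_zero := H.hphi
  step := fun ζ hζ s hs => H.step hs hζ
  smul := fun c s _ => Ns_smul z q c s
  lower := ⟨1 / 4, by norm_num, fun s hs => H.lower hs⟩
  upper := H.upper
  quad := H.quad

end

/-- Module C. -/
theorem lyap_of_critical (h : CriticalPairExists) :
    ∃ (z q : ℂ) (N : (ℕ → ℂ) → ℝ), LyapData z q N := by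
  obtain ⟨z, q, h1, h2, h3, h4, h5⟩ := h
  exact ⟨z, q, Ns z q, Crit.lyap ⟨h1, h2, h3, h4, h5⟩⟩

end Pool.Agent.H81.W
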