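import Pool.Agent.H81.W.Checks

set_option autoImplicit false
set_option linter.unusedVariables false
set_option linter.unusedSimpArgs false

/-!
# Analytic meaning of the main finite form
-/

namespace Pool.Agent.H81.W

open Complex

/-- the tail constant -/
noncomputable def c7 : ℝ := 1 / 1683375

/-- finite part of the form on `τ`-sequences -/
noncomputable def Nt6 (f : ℕ → ℂ) : ℝ :=
  4 / 25 * ‖f 1‖ ^ 2 + 86 / 3125 * ‖f 2‖ ^ 2 + 3 / 625 * ‖f 3‖ ^ 2 + 6 / 15125 * ‖f 4‖ ^ 2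
    + 1 / 24300 * ‖f 5‖ ^ 2 + 9 / 1260250 * ‖f 6‖ ^ 2
    + 2 * ((((-56 : ℂ) - 108 * I) / 3750) * (starRingEnd ℂ) (f 2) * f 1).re
    + 2 * ((((12 : ℂ) + 56 * I) / 12500) * (starRingEnd ℂ) (f 3) * f 2).re
    + 2 * ((((8 : ℂ) - 32 * I) / 55000) * (starRingEnd ℂ) (f 4) * f 3).re

/-- environment of the constants -/
noncomputable def envOf (al be chi : ℕ → ℂ) (κ : ℝ) : ℕ → ℂ := fun i =>
  ([0, al 1, al 2, al 3, al 4, al 5, al 6, 0, 0, 0,
    be 0, be 1, be 2, be 3, be 4, be 5, be 6, be 7, 0, 0,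
    0, chi 1, chi 2, chi 3, chi 4, chi 5, chi 6, 0, 0, 0, (κ : ℂ)] : List ℂ).getD i 0

/-- the variables of the main form -/
noncomputable def vOf (y : ℂ) (τ : ℕ → ℂ) (η : ℂ) : ℕ → ℂ := fun j =>
  if j = 0 then y else if j = 7 then 100 * η else τ j * 2 / (r2 j : ℂ)

noncomputable def PP (ξ y : ℂ) (k : ℕ) : ℂ := (∑ e ∈ Finset.range k, ξ ^ e) * y

noncomputable def QQ (ξ y : ℂ) (k : ℕ) : ℂ := ∑ m ∈ Finset.range k, (PP ξ y (m + 1) - y)

noncomputable def YY (ξ y : ℂ) : ℂ := (1 + ξ) / 2 * y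

noncomputable def TT (ξ : ℂ) (τ : ℕ → ℂ) (k : ℕ) : ℂ := (ξ ^ 2 - 1) / 2 * τ k

noncomputable def VV (chi : ℕ → ℂ) (ξ y : ℂ) (τ : ℕ → ℂ) (k : ℕ) : ℂ :=
  (starRingEnd ℂ) (chi k) * TT ξ τ k + ((starRingEnd ℂ) (chi k) - 1) * YY ξ y

/-- `τ'_k` for `k ≥ 1`, with `τ 0 = 0` -/
noncomputable def TP (ξ y A : ℂ) (τ : ℕ → ℂ) (k : ℕ) : ℂ := ξ ^ k * τ (k - 1) + PP ξ y k - A

noncomputable def MainR (al be chi : ℕ → ℂ) (κ : ℝ) (ξ y : ℂ) (τ : ℕ → ℂ) (A : ℂ) : ℝ :=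
  Nt6 τ - Nt6 (TP ξ y A τ) - c7 * ‖TP ξ y A τ 7‖ ^ 2
    + (1 - 2 * (be 0).re) * ‖A‖ ^ 2
    + 2 * (∑ k ∈ Finset.range 7,
        be (k + 1) * (starRingEnd ℂ) (PP ξ y (k + 1) - A) * (ξ ^ (k + 1) * τ k)).re
    - 2 * (∑ k ∈ Finset.range 7, be (k + 1) * (starRingEnd ℂ) A * PP ξ y (k + 1)).re
    + κ * ‖y‖ ^ 2
    + 2 * (∑ k ∈ Finset.range 7, be (k + 1) * (starRingEnd ℂ) y * QQ ξ y (k + 1)).re
    - 2 * (∑ k ∈ Finset.range 6, be (k + 1) * (starRingEnd ℂ) (YY ξ y) * TT ξ τ (k + 1)).re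
    + 2 * (∑ k ∈ Finset.range 6, (starRingEnd ℂ) (be (k + 1)) * (starRingEnd ℂ) (YY ξ y) * VV chi ξ y τ (k + 1)).re
    - Nt6 (TT ξ τ) + Nt6 (fun k => (starRingEnd ℂ) (VV chi ξ y τ k))

section eval
variable (env : ℕ → ℂ) (ξ : ℂ) (v : ℕ → ℂ)

theorem LFeval_nil : LFeval env ξ v [] = 0 := by simp [LFeval]

theorem LFeval_cons (p : Key × CE) (L : LF) :
    LFeval env ξ v (p :: L) = p.2.eval env * lv ξ v p.1 + LFeval env ξ v L := by
  simp [LFeval]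

theorem LFeval_append (L M : LF) :
    LFeval env ξ v (L ++ M) = LFeval env ξ v L + LFeval env ξ v M := by
  simp [LFeval]

theorem LFeval_scale (c : CE) : ∀ (L : LF),
    LFeval env ξ v (lfScale c L) = c.eval env * LFeval env ξ v L
  | [] => by simp [lfScale, LFeval]
  | p :: L => by
    rw [lfScale, LFeval_cons, LFeval_cons, LFeval_scale c L]
    simp only [CE.eval]
    ring

theorem LFeval_P : ∀ k : ℕ, LFeval env ξ v (lfP k) = PP ξ (v 0) k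
  | 0 => by simp [lfP, LFeval, PP]
  | (k + 1) => by
    rw [lfP, LFeval_cons, LFeval_P k]
    simp only [CE.eval, lv, PP, Finset.sum_range_succ]
    push_cast; ring

theorem LFeval_Y : LFeval env ξ v lfY = YY ξ (v 0) := by
  simp only [lfY, LFeval_cons, LFeval_nil, CE.eval, lv, YY]
  push_cast; ring

end eval

variable (al be chi : ℕ → ℂ) (κ : ℝ) (ξ y : ℂ) (τ : ℕ → ℂ) (η : ℂ)

theorem vOf_zero : vOf y τ η 0 = y := by simp [vOf]
theorem vOf_seven : vOf y τ η 7 = 100 * η := by simp [vOf]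

theorem r2_ne {k : ℕ} (h1 : 1 ≤ k) (h2 : k ≤ 6) : (r2 k : ℂ) ≠ 0 := by
  interval_cases k <;> simp [r2]

theorem vOf_tau {k : ℕ} (h1 : 1 ≤ k) (h2 : k ≤ 6) : (r2 k : ℂ) * vOf y τ η k = 2 * τ k := by
  have h := r2_ne h1 h2
  have h3 : vOf y τ η k = τ k * 2 / (r2 k : ℂ) := by
    unfold vOf
    rw [if_neg (by omega), if_neg (by omega)]
  rw [h3]
  field_simp

theorem LFeval_tau (env : ℕ → ℂ) {k : ℕ} (m : ℕ) (h1 : 1 ≤ k) (h2 : k ≤ 6) :
    LFeval env ξ (vOf y τ η) (lfTau k m) = ξ ^ m * τ k := by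
  have h := vOf_tau y τ η h1 h2
  simp only [lfTau, LFeval_cons, LFeval_nil, CE.eval, lv]
  push_cast
  linear_combination (ξ ^ m / 2) * h

theorem LFeval_T (env : ℕ → ℂ) {k : ℕ} (h1 : 1 ≤ k) (h2 : k ≤ 6) :
    LFeval env ξ (vOf y τ η) (lfT k) = TT ξ τ k := by
  have h := vOf_tau y τ η h1 h2
  simp only [lfT, LFeval_cons, LFeval_nil, CE.eval, lv, TT]
  push_cast
  linear_combination ((ξ ^ 2 - 1) / 4) * h

noncomputable def Aof (al τ : ℕ → ℂ) (η : ℂ) : ℂ :=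
  al 1 * τ 1 + al 2 * τ 2 + al 3 * τ 3 + al 4 * τ 4 + al 5 * τ 5 + al 6 * τ 6 + η

theorem LFeval_A : LFeval (envOf al be chi κ) ξ (vOf y τ η) lfA = Aof al τ η := by
  have h1 := vOf_tau y τ η (k := 1) (by norm_num) (by norm_num)
  have h2 := vOf_tau y τ η (k := 2) (by norm_num) (by norm_num)
  have h3 := vOf_tau y τ η (k := 3) (by norm_num) (by norm_num)
  have h4 := vOf_tau y τ η (k := 4) (by norm_num) (by norm_num)
  have h5 := vOf_tau y τ η (k := 5) (by norm_num) (by norm_num)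
  have h6 := vOf_tau y τ η (k := 6) (by norm_num) (by norm_num)
  have h7 := vOf_seven y τ η
  have e1 : envOf al be chi κ 1 = al 1 := rfl
  have e2 : envOf al be chi κ 2 = al 2 := rfl
  have e3 : envOf al be chi κ 3 = al 3 := rfl
  have e4 : envOf al be chi κ 4 = al 4 := rfl
  have e5 : envOf al be chi κ 5 = al 5 := rfl
  have e6 : envOf al be chi κ 6 = al 6 := rfl
  simp only [lfA, lfAc, LFeval_cons, LFeval_nil, CE.eval, lv, Aof, e1, e2, e3, e4, e5, e6, h7]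
  push_cast
  linear_combination (al 1 / 2) * h1 + (al 2 / 2) * h2 + (al 3 / 2) * h3 + (al 4 / 2) * h4
    + (al 5 / 2) * h5 + (al 6 / 2) * h6

theorem LFeval_negA : LFeval (envOf al be chi κ) ξ (vOf y τ η) lfNegA = - Aof al τ η := by
  rw [lfNegA, LFeval_scale, LFeval_A]
  simp [CE.eval]

theorem LFeval_Tp (h0 : τ 0 = 0) {k : ℕ} (h1 : 1 ≤ k) (h2 : k ≤ 7) :
    LFeval (envOf al be chi κ) ξ (vOf y τ η) (lfTp k) = TP ξ y (Aof al τ η) τ k := by
  unfold lfTp TP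
  rw [LFeval_append, LFeval_append, LFeval_P, LFeval_negA, vOf_zero]
  rcases Nat.eq_or_lt_of_le h1 with h | h
  · subst h
    simp [LFeval_nil, h0]
    ring
  · rw [if_neg (by omega), lfRho, LFeval_tau ξ y τ η _ k (by omega) (by omega)]
    ring

theorem LFeval_V {k : ℕ} (h1 : 1 ≤ k) (h2 : k ≤ 6) :
    LFeval (envOf al be chi κ) ξ (vOf y τ η) (lfV k) = VV chi ξ y τ k := by
  unfold lfV VV
  rw [LFeval_append, LFeval_scale, LFeval_scale, LFeval_T ξ y τ η _ h1 h2, LFeval_Y, vOf_zero]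
  have e : envOf al be chi κ (20 + k) = chi k := by
    interval_cases k <;> rfl
  simp only [chiC, CE.eval, e]
  push_cast
  ring

theorem term_eval_sq (env : ℕ → ℂ) (v : ℕ → ℂ) (a : ℤ) (d : ℕ) (L : LF) :
    Term.eval env ξ v ⟨CE.lit a 0 d, L, L⟩ = (a : ℝ) / d * ‖LFeval env ξ v L‖ ^ 2 := by
  simp only [Term.eval, CE.eval]
  rw [mul_assoc, conj_mul_self_re]
  have : (((a : ℤ) : ℂ) + ((0 : ℤ) : ℂ) * I) / ((d : ℕ) : ℂ) * ((‖LFeval env ξ v L‖ ^ 2 : ℝ) : ℂ)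
      = (((a : ℝ) / d * ‖LFeval env ξ v L‖ ^ 2 : ℝ) : ℂ) := by
    push_cast; ring
  rw [this, Complex.ofReal_re]

theorem tsEval_nTerms (env : ℕ → ℂ) (v : ℕ → ℂ) (s : ℤ) (f : ℕ → LF) (g : ℕ → ℂ)
    (hfg : ∀ k, 1 ≤ k → k ≤ 6 → LFeval env ξ v (f k) = g k) :
    tsEval env ξ v (nTerms s 1 f) = s * Nt6 g := by
  unfold nTerms
  simp only [tsEval_cons, tsEval_nil, term_eval_sq]
  rw [hfg 1 (by norm_num) (by norm_num), hfg 2 (by norm_num) (by norm_num),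
    hfg 3 (by norm_num) (by norm_num), hfg 4 (by norm_num) (by norm_num),
    hfg 5 (by norm_num) (by norm_num), hfg 6 (by norm_num) (by norm_num)]
  simp only [Term.eval, CE.eval, Nt6]
  rw [hfg 1 (by norm_num) (by norm_num), hfg 2 (by norm_num) (by norm_num),
    hfg 3 (by norm_num) (by norm_num), hfg 4 (by norm_num) (by norm_num)]
  have e1 : (((s * (-112) : ℤ) : ℂ) + ((s * 1 * (-216) : ℤ) : ℂ) * I) / ((3750 : ℕ) : ℂ) * (starRingEnd ℂ) (g 2) * g 1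
      = ((2 * s : ℝ) : ℂ) * ((((-56 : ℂ) - 108 * I) / 3750) * (starRingEnd ℂ) (g 2) * g 1) := by
    push_cast; ring
  have e2 : (((s * 24 : ℤ) : ℂ) + ((s * 1 * 112 : ℤ) : ℂ) * I) / ((12500 : ℕ) : ℂ) * (starRingEnd ℂ) (g 3) * g 2
      = ((2 * s : ℝ) : ℂ) * ((((12 : ℂ) + 56 * I) / 12500) * (starRingEnd ℂ) (g 3) * g 2) := by
    push_cast; ring
  have e3 : (((s * 16 : ℤ) : ℂ) + ((s * 1 * (-64) : ℤ) : ℂ) * I) / ((55000 : ℕ) : ℂ) * (starRingEnd ℂ) (g 4) * g 3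
      = ((2 * s : ℝ) : ℂ) * ((((8 : ℂ) - 32 * I) / 55000) * (starRingEnd ℂ) (g 4) * g 3) := by
    push_cast; ring
  rw [e1, e2, e3, Complex.re_ofReal_mul, Complex.re_ofReal_mul, Complex.re_ofReal_mul]
  push_cast
  ring

theorem tsEval_nTerms_conj (env : ℕ → ℂ) (v : ℕ → ℂ) (s : ℤ) (f : ℕ → LF) (g : ℕ → ℂ)
    (hfg : ∀ k, 1 ≤ k → k ≤ 6 → LFeval env ξ v (f k) = g k) :
    tsEval env ξ v (nTerms s (-1) f) = s * Nt6 (fun k => (starRingEnd ℂ) (g k)) := by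
  unfold nTerms
  simp only [tsEval_cons, tsEval_nil, term_eval_sq]
  rw [hfg 1 (by norm_num) (by norm_num), hfg 2 (by norm_num) (by norm_num),
    hfg 3 (by norm_num) (by norm_num), hfg 4 (by norm_num) (by norm_num),
    hfg 5 (by norm_num) (by norm_num), hfg 6 (by norm_num) (by norm_num)]
  simp only [Term.eval, CE.eval, Nt6, RCLike.norm_conj, Complex.conj_conj]
  rw [hfg 1 (by norm_num) (by norm_num), hfg 2 (by norm_num) (by norm_num),
    hfg 3 (by norm_num) (by norm_num), hfg 4 (by norm_num) (by norm_num)]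
  have hI : (starRingEnd ℂ) (I : ℂ) = -I := Complex.conj_I
  have hn : ∀ (n : ℕ) [n.AtLeastTwo], (starRingEnd ℂ) (OfNat.ofNat n : ℂ) = OfNat.ofNat n :=
    fun n _ => Complex.conj_ofNat n
  have e1 : (((s * (-112) : ℤ) : ℂ) + ((s * (-1) * (-216) : ℤ) : ℂ) * I) / ((3750 : ℕ) : ℂ) * (starRingEnd ℂ) (g 2) * g 1
      = ((2 * s : ℝ) : ℂ) * (starRingEnd ℂ) ((((-56 : ℂ) - 108 * I) / 3750) * g 2 * (starRingEnd ℂ) (g 1)) := by
    simp only [map_mul, map_div₀, map_sub, map_add, map_neg, hI, hn, Complex.conj_conj]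
    push_cast; ring
  have e2 : (((s * 24 : ℤ) : ℂ) + ((s * (-1) * 112 : ℤ) : ℂ) * I) / ((12500 : ℕ) : ℂ) * (starRingEnd ℂ) (g 3) * g 2
      = ((2 * s : ℝ) : ℂ) * (starRingEnd ℂ) ((((12 : ℂ) + 56 * I) / 12500) * g 3 * (starRingEnd ℂ) (g 2)) := by
    simp only [map_mul, map_div₀, map_sub, map_add, map_neg, hI, hn, Complex.conj_conj]
    push_cast; ring
  have e3 : (((s * 16 : ℤ) : ℂ) + ((s * (-1) * (-64) : ℤ) : ℂ) * I) / ((55000 : ℕ) : ℂ) * (starRingEnd ℂ) (g 4) * g 3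
      = ((2 * s : ℝ) : ℂ) * (starRingEnd ℂ) ((((8 : ℂ) - 32 * I) / 55000) * g 4 * (starRingEnd ℂ) (g 3)) := by
    simp only [map_mul, map_div₀, map_sub, map_add, map_neg, hI, hn, Complex.conj_conj]
    push_cast; ring
  rw [e1, e2, e3, Complex.re_ofReal_mul, Complex.re_ofReal_mul, Complex.re_ofReal_mul,
    Complex.conj_re, Complex.conj_re, Complex.conj_re]
  push_cast
  ring

theorem LFeval_Q (env : ℕ → ℂ) (v : ℕ → ℂ) {k : ℕ} (h1 : 1 ≤ k) (h2 : k ≤ 7) :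
    LFeval env ξ v (lfQ k k) = QQ ξ (v 0) k := by
  interval_cases k <;>
  · simp [lfQ, LFeval, lv, CE.eval, QQ, PP, Finset.sum_range_succ]
    try ring_nf

theorem eval_beM (m : ℤ) {k : ℕ} (h2 : k ≤ 7) :
    (beM m k).eval (envOf al be chi κ) = m * be k := by
  have e : envOf al be chi κ (10 + k) = be k := by
    interval_cases k <;> rfl
  simp [beM, CE.eval, e]

theorem tsEval_t2 (h0 : τ 0 = 0) : tsEval (envOf al be chi κ) ξ (vOf y τ η) (t2Terms 7)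
    = 2 * (∑ k ∈ Finset.range 7,
        be (k + 1) * (starRingEnd ℂ) (PP ξ y (k + 1) - Aof al τ η) * (ξ ^ (k + 1) * τ k)).re := by
  have key : ∀ k, 1 ≤ k → k ≤ 6 → Term.eval (envOf al be chi κ) ξ (vOf y τ η)
      ⟨beM 2 (k + 1), lfP (k + 1) ++ lfNegA, lfRho (k + 1)⟩
      = 2 * (be (k + 1) * (starRingEnd ℂ) (PP ξ y (k + 1) - Aof al τ η) * (ξ ^ (k + 1) * τ k)).re := by
    intro k h1 h2
    simp only [Term.eval]
    rw [eval_beM al be chi κ _ (by omega), LFeval_append, LFeval_P, LFeval_negA, vOf_zero, lfRho,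
      LFeval_tau ξ y τ η _ (k + 1) (by omega) (by omega)]
    have : ((2 : ℤ) : ℂ) * be (k + 1) * (starRingEnd ℂ) (PP ξ y (k + 1) + -Aof al τ η) * (ξ ^ (k + 1) * τ (k + 1 - 1))
        = ((2 : ℝ) : ℂ) * (be (k + 1) * (starRingEnd ℂ) (PP ξ y (k + 1) - Aof al τ η) * (ξ ^ (k + 1) * τ k)) := by
      push_cast
      rw [← sub_eq_add_neg]
      ring
    rw [this, Complex.re_ofReal_mul]
  have hexp : t2Terms 7 = [⟨beM 2 (6 + 1), lfP (6 + 1) ++ lfNegA, lfRho (6 + 1)⟩,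
    ⟨beM 2 (5 + 1), lfP (5 + 1) ++ lfNegA, lfRho (5 + 1)⟩,
    ⟨beM 2 (4 + 1), lfP (4 + 1) ++ lfNegA, lfRho (4 + 1)⟩,
    ⟨beM 2 (3 + 1), lfP (3 + 1) ++ lfNegA, lfRho (3 + 1)⟩,
    ⟨beM 2 (2 + 1), lfP (2 + 1) ++ lfNegA, lfRho (2 + 1)⟩,
    ⟨beM 2 (1 + 1), lfP (1 + 1) ++ lfNegA, lfRho (1 + 1)⟩] := by
    simp [t2Terms]
  rw [hexp]
  simp only [tsEval_cons, tsEval_nil]
  rw [key 6 (by norm_num) (by norm_num), key 5 (by norm_num) (by norm_num),
    key 4 (by norm_num) (by norm_num), key 3 (by norm_num) (by norm_num),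
    key 2 (by norm_num) (by norm_num), key 1 (by norm_num) (by norm_num)]
  simp only [Finset.sum_range_succ, Finset.sum_range_zero, h0, Complex.add_re, mul_zero,
    Complex.zero_re]
  ring

theorem tsEval_t3 : tsEval (envOf al be chi κ) ξ (vOf y τ η) (t3Terms 7)
    = - (2 * (∑ k ∈ Finset.range 7, be (k + 1) * (starRingEnd ℂ) (Aof al τ η) * PP ξ y (k + 1)).re) := by
  have key : ∀ k, k ≤ 6 → Term.eval (envOf al be chi κ) ξ (vOf y τ η)
      ⟨beM (-2) (k + 1), lfA, lfP (k + 1)⟩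
      = -2 * (be (k + 1) * (starRingEnd ℂ) (Aof al τ η) * PP ξ y (k + 1)).re := by
    intro k h2
    simp only [Term.eval]
    rw [eval_beM al be chi κ _ (by omega), LFeval_P, LFeval_A, vOf_zero]
    have : ((-2 : ℤ) : ℂ) * be (k + 1) * (starRingEnd ℂ) (Aof al τ η) * PP ξ y (k + 1)
        = ((-2 : ℝ) : ℂ) * (be (k + 1) * (starRingEnd ℂ) (Aof al τ η) * PP ξ y (k + 1)) := by
      push_cast
      ring
    rw [this, Complex.re_ofReal_mul]
  simp only [t3Terms, tsEval_cons, tsEval_nil]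
  rw [key 6 (by norm_num), key 5 (by norm_num), key 4 (by norm_num), key 3 (by norm_num),
    key 2 (by norm_num), key 1 (by norm_num), key 0 (by norm_num)]
  simp only [Finset.sum_range_succ, Finset.sum_range_zero, Complex.add_re, Complex.zero_re]
  ring

theorem QQ_one : QQ ξ y 1 = 0 := by simp [QQ, PP]

theorem tsEval_t4 : tsEval (envOf al be chi κ) ξ (vOf y τ η) (t4Terms 7)
    = 2 * (∑ k ∈ Finset.range 7, be (k + 1) * (starRingEnd ℂ) y * QQ ξ y (k + 1)).re := by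
  have key : ∀ k, k ≤ 6 → Term.eval (envOf al be chi κ) ξ (vOf y τ η)
      ⟨beM 2 (k + 1), mono (0, 0), lfQ (k + 1) (k + 1)⟩
      = 2 * (be (k + 1) * (starRingEnd ℂ) y * QQ ξ y (k + 1)).re := by
    intro k h2
    simp only [Term.eval]
    rw [eval_beM al be chi κ _ (by omega), LFeval_Q ξ _ _ (by omega) (by omega), LFeval_mono, vOf_zero]
    have : ((2 : ℤ) : ℂ) * be (k + 1) * (starRingEnd ℂ) (lv ξ (vOf y τ η) (0, 0)) * QQ ξ y (k + 1)
        = ((2 : ℝ) : ℂ) * (be (k + 1) * (starRingEnd ℂ) y * QQ ξ y (k + 1)) := by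
      simp only [lv, vOf_zero]
      push_cast
      ring_nf
    rw [this, Complex.re_ofReal_mul]
  have hexp : t4Terms 7 = [⟨beM 2 (6 + 1), mono (0, 0), lfQ (6 + 1) (6 + 1)⟩,
    ⟨beM 2 (5 + 1), mono (0, 0), lfQ (5 + 1) (5 + 1)⟩,
    ⟨beM 2 (4 + 1), mono (0, 0), lfQ (4 + 1) (4 + 1)⟩,
    ⟨beM 2 (3 + 1), mono (0, 0), lfQ (3 + 1) (3 + 1)⟩,
    ⟨beM 2 (2 + 1), mono (0, 0), lfQ (2 + 1) (2 + 1)⟩,
    ⟨beM 2 (1 + 1), mono (0, 0), lfQ (1 + 1) (1 + 1)⟩] := by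
    simp [t4Terms]
  rw [hexp]
  simp only [tsEval_cons, tsEval_nil]
  rw [key 6 (by norm_num), key 5 (by norm_num), key 4 (by norm_num), key 3 (by norm_num),
    key 2 (by norm_num), key 1 (by norm_num)]
  have h0 := QQ_one ξ y
  simp only [Finset.sum_range_succ, Finset.sum_range_zero, Complex.add_re, Complex.zero_re, zero_add,
    h0, mul_zero]
  ring

theorem tsEval_t5 : tsEval (envOf al be chi κ) ξ (vOf y τ η) (t5Terms 6)
    = - (2 * (∑ k ∈ Finset.range 6, be (k + 1) * (starRingEnd ℂ) (YY ξ y) * TT ξ τ (k + 1)).re) := by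
  have key : ∀ k, k ≤ 5 → Term.eval (envOf al be chi κ) ξ (vOf y τ η)
      ⟨beM (-2) (k + 1), lfY, lfT (k + 1)⟩
      = -2 * (be (k + 1) * (starRingEnd ℂ) (YY ξ y) * TT ξ τ (k + 1)).re := by
    intro k h2
    simp only [Term.eval]
    rw [eval_beM al be chi κ _ (by omega), LFeval_T ξ y τ η _ (by omega) (by omega), LFeval_Y, vOf_zero]
    have : ((-2 : ℤ) : ℂ) * be (k + 1) * (starRingEnd ℂ) (YY ξ y) * TT ξ τ (k + 1)
        = ((-2 : ℝ) : ℂ) * (be (k + 1) * (starRingEnd ℂ) (YY ξ y) * TT ξ τ (k + 1)) := by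
      push_cast
      ring
    rw [this, Complex.re_ofReal_mul]
  simp only [t5Terms, tsEval_cons, tsEval_nil]
  rw [key 5 (by norm_num), key 4 (by norm_num), key 3 (by norm_num),
    key 2 (by norm_num), key 1 (by norm_num), key 0 (by norm_num)]
  simp only [Finset.sum_range_succ, Finset.sum_range_zero, Complex.add_re, Complex.zero_re]
  ring

theorem tsEval_t6 : tsEval (envOf al be chi κ) ξ (vOf y τ η) (t6Terms 6)
    = 2 * (∑ k ∈ Finset.range 6, (starRingEnd ℂ) (be (k + 1)) * (starRingEnd ℂ) (YY ξ y) * VV chi ξ y τ (k + 1)).re := by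
  have key : ∀ k, k ≤ 5 → Term.eval (envOf al be chi κ) ξ (vOf y τ η)
      ⟨CE.conj (beM 2 (k + 1)), lfY, lfV (k + 1)⟩
      = 2 * ((starRingEnd ℂ) (be (k + 1)) * (starRingEnd ℂ) (YY ξ y) * VV chi ξ y τ (k + 1)).re := by
    intro k h2
    simp only [Term.eval, CE.eval]
    rw [eval_beM al be chi κ _ (by omega), LFeval_V al be chi κ ξ y τ η (by omega) (by omega),
      LFeval_Y, vOf_zero]
    have hn : (starRingEnd ℂ) ((2 : ℤ) : ℂ) = 2 := by
      rw [map_intCast]; norm_num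
    have : (starRingEnd ℂ) (((2 : ℤ) : ℂ) * be (k + 1)) * (starRingEnd ℂ) (YY ξ y) * VV chi ξ y τ (k + 1)
        = ((2 : ℝ) : ℂ) * ((starRingEnd ℂ) (be (k + 1)) * (starRingEnd ℂ) (YY ξ y) * VV chi ξ y τ (k + 1)) := by
      rw [map_mul, hn]
      push_cast
      ring
    rw [this, Complex.re_ofReal_mul]
  simp only [t6Terms, tsEval_cons, tsEval_nil]
  rw [key 5 (by norm_num), key 4 (by norm_num), key 3 (by norm_num),
    key 2 (by norm_num), key 1 (by norm_num), key 0 (by norm_num)]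
  simp only [Finset.sum_range_succ, Finset.sum_range_zero, Complex.add_re, Complex.zero_re]
  ring

theorem tsEval_mainForm (h0 : τ 0 = 0) :
    tsEval (envOf al be chi κ) ξ (vOf y τ η) mainForm
      = MainR al be chi κ ξ y τ (Aof al τ η) + 10 ^ 4 * ‖η‖ ^ 2 := by
  unfold mainForm
  simp only [tsEval_append, tsEval_cons]
  rw [tsEval_nTerms ξ _ _ 1 _ (fun k => τ k)
      (fun k h1 h2 => by rw [LFeval_tau ξ y τ η _ 0 h1 h2]; simp),
    tsEval_nTerms ξ _ _ (-1) _ (fun k => TP ξ y (Aof al τ η) τ k)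
      (fun k h1 h2 => LFeval_Tp al be chi κ ξ y τ η h0 h1 (by omega)),
    tsEval_nTerms ξ _ _ (-1) _ (fun k => TT ξ τ k)
      (fun k h1 h2 => LFeval_T ξ y τ η _ h1 h2),
    tsEval_nTerms_conj ξ _ _ 1 _ (fun k => VV chi ξ y τ k)
      (fun k h1 h2 => LFeval_V al be chi κ ξ y τ η h1 h2),
    tsEval_t2 al be chi κ ξ y τ η h0, tsEval_t3, tsEval_t4, tsEval_t5, tsEval_t6]
  rw [term_eval_sq, LFeval_Tp al be chi κ ξ y τ η h0 (by norm_num) (by norm_num), term_eval_sq]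
  have e1 : Term.eval (envOf al be chi κ) ξ (vOf y τ η)
      ⟨CE.add (CE.lit 1 0 1) (CE.neg (CE.add (CE.var 10) (CE.conj (CE.var 10)))), lfA, lfA⟩
      = (1 - 2 * (be 0).re) * ‖Aof al τ η‖ ^ 2 := by
    simp only [Term.eval, CE.eval]
    rw [LFeval_A, mul_assoc, conj_mul_self_re]
    have e : envOf al be chi κ 10 = be 0 := rfl
    rw [e]
    have : (((1 : ℤ) : ℂ) + ((0 : ℤ) : ℂ) * I) / ((1 : ℕ) : ℂ) + -(be 0 + (starRingEnd ℂ) (be 0))
        = ((1 - 2 * (be 0).re : ℝ) : ℂ) := by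
      rw [Complex.add_conj]; push_cast; ring
    rw [this, Complex.re_ofReal_mul, Complex.ofReal_re]
  have e2 : Term.eval (envOf al be chi κ) ξ (vOf y τ η) ⟨CE.var 30, mono (0, 0), mono (0, 0)⟩
      = κ * ‖y‖ ^ 2 := by
    simp only [Term.eval, CE.eval, LFeval_mono]
    have e : envOf al be chi κ 30 = (κ : ℂ) := rfl
    rw [e, mul_assoc, conj_mul_self_re, Complex.re_ofReal_mul, Complex.ofReal_re]
    simp [lv, vOf_zero]
  have e3 : LFeval (envOf al be chi κ) ξ (vOf y τ η) [((7, 0), CE.lit 1 0 1)] = 100 * η := by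
    simp [LFeval, CE.eval, lv, vOf_seven]
  have e4 : ‖(100 : ℂ) * η‖ ^ 2 = 10 ^ 4 * ‖η‖ ^ 2 := by
    rw [norm_mul, mul_pow]; norm_num
  rw [e1, e2, e3, e4]
  unfold MainR c7
  push_cast
  ring

end Pool.Agent.H81.W
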