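import Pool.Agent.H81.W.MainEval

set_option autoImplicit false

namespace Pool.Agent.H81.W

open Complex

/-- the certified lower bound of the main form -/
theorem main_lower {al be chi : ℕ → ℂ} {κ : ℝ}
    (hmem : ∀ i, (benvMain i).Mem (envOf al be chi κ i)) {ξ : ℂ} (hξ : ‖ξ‖ = 1) (y : ℂ)
    (τ : ℕ → ℂ) (h0 : τ 0 = 0) (η : ℂ) :
    27 / 10000 * ‖y‖ ^ 2
      + 37 / 10000 * (‖vOf y τ η 1‖ ^ 2 + ‖vOf y τ η 2‖ ^ 2 + ‖vOf y τ η 3‖ ^ 2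
        + ‖vOf y τ η 4‖ ^ 2 + ‖vOf y τ η 5‖ ^ 2 + ‖vOf y τ η 6‖ ^ 2)
      ≤ MainR al be chi κ ξ y τ (Aof al τ η) + 92 / 100 * (10 ^ 4 * ‖η‖ ^ 2) := by
  have h := mainCert.sound hmem mainForm mainCheck hξ (vOf y τ η)
  rw [tsEval_mainForm al be chi κ ξ y τ η h0] at h
  have h7 : ‖vOf y τ η 7‖ ^ 2 = 10 ^ 4 * ‖η‖ ^ 2 := by
    rw [vOf_seven, norm_mul, mul_pow]; norm_num
  have hy : ‖vOf y τ η 0‖ ^ 2 = ‖y‖ ^ 2 := by rw [vOf_zero]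
  simp only [mainCert, diagVal, nsum2, certKeys, certDiag, colDen, List.map_cons, List.map_nil,
    List.sum_cons, List.sum_nil, List.length_cons, List.length_nil, h7, hy] at h
  push_cast at h
  have p0 := sq_nonneg ‖y‖
  have p1 := sq_nonneg ‖vOf y τ η 1‖
  have p2 := sq_nonneg ‖vOf y τ η 2‖
  have p3 := sq_nonneg ‖vOf y τ η 3‖
  have p4 := sq_nonneg ‖vOf y τ η 4‖
  have p5 := sq_nonneg ‖vOf y τ η 5‖
  have p6 := sq_nonneg ‖vOf y τ η 6‖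
  have p7 : 0 ≤ (10 : ℝ) ^ 4 * ‖η‖ ^ 2 := by positivity
  linarith

end Pool.Agent.H81.W
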