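import Pool.Agent.H81.W.Ident

set_option autoImplicit false
set_option linter.unusedVariables false
set_option linter.unusedSimpArgs false

/-!
# Tail estimates
-/

namespace Pool.Agent.H81.W

open Complex

theorem tsum_half : ∑' k : ℕ, ((1 : ℝ) / 2) ^ (k + 1) = 1 := by
  have h : ∀ k : ℕ, ((1 : ℝ) / 2) ^ (k + 1) = (1 / 2) ^ k * (1 / 2) := fun k => pow_succ _ _
  rw [tsum_congr h, tsum_mul_right, tsum_geometric_two]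
  norm_num

theorem summable_half : Summable (fun k : ℕ => ((1 : ℝ) / 2) ^ (k + 1)) := by
  have h : ∀ k : ℕ, ((1 : ℝ) / 2) ^ (k + 1) = (1 / 2) ^ k * (1 / 2) := fun k => pow_succ _ _
  simp only [h]
  exact (summable_geometric_of_lt_one (by norm_num) (by norm_num)).mul_right _

theorem tail_r {f e : ℕ → ℝ} (he : Summable e) (hf : Summable f) {a G : ℝ}
    (h : ∀ k, f k ≤ a * e k + G * (1 / 2) ^ (k + 1)) : ∑' k, f k ≤ a * ∑' k, e k + G := by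
  have s1 : Summable (fun k => a * e k) := he.mul_left a
  have s2 : Summable (fun k : ℕ => G * ((1 : ℝ) / 2) ^ (k + 1)) := summable_half.mul_left G
  have h1 : ∑' k, f k ≤ ∑' k, (a * e k + G * (1 / 2) ^ (k + 1)) := hf.tsum_le_tsum h (s1.add s2)
  rw [s1.tsum_add s2, tsum_mul_left, tsum_mul_left, tsum_half, mul_one] at h1
  exact h1

theorem tail_c {g : ℕ → ℂ} {e : ℕ → ℝ} (he : Summable e) {a G : ℝ}
    (h : ∀ k, 2 * ‖g k‖ ≤ a * e k + G * (1 / 2) ^ (k + 1)) :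
    |2 * (∑' k, g k).re| ≤ a * ∑' k, e k + G := by
  have s1 : Summable (fun k => a * e k) := he.mul_left a
  have s2 : Summable (fun k : ℕ => G * ((1 : ℝ) / 2) ^ (k + 1)) := summable_half.mul_left G
  have sg : Summable (fun k => 2 * ‖g k‖) :=
    Summable.of_nonneg_of_le (fun k => by positivity) h (s1.add s2)
  have sg1 : Summable (fun k => ‖g k‖) := by
    have := sg.mul_left (1 / 2)
    refine this.congr (fun k => ?_)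
    ring
  have h1 := tail_r he sg h
  rw [tsum_mul_left] at h1
  have h2 : ‖∑' k, g k‖ ≤ ∑' k, ‖g k‖ := norm_tsum_le_tsum_norm sg1
  have h3 := Complex.abs_re_le_norm (∑' k, g k)
  rw [abs_mul, abs_of_pos (by norm_num : (0 : ℝ) < 2)]
  linarith

theorem amgm {a b c : ℝ} (hc : 0 < c) : 2 * a * b ≤ c * a ^ 2 + b ^ 2 / c := by
  have h : 0 ≤ (c * a - b) ^ 2 / c := by positivity
  have h2 : (c * a - b) ^ 2 / c = c * a ^ 2 - 2 * a * b + b ^ 2 / c := by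
    field_simp
    ring
  linarith

theorem k8_le (k : ℕ) : ((k : ℝ) + 8) ^ 2 * (1 / 2) ^ k ≤ 64 := by
  induction k with
  | zero => norm_num
  | succ k ih =>
    have h : (0 : ℝ) ≤ (1 / 2) ^ k := by positivity
    have h1 : ((1 : ℝ) / 2) ^ (k + 1) = (1 / 2) ^ k * (1 / 2) := pow_succ _ _
    rw [h1]
    push_cast
    have h2 : ((k : ℝ) + 1 + 8) ^ 2 ≤ 2 * ((k : ℝ) + 8) ^ 2 := by
      have : (0 : ℝ) ≤ k := Nat.cast_nonneg k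
      nlinarith
    nlinarith

theorem pow4 (k : ℕ) : ((1 : ℝ) / 4) ^ k = ((1 / 2) ^ k) ^ 2 := by
  rw [← pow_mul, mul_comm, pow_mul]; norm_num

theorem pow8 (k : ℕ) : ((1 : ℝ) / 8) ^ k = ((1 / 2) ^ k) ^ 3 := by
  rw [← pow_mul, mul_comm, pow_mul]; norm_num

theorem half_pos (k : ℕ) : 0 < ((1 : ℝ) / 2) ^ k := by positivity
theorem half_le (k : ℕ) : ((1 : ℝ) / 2) ^ k ≤ 1 := pow_le_one₀ (by norm_num) (by norm_num)
theorem half_succ (k : ℕ) : ((1 : ℝ) / 2) ^ (k + 1) = (1 / 2) ^ k / 2 := by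
  rw [pow_succ]; ring

/-- energy of the tail -/
noncomputable def en (τ : ℕ → ℂ) (k : ℕ) : ℝ := c7 * ((1 / 4) ^ k * ‖τ (k + 7)‖ ^ 2)

theorem c7_pos : 0 < c7 := by unfold c7; norm_num

theorem en_nonneg (τ : ℕ → ℂ) (k : ℕ) : 0 ≤ en τ k := by
  unfold en
  have := c7_pos
  positivity

theorem summable_en0 {τ : ℕ → ℂ} (hτ : Gb (3 / 2) τ) :
    Summable (fun k => ((1 : ℝ) / 4) ^ k * ‖τ (k + 7)‖ ^ 2) := by
  obtain ⟨M, hM, hk⟩ := hτ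
  refine Summable.of_nonneg_of_le (f := fun k => (M ^ 2 * (3 / 2) ^ 14) * (9 / 16 : ℝ) ^ k)
    (fun k => by positivity) (fun k => ?_)
    ((summable_geometric_of_lt_one (by norm_num) (by norm_num)).mul_left _)
  have h1 := hk (k + 7)
  have h2 : ‖τ (k + 7)‖ ^ 2 ≤ (M * (3 / 2) ^ (k + 7)) ^ 2 := pow_le_pow_left₀ (norm_nonneg _) h1 2
  calc ((1 : ℝ) / 4) ^ k * ‖τ (k + 7)‖ ^ 2 ≤ (1 / 4) ^ k * (M * (3 / 2) ^ (k + 7)) ^ 2 :=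
        mul_le_mul_of_nonneg_left h2 (by positivity)
    _ = (M ^ 2 * (3 / 2) ^ 14) * ((1 / 4) ^ k * ((3 / 2) ^ 2) ^ k) := by
        rw [pow_add, ← pow_mul, mul_comm 2 k, pow_mul]; ring
    _ = _ := by rw [← mul_pow]; norm_num

theorem summable_en {τ : ℕ → ℂ} (hτ : Gb (3 / 2) τ) : Summable (en τ) :=
  (summable_en0 hτ).mul_left c7

section bounds
variable {al be chi : ℕ → ℂ} {κ : ℝ} (C : CData al be chi κ) {ξ : ℂ} (hξ : ‖ξ‖ = 1) (y A : ℂ)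
  {τ : ℕ → ℂ} (hτ : Gb (3 / 2) τ)

include hξ in
theorem PPA_sq_le (k : ℕ) : ‖PP ξ y (k + 7 + 1) - A‖ ^ 2 * (1 / 2) ^ k
    ≤ 128 * ‖y‖ ^ 2 + 2 * (1 / 2) ^ k * ‖A‖ ^ 2 := by
  have h1 : ‖PP ξ y (k + 7 + 1)‖ ≤ ((k : ℝ) + 8) * ‖y‖ := by
    have := norm_PP_le hξ y (k + 7 + 1)
    push_cast at this
    calc _ ≤ _ := this
      _ = _ := by ring
  have h2 : ‖PP ξ y (k + 7 + 1) - A‖ ≤ ((k : ℝ) + 8) * ‖y‖ + ‖A‖ :=
    (norm_sub_le _ _).trans (by linarith)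
  have h3 : ‖PP ξ y (k + 7 + 1) - A‖ ^ 2 ≤ 2 * (((k : ℝ) + 8) ^ 2 * ‖y‖ ^ 2) + 2 * ‖A‖ ^ 2 := by
    have := pow_le_pow_left₀ (norm_nonneg _) h2 2
    nlinarith [sq_nonneg (((k : ℝ) + 8) * ‖y‖ - ‖A‖)]
  have h4 := k8_le k
  have h5 := half_pos k
  have h6 : ‖PP ξ y (k + 7 + 1) - A‖ ^ 2 * (1 / 2) ^ k
      ≤ (2 * (((k : ℝ) + 8) ^ 2 * ‖y‖ ^ 2) + 2 * ‖A‖ ^ 2) * (1 / 2) ^ k :=
    mul_le_mul_of_nonneg_right h3 h5.le
  have h7 : (((k : ℝ) + 8) ^ 2 * (1 / 2) ^ k) * ‖y‖ ^ 2 ≤ 64 * ‖y‖ ^ 2 :=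
    mul_le_mul_of_nonneg_right h4 (by positivity)
  nlinarith

include C in
theorem CData.be8 (k : ℕ) : ‖be (k + 7 + 1)‖ ≤ (2 / 10 ^ 6 : ℝ) / 8 * ((1 / 2) ^ k) ^ 3 := by
  have := C.be_tail (k + 1)
  rw [show k + 7 + 1 = k + 1 + 7 by ring]
  refine this.trans (le_of_eq ?_)
  rw [pow_succ, pow8]; ring

include C in
theorem CData.be7 (k : ℕ) : ‖be (k + 7)‖ ≤ (2 / 10 ^ 6 : ℝ) * ((1 / 2) ^ k) ^ 3 := by
  have := C.be_tail k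
  rwa [pow8] at this

include hξ hτ in
theorem Gb_TP : Gb (3 / 2) (TP ξ y A τ) := by
  have h1 : Gb (3 / 2) (fun k => ξ ^ k * τ (k - 1)) := by
    obtain ⟨M, hM, hk⟩ := hτ
    refine ⟨M, hM, fun k => ?_⟩
    rw [norm_mul, norm_pow, hξ, one_pow, one_mul]
    refine (hk (k - 1)).trans (mul_le_mul_of_nonneg_left ?_ hM)
    exact pow_le_pow_right₀ (by norm_num) (Nat.sub_le k 1)
  exact (h1.add (Gb_PP hξ y)).sub (Gb.const (by norm_num) A)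

omit hξ in
include hτ in
theorem Gb_TT : Gb (3 / 2) (TT ξ τ) := hτ.const_mul _

omit hξ in
include C hτ in
theorem Gb_VV : Gb (3 / 2) (VV chi ξ y τ) := by
  have h1 : Gb (3 / 2) (fun k => (starRingEnd ℂ) (chi k) * TT ξ τ k) :=
    (Gb_TT (ξ := ξ) hτ).unim_mul (fun k => by rw [RCLike.norm_conj, C.chi_norm k]) (by norm_num)
  have h2 : Gb (3 / 2) (fun k => ((starRingEnd ℂ) (chi k) - 1) * YY ξ y) := by
    refine ⟨2 * ‖YY ξ y‖, by positivity, fun k => ?_⟩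
    have h3 : ‖(starRingEnd ℂ) (chi k) - 1‖ ≤ 2 := by
      refine (norm_sub_le _ _).trans ?_
      rw [RCLike.norm_conj, C.chi_norm k]; norm_num
    have h4 : (1 : ℝ) ≤ (3 / 2) ^ k := one_le_pow₀ (by norm_num)
    rw [norm_mul]
    have h5 : 0 ≤ ‖YY ξ y‖ := norm_nonneg _
    nlinarith [mul_le_mul_of_nonneg_right h3 h5]
  exact h1.add h2

include hξ in
theorem norm_YY_le : ‖YY ξ y‖ ≤ ‖y‖ := by
  unfold YY
  rw [norm_mul]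
  have : ‖(1 + ξ) / 2‖ ≤ 1 := by
    rw [norm_div]
    have h1 : ‖(1 : ℂ) + ξ‖ ≤ 2 := (norm_add_le _ _).trans (by rw [hξ]; norm_num)
    have h2 : ‖(2 : ℂ)‖ = 2 := by simp
    rw [h2]; linarith
  calc _ ≤ 1 * ‖y‖ := mul_le_mul_of_nonneg_right this (norm_nonneg _)
    _ = _ := one_mul _

include hξ in
theorem norm_g_le : ‖(ξ ^ 2 - 1) / 2‖ ≤ 1 := by
  rw [norm_div]
  have h1 : ‖ξ ^ 2 - 1‖ ≤ 2 := (norm_sub_le _ _).trans (by rw [norm_pow, hξ]; norm_num)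
  have h2 : ‖(2 : ℂ)‖ = 2 := by simp
  rw [h2]; linarith

include hξ in
theorem norm_TT_le (k : ℕ) : ‖TT ξ τ k‖ ≤ ‖τ k‖ := by
  unfold TT
  rw [norm_mul]
  calc _ ≤ 1 * ‖τ k‖ := mul_le_mul_of_nonneg_right (norm_g_le hξ) (norm_nonneg _)
    _ = _ := one_mul _

include C hξ in
theorem norm_VV_le (k : ℕ) : ‖VV chi ξ y τ k‖ ≤ ‖τ k‖ + 2 * ‖y‖ := by
  unfold VV
  have h3 : ‖(starRingEnd ℂ) (chi k) - 1‖ ≤ 2 := by
    refine (norm_sub_le _ _).trans ?_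
    rw [RCLike.norm_conj, C.chi_norm k]; norm_num
  refine (norm_add_le _ _).trans ?_
  rw [norm_mul, norm_mul, RCLike.norm_conj, C.chi_norm k, one_mul]
  have h4 := norm_TT_le (τ := τ) hξ k
  have h5 := norm_YY_le hξ y
  have h6 : ‖(starRingEnd ℂ) (chi k) - 1‖ * ‖YY ξ y‖ ≤ 2 * ‖y‖ :=
    mul_le_mul h3 h5 (norm_nonneg _) (by norm_num)
  linarith

include C hξ in
theorem norm_VV_ge (k : ℕ) : ‖TT ξ τ k‖ - 2 * ‖y‖ ≤ ‖VV chi ξ y τ k‖ := by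
  unfold VV
  have h3 : ‖(starRingEnd ℂ) (chi k) - 1‖ ≤ 2 := by
    refine (norm_sub_le _ _).trans ?_
    rw [RCLike.norm_conj, C.chi_norm k]; norm_num
  have h5 := norm_YY_le hξ y
  have h6 : ‖((starRingEnd ℂ) (chi k) - 1) * YY ξ y‖ ≤ 2 * ‖y‖ := by
    rw [norm_mul]; exact mul_le_mul h3 h5 (norm_nonneg _) (by norm_num)
  have h7 : ‖(starRingEnd ℂ) (chi k) * TT ξ τ k‖ = ‖TT ξ τ k‖ := by
    rw [norm_mul, RCLike.norm_conj, C.chi_norm k, one_mul]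
  have h8 : ‖(starRingEnd ℂ) (chi k) * TT ξ τ k‖ ≤ ‖(starRingEnd ℂ) (chi k) * TT ξ τ k + ((starRingEnd ℂ) (chi k) - 1) * YY ξ y‖
      + ‖((starRingEnd ℂ) (chi k) - 1) * YY ξ y‖ := by
    have := norm_sub_le ((starRingEnd ℂ) (chi k) * TT ξ τ k + ((starRingEnd ℂ) (chi k) - 1) * YY ξ y)
      (((starRingEnd ℂ) (chi k) - 1) * YY ξ y)
    rwa [add_sub_cancel_right] at this
  linarith

include hξ hτ in
theorem B1 : c7 * ∑' k : ℕ, ((1 : ℝ) / 4) ^ (k + 1) * ‖TP ξ y A τ (k + 7 + 1)‖ ^ 2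
    ≤ 1 / 2 * ∑' k, en τ k + (128 * c7 * ‖y‖ ^ 2 + 2 * c7 * ‖A‖ ^ 2) := by
  rw [← tsum_mul_left]
  have hs : Summable (fun k : ℕ => c7 * (((1 : ℝ) / 4) ^ (k + 1) * ‖TP ξ y A τ (k + 7 + 1)‖ ^ 2)) := by
    have h := (summable_en (Gb_TP hξ y A hτ))
    have h2 := (summable_nat_add_iff 1).mpr h
    refine h2.congr fun k => ?_
    unfold en
    rw [show k + 1 + 7 = k + 7 + 1 by ring]
  refine tail_r (summable_en hτ) hs fun k => ?_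
  have hp := half_pos k
  have hl := half_le k
  have hTP : ‖TP ξ y A τ (k + 7 + 1)‖ ^ 2 ≤ 2 * ‖τ (k + 7)‖ ^ 2 + 2 * ‖PP ξ y (k + 7 + 1) - A‖ ^ 2 := by
    have h1 : TP ξ y A τ (k + 7 + 1) = ξ ^ (k + 7 + 1) * τ (k + 7) + (PP ξ y (k + 7 + 1) - A) := by
      unfold TP; rw [Nat.add_sub_cancel]; ring
    have h2 : ‖TP ξ y A τ (k + 7 + 1)‖ ≤ ‖τ (k + 7)‖ + ‖PP ξ y (k + 7 + 1) - A‖ := by
      rw [h1]
      refine (norm_add_le _ _).trans ?_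
      rw [norm_mul, norm_pow, hξ, one_pow, one_mul]
    have := pow_le_pow_left₀ (norm_nonneg _) h2 2
    nlinarith [sq_nonneg (‖τ (k + 7)‖ - ‖PP ξ y (k + 7 + 1) - A‖)]
  have hPA := PPA_sq_le hξ y A k
  unfold en
  rw [pow_succ, pow4, half_succ]
  set q := ((1 : ℝ) / 2) ^ k with hq
  set x := ‖τ (k + 7)‖ ^ 2
  set p := ‖PP ξ y (k + 7 + 1) - A‖ ^ 2 with hp'
  have hx : 0 ≤ x := by positivity
  have hpp : 0 ≤ p := by positivity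
  have hc := c7_pos
  have h1 : q ^ 2 * (1 / 4) * ‖TP ξ y A τ (k + 7 + 1)‖ ^ 2 ≤ q ^ 2 * (1 / 4) * (2 * x + 2 * p) :=
    mul_le_mul_of_nonneg_left hTP (by positivity)
  have h2 : q ^ 2 * p ≤ q * (128 * ‖y‖ ^ 2 + 2 * q * ‖A‖ ^ 2) := by
    have := mul_le_mul_of_nonneg_left hPA hp.le
    nlinarith
  have h3 : q * (2 * q * ‖A‖ ^ 2) ≤ q * (2 * ‖A‖ ^ 2) := by
    have : 2 * q * ‖A‖ ^ 2 ≤ 2 * ‖A‖ ^ 2 := by nlinarith [sq_nonneg ‖A‖]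
    exact mul_le_mul_of_nonneg_left this hp.le
  have h4 : q ^ 2 * (1 / 4) * ‖TP ξ y A τ (k + 7 + 1)‖ ^ 2
      ≤ 1 / 2 * (q ^ 2 * x) + (128 * ‖y‖ ^ 2 + 2 * ‖A‖ ^ 2) * (q / 2) := by
    nlinarith
  have h5 := mul_le_mul_of_nonneg_left h4 hc.le
  calc c7 * (q ^ 2 * (1 / 4) * ‖TP ξ y A τ (k + 7 + 1)‖ ^ 2) ≤ _ := h5
    _ = _ := by ring

include C hξ hτ in
theorem B2 : |2 * (∑' k : ℕ, be (k + 7 + 1) * (starRingEnd ℂ) (PP ξ y (k + 7 + 1) - A)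
      * (ξ ^ (k + 7 + 1) * τ (k + 7))).re|
    ≤ 1 / 8 * ∑' k, en τ k + ((2 / 10 ^ 6) ^ 2 / (8 * c7)) * (256 * ‖y‖ ^ 2 + 4 * ‖A‖ ^ 2) := by
  refine tail_c (summable_en hτ) fun k => ?_
  have hp := half_pos k
  have hl := half_le k
  have hPA := PPA_sq_le hξ y A k
  have hb := C.be8 k
  rw [norm_mul, norm_mul, norm_mul, norm_pow, hξ, one_pow, one_mul, RCLike.norm_conj]
  unfold en
  rw [pow4, half_succ]
  set q := ((1 : ℝ) / 2) ^ k with hq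
  set x := ‖τ (k + 7)‖
  set p := ‖PP ξ y (k + 7 + 1) - A‖ with hp'
  have hx : 0 ≤ x := norm_nonneg _
  have hpp : 0 ≤ p := norm_nonneg _
  have hc := c7_pos
  have h1 : 2 * (‖be (k + 7 + 1)‖ * p * x) ≤ 2 * x * ((2 / 10 ^ 6) / 8 * q ^ 3 * p) := by
    have := mul_le_mul_of_nonneg_right hb (mul_nonneg hpp hx)
    nlinarith
  have h2 := amgm (a := x) (b := (2 / 10 ^ 6) / 8 * q ^ 3 * p) (c := c7 / 8 * q ^ 2) (by positivity)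
  have h3 : ((2 / 10 ^ 6) / 8 * q ^ 3 * p) ^ 2 / (c7 / 8 * q ^ 2)
      = ((2 / 10 ^ 6) ^ 2 / (8 * c7)) * (q ^ 3 * (p ^ 2 * q)) := by
    field_simp
  have h4 : q ^ 3 * (p ^ 2 * q) ≤ q * (128 * ‖y‖ ^ 2 + 2 * ‖A‖ ^ 2) := by
    have h5 : 2 * q * ‖A‖ ^ 2 ≤ 2 * ‖A‖ ^ 2 := by nlinarith [sq_nonneg ‖A‖]
    have h6 : p ^ 2 * q ≤ 128 * ‖y‖ ^ 2 + 2 * ‖A‖ ^ 2 := by linarith
    have h7 : q ^ 3 ≤ q := by
      have : q ^ 3 = q * q ^ 2 := by ring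
      rw [this]
      have : q ^ 2 ≤ 1 := pow_le_one₀ hp.le hl
      nlinarith
    calc q ^ 3 * (p ^ 2 * q) ≤ q * (p ^ 2 * q) := mul_le_mul_of_nonneg_right h7 (by positivity)
      _ ≤ _ := mul_le_mul_of_nonneg_left h6 hp.le
  have h8 : ((2 / 10 ^ 6) ^ 2 / (8 * c7)) * (q ^ 3 * (p ^ 2 * q))
      ≤ ((2 / 10 ^ 6) ^ 2 / (8 * c7)) * (q * (128 * ‖y‖ ^ 2 + 2 * ‖A‖ ^ 2)) :=
    mul_le_mul_of_nonneg_left h4 (by positivity)
  rw [h3] at h2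
  calc 2 * (‖be (k + 7 + 1)‖ * p * x) ≤ _ := h1
    _ ≤ _ := h2
    _ ≤ c7 / 8 * q ^ 2 * x ^ 2
        + ((2 / 10 ^ 6) ^ 2 / (8 * c7)) * (q * (128 * ‖y‖ ^ 2 + 2 * ‖A‖ ^ 2)) := by linarith
    _ = _ := by ring

theorem k8_lin (k : ℕ) : ((k : ℝ) + 8) * ((1 / 2) ^ k) ≤ 8 := by
  have h := k8_le k
  have hp := half_pos k
  have hk : (0 : ℝ) ≤ k := Nat.cast_nonneg k
  nlinarith

include C hξ in
theorem B3 : |2 * (∑' k : ℕ, be (k + 7 + 1) * (starRingEnd ℂ) A * PP ξ y (k + 7 + 1)).re|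
    ≤ 4 / 10 ^ 6 * (‖A‖ ^ 2 + ‖y‖ ^ 2) := by
  have h0 := tail_c (g := fun k => be (k + 7 + 1) * (starRingEnd ℂ) A * PP ξ y (k + 7 + 1))
    (e := fun _ => 0) summable_zero (a := 0) (G := 4 / 10 ^ 6 * (‖A‖ ^ 2 + ‖y‖ ^ 2)) ?_
  · simpa using h0
  intro k
  have hp := half_pos k
  have hl := half_le k
  have hb := C.be8 k
  have hP := norm_PP_le hξ y (k + 7 + 1)
  have hk := k8_lin k
  rw [norm_mul, norm_mul, RCLike.norm_conj, half_succ]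
  push_cast at hP
  set q := ((1 : ℝ) / 2) ^ k with hq
  set p := ‖PP ξ y (k + 7 + 1)‖ with hp'
  have hpp : 0 ≤ p := norm_nonneg _
  have hA : 0 ≤ ‖A‖ := norm_nonneg _
  have hy : 0 ≤ ‖y‖ := norm_nonneg _
  have hP2 : q * p ≤ 8 * ‖y‖ := by
    have h1 : q * p ≤ q * (((k : ℝ) + 7 + 1) * ‖y‖) := mul_le_mul_of_nonneg_left hP hp.le
    have h2 : q * (((k : ℝ) + 7 + 1) * ‖y‖) = (((k : ℝ) + 8) * q) * ‖y‖ := by ring
    have h3 : (((k : ℝ) + 8) * q) * ‖y‖ ≤ 8 * ‖y‖ := mul_le_mul_of_nonneg_right hk hy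
    linarith
  have h1 : 2 * (‖be (k + 7 + 1)‖ * ‖A‖ * p) ≤ 2 * ((2 / 10 ^ 6 : ℝ) / 8 * q ^ 3 * (‖A‖ * p)) := by
    have := mul_le_mul_of_nonneg_right hb (mul_nonneg hA hpp)
    nlinarith
  have h2 : q ^ 3 * (‖A‖ * p) ≤ q * (8 * ‖A‖ * ‖y‖) := by
    have h3 : q ^ 2 ≤ q := by nlinarith
    have h4 : q ^ 3 * (‖A‖ * p) = q ^ 2 * (‖A‖ * (q * p)) := by ring
    rw [h4]
    calc q ^ 2 * (‖A‖ * (q * p)) ≤ q ^ 2 * (‖A‖ * (8 * ‖y‖)) := by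
          refine mul_le_mul_of_nonneg_left (mul_le_mul_of_nonneg_left hP2 hA) (by positivity)
      _ ≤ q * (‖A‖ * (8 * ‖y‖)) := mul_le_mul_of_nonneg_right h3 (by positivity)
      _ = _ := by ring
  have h5 : 2 * ‖A‖ * ‖y‖ ≤ ‖A‖ ^ 2 + ‖y‖ ^ 2 := two_mul_le_add_sq _ _
  have h6 : q * (2 * ‖A‖ * ‖y‖) ≤ q * (‖A‖ ^ 2 + ‖y‖ ^ 2) := mul_le_mul_of_nonneg_left h5 hp.le
  nlinarith

include C hξ in
theorem B4 : |2 * (∑' k : ℕ, be (k + 7 + 1) * (starRingEnd ℂ) y * QQ ξ y (k + 7 + 1)).re|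
    ≤ 32 / 10 ^ 6 * ‖y‖ ^ 2 := by
  have h0 := tail_c (g := fun k => be (k + 7 + 1) * (starRingEnd ℂ) y * QQ ξ y (k + 7 + 1))
    (e := fun _ => 0) summable_zero (a := 0) (G := 32 / 10 ^ 6 * ‖y‖ ^ 2) ?_
  · simpa using h0
  intro k
  have hp := half_pos k
  have hl := half_le k
  have hb := C.be8 k
  have hP := norm_QQ_le hξ y (k + 7 + 1)
  have hk := k8_le k
  rw [norm_mul, norm_mul, RCLike.norm_conj, half_succ]
  push_cast at hP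
  set q := ((1 : ℝ) / 2) ^ k with hq
  set p := ‖QQ ξ y (k + 7 + 1)‖ with hp'
  have hpp : 0 ≤ p := norm_nonneg _
  have hy : 0 ≤ ‖y‖ := norm_nonneg _
  have hP2 : q * p ≤ 32 * ‖y‖ := by
    have h1 : q * p ≤ q * (((k : ℝ) + 7 + 1) ^ 2 / 2 * ‖y‖) := mul_le_mul_of_nonneg_left hP hp.le
    have h2 : q * (((k : ℝ) + 7 + 1) ^ 2 / 2 * ‖y‖) = (((k : ℝ) + 8) ^ 2 * q) * ‖y‖ / 2 := by ring
    have h3 : (((k : ℝ) + 8) ^ 2 * q) * ‖y‖ ≤ 64 * ‖y‖ := mul_le_mul_of_nonneg_right hk hy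
    linarith
  have h1 : 2 * (‖be (k + 7 + 1)‖ * ‖y‖ * p) ≤ 2 * ((2 / 10 ^ 6 : ℝ) / 8 * q ^ 3 * (‖y‖ * p)) := by
    have := mul_le_mul_of_nonneg_right hb (mul_nonneg hy hpp)
    nlinarith
  have h2 : q ^ 3 * (‖y‖ * p) ≤ q * (32 * ‖y‖ * ‖y‖) := by
    have h3 : q ^ 2 ≤ q := by nlinarith
    have h4 : q ^ 3 * (‖y‖ * p) = q ^ 2 * (‖y‖ * (q * p)) := by ring
    rw [h4]
    calc q ^ 2 * (‖y‖ * (q * p)) ≤ q ^ 2 * (‖y‖ * (32 * ‖y‖)) := by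
          refine mul_le_mul_of_nonneg_left (mul_le_mul_of_nonneg_left hP2 hy) (by positivity)
      _ ≤ q * (‖y‖ * (32 * ‖y‖)) := mul_le_mul_of_nonneg_right h3 (by positivity)
      _ = _ := by ring
  nlinarith

include C hξ hτ in
theorem B5 : |2 * (∑' k : ℕ, be (k + 7) * (starRingEnd ℂ) (YY ξ y) * TT ξ τ (k + 7)).re|
    ≤ 1 / 16 * ∑' k, en τ k + 32 * ((2 / 10 ^ 6) ^ 2 / c7) * ‖y‖ ^ 2 := by
  refine tail_c (summable_en hτ) fun k => ?_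
  have hp := half_pos k
  have hl := half_le k
  have hb := C.be7 k
  have hT := norm_TT_le (τ := τ) hξ (k + 7)
  have hY := norm_YY_le hξ y
  rw [norm_mul, norm_mul, RCLike.norm_conj]
  unfold en
  rw [pow4, half_succ]
  set q := ((1 : ℝ) / 2) ^ k with hq
  set x := ‖τ (k + 7)‖
  have hx : 0 ≤ x := norm_nonneg _
  have hy : 0 ≤ ‖y‖ := norm_nonneg _
  have hc := c7_pos
  have h1 : 2 * (‖be (k + 7)‖ * ‖YY ξ y‖ * ‖TT ξ τ (k + 7)‖)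
      ≤ 2 * x * ((2 / 10 ^ 6) * q ^ 3 * ‖y‖) := by
    have a1 : ‖be (k + 7)‖ * ‖YY ξ y‖ ≤ ((2 / 10 ^ 6) * q ^ 3) * ‖y‖ :=
      mul_le_mul hb hY (norm_nonneg _) (by positivity)
    have a2 := mul_le_mul a1 hT (norm_nonneg _) (by positivity)
    linarith
  have h2 := amgm (a := x) (b := (2 / 10 ^ 6) * q ^ 3 * ‖y‖) (c := c7 / 16 * q ^ 2) (by positivity)
  have h3 : ((2 / 10 ^ 6) * q ^ 3 * ‖y‖) ^ 2 / (c7 / 16 * q ^ 2)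
      = 16 * ((2 / 10 ^ 6) ^ 2 / c7) * (q ^ 4 * ‖y‖ ^ 2) := by
    field_simp
  have h7 : q ^ 4 ≤ q := by
    have : q ^ 4 = q * q ^ 3 := by ring
    rw [this]
    have : q ^ 3 ≤ 1 := pow_le_one₀ hp.le hl
    nlinarith
  have h8 : 16 * ((2 / 10 ^ 6) ^ 2 / c7) * (q ^ 4 * ‖y‖ ^ 2)
      ≤ 16 * ((2 / 10 ^ 6) ^ 2 / c7) * (q * ‖y‖ ^ 2) :=
    mul_le_mul_of_nonneg_left (mul_le_mul_of_nonneg_right h7 (by positivity)) (by positivity)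
  rw [h3] at h2
  calc 2 * (‖be (k + 7)‖ * ‖YY ξ y‖ * ‖TT ξ τ (k + 7)‖) ≤ _ := h1
    _ ≤ _ := h2
    _ ≤ c7 / 16 * q ^ 2 * x ^ 2 + 16 * ((2 / 10 ^ 6) ^ 2 / c7) * (q * ‖y‖ ^ 2) := by linarith
    _ = _ := by ring

include C hξ hτ in
theorem B6 : |2 * (∑' k : ℕ, (starRingEnd ℂ) (be (k + 7)) * (starRingEnd ℂ) (YY ξ y) * VV chi ξ y τ (k + 7)).re|
    ≤ 1 / 16 * ∑' k, en τ k + (32 * ((2 / 10 ^ 6) ^ 2 / c7) + 16 / 10 ^ 6) * ‖y‖ ^ 2 := by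
  refine tail_c (summable_en hτ) fun k => ?_
  have hp := half_pos k
  have hl := half_le k
  have hb := C.be7 k
  have hT := norm_VV_le (τ := τ) C hξ y (k + 7)
  have hY := norm_YY_le hξ y
  rw [norm_mul, norm_mul, RCLike.norm_conj, RCLike.norm_conj]
  unfold en
  rw [pow4, half_succ]
  set q := ((1 : ℝ) / 2) ^ k with hq
  set x := ‖τ (k + 7)‖
  have hx : 0 ≤ x := norm_nonneg _
  have hy : 0 ≤ ‖y‖ := norm_nonneg _
  have hc := c7_pos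
  have h1 : 2 * (‖be (k + 7)‖ * ‖YY ξ y‖ * ‖VV chi ξ y τ (k + 7)‖)
      ≤ 2 * x * ((2 / 10 ^ 6) * q ^ 3 * ‖y‖) + 8 / 10 ^ 6 * q ^ 3 * ‖y‖ ^ 2 := by
    have a1 : ‖be (k + 7)‖ * ‖YY ξ y‖ ≤ ((2 / 10 ^ 6) * q ^ 3) * ‖y‖ :=
      mul_le_mul hb hY (norm_nonneg _) (by positivity)
    have a2 := mul_le_mul a1 hT (norm_nonneg _) (by positivity)
    linarith
  have h2 := amgm (a := x) (b := (2 / 10 ^ 6) * q ^ 3 * ‖y‖) (c := c7 / 16 * q ^ 2) (by positivity)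
  have h3 : ((2 / 10 ^ 6) * q ^ 3 * ‖y‖) ^ 2 / (c7 / 16 * q ^ 2)
      = 16 * ((2 / 10 ^ 6) ^ 2 / c7) * (q ^ 4 * ‖y‖ ^ 2) := by
    field_simp
  have h7 : q ^ 4 ≤ q := by
    have : q ^ 4 = q * q ^ 3 := by ring
    rw [this]
    have : q ^ 3 ≤ 1 := pow_le_one₀ hp.le hl
    nlinarith
  have h9 : q ^ 3 ≤ q := by
    have : q ^ 3 = q * q ^ 2 := by ring
    rw [this]
    have : q ^ 2 ≤ 1 := pow_le_one₀ hp.le hl
    nlinarith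
  have h8 : 16 * ((2 / 10 ^ 6) ^ 2 / c7) * (q ^ 4 * ‖y‖ ^ 2)
      ≤ 16 * ((2 / 10 ^ 6) ^ 2 / c7) * (q * ‖y‖ ^ 2) :=
    mul_le_mul_of_nonneg_left (mul_le_mul_of_nonneg_right h7 (by positivity)) (by positivity)
  have h10 : 8 / 10 ^ 6 * q ^ 3 * ‖y‖ ^ 2 ≤ 8 / 10 ^ 6 * q * ‖y‖ ^ 2 := by
    have := mul_le_mul_of_nonneg_right h9 (sq_nonneg ‖y‖)
    nlinarith
  rw [h3] at h2
  calc 2 * (‖be (k + 7)‖ * ‖YY ξ y‖ * ‖VV chi ξ y τ (k + 7)‖) ≤ _ := h1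
    _ ≤ c7 / 16 * q ^ 2 * x ^ 2 + 16 * ((2 / 10 ^ 6) ^ 2 / c7) * (q * ‖y‖ ^ 2)
        + 8 / 10 ^ 6 * q * ‖y‖ ^ 2 := by linarith
    _ = _ := by ring

include C hξ hτ in
theorem B7 : - (1 / 8 * ∑' k, en τ k + 64 * c7 * ‖y‖ ^ 2)
    ≤ c7 * ∑' k : ℕ, ((1 : ℝ) / 4) ^ k * ‖VV chi ξ y τ (k + 7)‖ ^ 2
      - c7 * ∑' k : ℕ, ((1 : ℝ) / 4) ^ k * ‖TT ξ τ (k + 7)‖ ^ 2 := by
  have sV := summable_en (Gb_VV (ξ := ξ) C y hτ)
  have sT := summable_en (Gb_TT (ξ := ξ) hτ)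
  have h0 := tail_r (f := fun k => en (TT ξ τ) k - en (VV chi ξ y τ) k) (summable_en hτ)
    (sT.sub sV) (a := 1 / 8) (G := 64 * c7 * ‖y‖ ^ 2) ?_
  · rw [sT.tsum_sub sV] at h0
    unfold en at h0 ⊢
    rw [tsum_mul_left, tsum_mul_left, tsum_mul_left] at h0
    rw [tsum_mul_left]
    linarith
  intro k
  have hp := half_pos k
  have hl := half_le k
  have hT := norm_TT_le (τ := τ) hξ (k + 7)
  have hV := norm_VV_ge (τ := τ) C hξ y (k + 7)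
  unfold en
  rw [pow4, half_succ]
  set q := ((1 : ℝ) / 2) ^ k with hq
  set x := ‖τ (k + 7)‖
  set t := ‖TT ξ τ (k + 7)‖
  set w := ‖VV chi ξ y τ (k + 7)‖
  have hx : 0 ≤ x := norm_nonneg _
  have ht : 0 ≤ t := norm_nonneg _
  have hw : 0 ≤ w := norm_nonneg _
  have hy : 0 ≤ ‖y‖ := norm_nonneg _
  have hc := c7_pos
  have h1 : t ^ 2 - w ^ 2 ≤ 4 * t * ‖y‖ := by
    rcases le_or_gt (2 * ‖y‖) t with h | h
    · have : (t - 2 * ‖y‖) ^ 2 ≤ w ^ 2 := pow_le_pow_left₀ (by linarith) hV 2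
      nlinarith
    · nlinarith [sq_nonneg w]
  have h2 : 4 * t * ‖y‖ ≤ 1 / 8 * x ^ 2 + 32 * ‖y‖ ^ 2 := by
    have : 4 * t * ‖y‖ ≤ 4 * x * ‖y‖ := by nlinarith
    nlinarith [sq_nonneg (x - 16 * ‖y‖)]
  have h3 : t ^ 2 - w ^ 2 ≤ 1 / 8 * x ^ 2 + 32 * ‖y‖ ^ 2 := h1.trans h2
  have h4 : q ^ 2 * (t ^ 2 - w ^ 2) ≤ q ^ 2 * (1 / 8 * x ^ 2 + 32 * ‖y‖ ^ 2) :=
    mul_le_mul_of_nonneg_left h3 (by positivity)
  have h5 : q ^ 2 * (32 * ‖y‖ ^ 2) ≤ q * (32 * ‖y‖ ^ 2) := by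
    have : q ^ 2 ≤ q := by nlinarith
    exact mul_le_mul_of_nonneg_right this (by positivity)
  have h6 : q ^ 2 * (t ^ 2 - w ^ 2) ≤ 1 / 8 * (q ^ 2 * x ^ 2) + 32 * ‖y‖ ^ 2 * q := by linarith
  have h7 := mul_le_mul_of_nonneg_left h6 hc.le
  calc c7 * (q ^ 2 * t ^ 2) - c7 * (q ^ 2 * w ^ 2) = c7 * (q ^ 2 * (t ^ 2 - w ^ 2)) := by ring
    _ ≤ _ := h7
    _ = _ := by ring

include C hτ in
theorem B8 : 10 ^ 4 * ‖∑' k : ℕ, al (k + 7) * τ (k + 7)‖ ^ 2 ≤ 1 / 8 * ∑' k, en τ k := by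
  have hτ4 : Gb 4 τ := hτ.mono (by norm_num) (by norm_num)
  have sA := C.summ_al hτ4
  have sA7 : Summable (fun k => al (k + 7) * τ (k + 7)) := (summable_nat_add_iff 7).mpr sA
  have sE := summable_en hτ
  -- partial sums
  have hpart : ∀ n : ℕ, 10 ^ 4 * ‖∑ k ∈ Finset.range n, al (k + 7) * τ (k + 7)‖ ^ 2
      ≤ 1 / 8 * ∑' k, en τ k := by
    intro n
    have h1 : ‖∑ k ∈ Finset.range n, al (k + 7) * τ (k + 7)‖
        ≤ ∑ k ∈ Finset.range n, ((22 / 10 ^ 7 : ℝ) * ((1 / 2) ^ k) ^ 2) * (((1 / 2) ^ k) * ‖τ (k + 7)‖) := by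
      refine (norm_sum_le _ _).trans (Finset.sum_le_sum fun k _ => ?_)
      rw [norm_mul]
      have := mul_le_mul_of_nonneg_right (C.al_tail k) (norm_nonneg (τ (k + 7)))
      rw [pow8] at this
      calc _ ≤ _ := this
        _ = _ := by ring
    have h2 := Finset.sum_mul_sq_le_sq_mul_sq (Finset.range n)
      (fun k => (22 / 10 ^ 7 : ℝ) * ((1 / 2) ^ k) ^ 2) (fun k => ((1 / 2) ^ k) * ‖τ (k + 7)‖)
    have h3 : ∑ k ∈ Finset.range n, ((22 / 10 ^ 7 : ℝ) * ((1 / 2) ^ k) ^ 2) ^ 2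
        ≤ (22 / 10 ^ 7 : ℝ) ^ 2 * (16 / 15) := by
      have e : ∀ k : ℕ, ((22 / 10 ^ 7 : ℝ) * ((1 / 2) ^ k) ^ 2) ^ 2
          = (22 / 10 ^ 7 : ℝ) ^ 2 * (1 / 16) ^ k := by
        intro k
        have : ((1 : ℝ) / 16) ^ k = ((1 / 2) ^ k) ^ 4 := by
          rw [← pow_mul, mul_comm, pow_mul]; norm_num
        rw [this]; ring
      rw [Finset.sum_congr rfl (fun k _ => e k), ← Finset.mul_sum]
      refine mul_le_mul_of_nonneg_left ?_ (by positivity)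
      have h4 : ∑ k ∈ Finset.range n, ((1 : ℝ) / 16) ^ k ≤ ∑' k : ℕ, ((1 : ℝ) / 16) ^ k :=
        (summable_geometric_of_lt_one (by norm_num) (by norm_num)).sum_le_tsum _
          (fun k _ => by positivity)
      rw [tsum_geometric_of_lt_one (by norm_num) (by norm_num)] at h4
      refine h4.trans (by norm_num)
    have h4 : ∑ k ∈ Finset.range n, (((1 / 2) ^ k) * ‖τ (k + 7)‖) ^ 2 ≤ (∑' k, en τ k) / c7 := by
      rw [le_div_iff₀ c7_pos, Finset.sum_mul]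
      have : ∑ k ∈ Finset.range n, (((1 / 2) ^ k) * ‖τ (k + 7)‖) ^ 2 * c7
          = ∑ k ∈ Finset.range n, en τ k := by
        refine Finset.sum_congr rfl fun k _ => ?_
        unfold en; rw [pow4]; ring
      rw [this]
      exact sE.sum_le_tsum _ (fun k _ => en_nonneg τ k)
    have h5 : ‖∑ k ∈ Finset.range n, al (k + 7) * τ (k + 7)‖ ^ 2
        ≤ (22 / 10 ^ 7 : ℝ) ^ 2 * (16 / 15) * ((∑' k, en τ k) / c7) := by
      calc _ ≤ (∑ k ∈ Finset.range n,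
            ((22 / 10 ^ 7 : ℝ) * ((1 / 2) ^ k) ^ 2) * (((1 / 2) ^ k) * ‖τ (k + 7)‖)) ^ 2 :=
            pow_le_pow_left₀ (norm_nonneg _) h1 2
        _ ≤ _ := h2
        _ ≤ _ := mul_le_mul h3 h4 (Finset.sum_nonneg fun k _ => by positivity) (by positivity)
    have hE0 : 0 ≤ ∑' k, en τ k := tsum_nonneg (en_nonneg τ)
    have h6 : 10 ^ 4 * ((22 / 10 ^ 7 : ℝ) ^ 2 * (16 / 15) * ((∑' k, en τ k) / c7))
        ≤ 1 / 8 * ∑' k, en τ k := by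
      unfold c7
      rw [show (∑' k, en τ k) / (1 / 1683375) = 1683375 * ∑' k, en τ k by ring]
      nlinarith
    nlinarith
  have ht : Filter.Tendsto (fun n => 10 ^ 4 * ‖∑ k ∈ Finset.range n, al (k + 7) * τ (k + 7)‖ ^ 2)
      Filter.atTop (nhds (10 ^ 4 * ‖∑' k : ℕ, al (k + 7) * τ (k + 7)‖ ^ 2)) :=
    ((sA7.hasSum.tendsto_sum_nat.norm).pow 2).const_mul _
  exact le_of_tendsto ht (Filter.Eventually.of_forall hpart)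

end bounds

end Pool.Agent.H81.W
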